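import Pool.Agent.Lib.MP_3145b1_co.UM.Spec

/-!
# MP_3145b1_co, project UM: the averaging lemma
-/

set_option autoImplicit false

namespace Pool.Agent.MP3145b1.UM

open Finset Pool.Agent.MP3145b1 Pool.Agent.MP3145b1.RC Pool.Agent.MP3145b1.RD Pool.Agent.MP3145b1.RT

theorem rUAv : S_UAv := by
  intro s w X R hw hpos hR
  by_contra hcon
  push Not at hcon
  have h1 : ∑ T ∈ s, w T * R < ∑ T ∈ s, w T * ((∑ T ∈ s, w T) * X T) := by
    obtain ⟨T₀, hT₀, hT₀'⟩ := Finset.exists_lt_of_sum_lt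
      (show ∑ T ∈ s, (0 : ℝ) < ∑ T ∈ s, w T by rw [Finset.sum_const_zero]; exact hpos)
    refine Finset.sum_lt_sum (fun T hT => ?_) ⟨T₀, hT₀, ?_⟩
    · rcases (hw T hT).eq_or_lt with h | h
      · rw [← h, zero_mul, zero_mul]
      · exact mul_le_mul_of_nonneg_left (hcon T hT h).le h.le
    · exact mul_lt_mul_of_pos_left (hcon T₀ hT₀ hT₀') hT₀'
  have h2 : ∑ T ∈ s, w T * ((∑ T ∈ s, w T) * X T) = (∑ T ∈ s, w T) * ∑ T ∈ s, w T * X T := by
    rw [Finset.mul_sum]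
    exact Finset.sum_congr rfl fun T _ => by ring
  rw [← Finset.sum_mul, h2] at h1
  have h3 := mul_le_mul_of_nonneg_left hR hpos.le
  linarith

end Pool.Agent.MP3145b1.UM
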