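import Pool.Agent.Lib.MP_3145b1_co.UM.Spec

/-!
# MP_3145b1_co, project UM, module UCl: the inequality for the class `UG w`
-/

set_option autoImplicit false

namespace Pool.Agent.MP3145b1.UM

open Finset Pool.Agent.MP3145b1 Pool.Agent.MP3145b1.RC Pool.Agent.MP3145b1.RD Pool.Agent.MP3145b1.RT

/-- constants: the variance is zero -/
private theorem UCl_const (K : ℝ) (N : ℕ) (c : ℝ) (hc : c = 1 ∨ c = -1) :
    Mq K (fun _ : Fin N → Bool => c) := by
  have h1 : coeff (fun _ : Fin N → Bool => c) ∅ = c := by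
    rw [Q.coeff_mean]
    have : (fun x : Fin N → Bool => c * sgn x ∅) = fun _ => c := by
      funext x
      simp [sgn]
    rw [this, Q.mean_const]
  have h3 : c ^ 2 = 1 := by
    rcases hc with h | h <;> rw [h] <;> norm_num
  intro h
  rw [h1, h3] at h
  exact absurd h (by norm_num)

/-- variables -/
private theorem UCl_var (K : ℝ) (N : ℕ) (a : Fin N) :
    Mq K (fun x : Fin N → Bool => if x a then -1 else 1) := by
  set f : (Fin N → Bool) → ℝ := fun x => if x a then -1 else 1 with hf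
  have hsg : ∀ x : Fin N → Bool, f x = sgn x {a} := by
    intro x
    simp [hf, sgn]
  have h1 : coeff f {a} = 1 := by
    rw [Q.coeff_mean]
    have : (fun x : Fin N → Bool => f x * sgn x {a}) = fun _ => (1 : ℝ) := by
      funext x
      rw [hsg, ← pow_two, sgn_sq]
    rw [this, Q.mean_const]
  have hpar : ∑ S : Finset (Fin N), coeff f S ^ 2 = 1 := by
    rw [Q.parseval]
    have : (fun x : Fin N → Bool => f x ^ 2) = fun _ => (1 : ℝ) := by
      funext x
      rw [hsg, sgn_sq]
    rw [this, Q.mean_const]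
  have h0 : ∀ S : Finset (Fin N), S ≠ {a} → coeff f S = 0 := by
    intro S hS
    have h2 : coeff f S ^ 2 ≤ 0 := by
      have h3 : coeff f S ^ 2 + coeff f {a} ^ 2 ≤ ∑ S : Finset (Fin N), coeff f S ^ 2 := by
        rw [← Finset.sum_pair (f := fun S => coeff f S ^ 2) hS]
        exact Finset.sum_le_sum_of_subset_of_nonneg (Finset.subset_univ _)
          (fun _ _ _ => sq_nonneg _)
      rw [hpar, h1] at h3
      linarith
    exact pow_eq_zero_iff (two_ne_zero) |>.mp (le_antisymm h2 (sq_nonneg _))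
  have h2 : influence f = 1 := by
    unfold influence
    rw [Finset.sum_eq_single ({a} : Finset (Fin N))]
    · rw [h1]
      simp
    · intro S _ hS
      rw [h0 S hS]
      simp
    · intro h
      exact absurd (Finset.mem_univ _) h
  have h3 : coeff f ∅ = 0 := h0 ∅ (by
    intro h
    exact (Finset.singleton_ne_empty a) h.symm)
  intro _
  refine ⟨{a}, Finset.singleton_ne_empty a, ?_, ?_⟩
  · rw [h1]
    exact one_ne_zero
  · rw [h1, h2, h3]
    norm_num

private theorem UCl_coeff_neg {N : ℕ} (f : (Fin N → Bool) → ℝ) (S : Finset (Fin N)) :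
    coeff (fun x => - f x) S = - coeff f S := by
  unfold coeff
  rw [← mul_neg, ← Finset.sum_neg_distrib]
  congr 1
  exact Finset.sum_congr rfl fun x _ => by rw [neg_mul]

private theorem UCl_neg (K : ℝ) {N : ℕ} (f : (Fin N → Bool) → ℝ) (hf : Mq K f) :
    Mq K (fun x => - f x) := by
  have hI : influence (fun x => - f x) = influence f := by
    unfold influence
    simp only [UCl_coeff_neg, neg_sq]
  intro h
  rw [UCl_coeff_neg, neg_sq] at h
  obtain ⟨S, h1, h2, h3⟩ := hf h
  refine ⟨S, h1, ?_, ?_⟩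
  · rw [UCl_coeff_neg]
    exact neg_ne_zero.mpr h2
  · rw [hI]
    simp only [UCl_coeff_neg, neg_sq]
    exact h3

private theorem UCl_all (h1 : S_UTh) (h2 : S_USy) (h3 : S_UUa) (h4 : S_UPr) (w : ℕ) (K0 K : ℝ)
    (hPG : PG w K0) (hK0 : K0 ≤ K) (hK : 30000 ≤ K) (N : ℕ) (f : (Fin N → Bool) → ℝ)
    (hf : UG w f) :
    (∀ x, f x = 1 ∨ f x = -1) ∧ Mq K f := by
  induction hf with
  | const c =>
    refine ⟨fun x => ?_, ?_⟩
    · cases c <;> simp
    · exact UCl_const K N _ (by cases c <;> simp)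
  | var a =>
    refine ⟨fun x => ?_, UCl_var K N a⟩
    beta_reduce
    split_ifs
    · exact Or.inr rfl
    · exact Or.inl rfl
  | neg f _ ih =>
    refine ⟨fun x => ?_, UCl_neg K f ih.2⟩
    beta_reduce
    rcases ih.1 x with h | h
    · exact Or.inr (by rw [h])
    · exact Or.inl (by rw [h]; norm_num)
  | una P u hP hd _ M φ hφ ih =>
    refine ⟨fun x => ?_, h3 K N M P u φ hK hφ ⟨hP, hd, fun i x => (ih i).1 x⟩
      (fun i => (ih i).2)⟩
    beta_reduce
    split_ifs
    · exact Or.inr rfl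
    · exact Or.inl rfl
  | thr P u hP hd _ M a θ1 θ2 ih =>
    refine ⟨fun x => ?_, h1 K N M P u a θ1 θ2 hK ⟨hP, hd, fun i x => (ih i).1 x⟩
      (fun i => (ih i).2)⟩
    beta_reduce
    split_ifs
    · exact Or.inr rfl
    · exact Or.inl rfl
  | sym P u hP hd _ M φ ih =>
    refine ⟨fun x => ?_, h2 K N M P u φ hK ⟨hP, hd, fun i x => (ih i).1 x⟩
      (fun i => (ih i).2)⟩
    beta_reduce
    split_ifs
    · exact Or.inr rfl
    · exact Or.inl rfl
  | prog P u hP hd _ n s v x0 o hr ih =>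
    refine ⟨fun x => ?_, h4 w K0 K hPG hK0 (by linarith) N P u ⟨hP, hd, fun i x => (ih i).1 x⟩
      (fun i => (ih i).2) n s v x0 o hr⟩
    beta_reduce
    split_ifs
    · exact Or.inr rfl
    · exact Or.inl rfl

/-- **UCl** (the class) -/
theorem rUCl (h1 : S_UTh) (h2 : S_USy) (h3 : S_UUa) (h4 : S_UPr) : S_UCl :=
  fun w K0 K hPG hK0 hK N f hf => UCl_all h1 h2 h3 h4 w K0 K hPG hK0 hK N f hf

end Pool.Agent.MP3145b1.UM
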