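import Pool.Agent.Lib.MP_3145b1_co.UM.Spec

/-!
# MP_3145b1_co, project UM, module UCm: the sharp min-entropy inequality is preserved by composition
-/

set_option autoImplicit false

namespace Pool.Agent.MP3145b1.UM

open Finset Pool.Agent.MP3145b1 Pool.Agent.MP3145b1.RC Pool.Agent.MP3145b1.RD Pool.Agent.MP3145b1.RT

private theorem UCm_split (M i : ℕ) (hi : i < M) (f : Finset ℕ → ℝ) :
    ∑ T ∈ (range M).powerset, f T = ∑ T ∈ ((range M).erase i).powerset, (f T + f (insert i T)) := by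
  have h : range M = insert i ((range M).erase i) := by
    rw [Finset.insert_erase (Finset.mem_range.2 hi)]
  conv_lhs => rw [h]
  rw [Finset.sum_powerset_insert (Finset.notMem_erase i _), Finset.sum_add_distrib]

private theorem UCm_filter (M i : ℕ) :
    (range M).powerset.filter (fun T => i ∉ T) = ((range M).erase i).powerset := by
  ext T
  rw [Finset.mem_filter, Finset.mem_powerset, Finset.mem_powerset, Finset.subset_erase]

/-- exchange of the sums -/
private theorem UCm_exch (p κ : ℕ → ℝ) (M : ℕ) (c : Finset ℕ → ℝ) :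
    ∑ T ∈ (range M).powerset.erase ∅, wt p T * c T ^ 2 * (∑ i ∈ T, κ i) =
      ∑ i ∈ range M, κ i * (vi p i *
        ∑ T ∈ (range M).powerset.filter (fun T => i ∉ T), wt p T * c (insert i T) ^ 2) := by
  have e0 : ∑ T ∈ (range M).powerset.erase ∅, wt p T * c T ^ 2 * (∑ i ∈ T, κ i) =
      ∑ T ∈ (range M).powerset, wt p T * c T ^ 2 * (∑ i ∈ T, κ i) := by
    rw [← Finset.sum_erase_add _ _ (Finset.empty_mem_powerset (range M))]
    simp
  have e1 : ∀ T ∈ (range M).powerset, wt p T * c T ^ 2 * (∑ i ∈ T, κ i) =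
      ∑ i ∈ range M, if i ∈ T then κ i * (wt p T * c T ^ 2) else 0 := by
    intro T hT
    rw [← Finset.sum_filter, Finset.filter_mem_eq_inter,
      Finset.inter_eq_right.2 (Finset.mem_powerset.1 hT), Finset.mul_sum]
    exact Finset.sum_congr rfl fun i _ => by ring
  rw [e0, Finset.sum_congr rfl e1, Finset.sum_comm]
  apply Finset.sum_congr rfl
  intro i hi
  rw [UCm_split M i (Finset.mem_range.1 hi), UCm_filter, Finset.mul_sum, Finset.mul_sum]
  apply Finset.sum_congr rfl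
  intro T hT
  have hiT : i ∉ T := fun h => Finset.notMem_erase i (range M) (Finset.mem_powerset.1 hT h)
  rw [if_neg hiT, if_pos (Finset.mem_insert_self i T), zero_add, wt_insert _ _ _ hiT]
  unfold vi
  ring

private theorem UCm_infl {N : ℕ} (g : (Fin N → Bool) → ℝ) : 0 ≤ influence g := by
  unfold influence
  exact Finset.sum_nonneg fun S _ => mul_nonneg (Nat.cast_nonneg _) (sq_nonneg _)

private theorem UCm_log {m V : ℝ} (hm : m ≠ 0) (h : |m| ≤ V) :
    2 * Real.log (1 / V) ≤ Real.log (1 / m ^ 2) := by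
  have hm' : 0 < |m| := abs_pos.2 hm
  have h1 := Real.log_le_log hm' h
  have e : Real.log (m ^ 2) = 2 * Real.log |m| := by
    rw [← sq_abs, Real.log_pow]
    norm_num
  rw [one_div, one_div, Real.log_inv, Real.log_inv, e]
  linarith

/-- the chosen set of a composition -/
private theorem UCm_set {N : ℕ} (P R : ℕ → Finset (Fin N)) (hP : ∀ i j, i ≠ j → Disjoint (P i) (P j))
    (M : ℕ) (T : Finset ℕ) (hT : T ⊆ range M) (hR : ∀ i ∈ T, R i ⊆ P i) (hR0 : ∀ i ∈ T, R i ≠ ∅) :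
    T.biUnion R ⊆ (range M).biUnion P ∧ TT P M (T.biUnion R) = T ∧
      ∀ i ∈ T, T.biUnion R ∩ P i = R i := by
  have h2 : ∀ i ∈ T, T.biUnion R ∩ P i = R i := by
    intro i hi
    ext b
    rw [Finset.mem_inter, Finset.mem_biUnion]
    constructor
    · rintro ⟨⟨j, hj, hb⟩, hbi⟩
      by_cases hij : j = i
      · rw [← hij]; exact hb
      · exact absurd hbi (Finset.disjoint_left.1 (hP j i hij) (hR j hj hb))
    · intro hb
      exact ⟨⟨i, hi, hb⟩, hR i hi hb⟩
  refine ⟨?_, ?_, h2⟩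
  · intro b hb
    obtain ⟨i, hi, hbi⟩ := Finset.mem_biUnion.1 hb
    exact Finset.mem_biUnion.2 ⟨i, hT hi, hR i hi hbi⟩
  · ext i
    unfold TT
    rw [Finset.mem_filter]
    constructor
    · rintro ⟨_, b, hb⟩
      obtain ⟨hb1, hb2⟩ := Finset.mem_inter.1 hb
      obtain ⟨j, hj, hbj⟩ := Finset.mem_biUnion.1 hb1
      by_cases hij : j = i
      · rw [← hij]; exact hj
      · exact absurd hb2 (Finset.disjoint_left.1 (hP j i hij) (hR j hj hbj))
    · intro hi
      refine ⟨hT hi, ?_⟩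
      rw [h2 i hi]
      exact Finset.nonempty_iff_ne_empty.2 (hR0 i hi)

theorem rUCm (h1 : S_Prd) (h2 : S_Vsm) (h3 : S_TFml) (h4 : S_UMx) (h5 : S_UPv) : S_UCm := by
  intro K N M P u f c hK hC hf hval hGM hu hV
  have hp : ∀ i, 0 ≤ pb u i ∧ pb u i ≤ 1 := fun i => (h2 N P u hC i).1
  have hVi : ∀ i, vi (pb u) i = 1 - coeff (u i) ∅ ^ 2 := fun i => (h2 N P u hC i).2.1
  have hv0 : ∀ i, 0 ≤ vi (pb u) i := vi_nonneg hp
  obtain ⟨-, f2, f3, f4⟩ := h3 N M P u f c hC hf
  have hch : ∀ i, ∃ R : Finset (Fin N), 0 < vi (pb u) i → R ≠ ∅ ∧ coeff (u i) R ≠ 0 ∧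
      vi (pb u) i * Real.log (1 / coeff (u i) R ^ 2) ≤ K * (influence (u i) - vi (pb u) i) := by
    intro i
    by_cases h : 0 < vi (pb u) i
    · have h' := h
      rw [hVi i] at h'
      obtain ⟨S, hS1, hS2, hS3⟩ := hu i h'
      refine ⟨S, fun _ => ⟨hS1, hS2, ?_⟩⟩
      rw [hVi i]
      exact hS3
    · exact ⟨∅, fun h' => absurd h' h⟩
  choose R hR using hch
  obtain ⟨κ, hκ⟩ : ∃ κ : ℕ → ℝ, κ = fun i =>
      if 0 < vi (pb u) i then Real.log (1 / coeff (u i) (R i) ^ 2) else 0 := ⟨_, rfl⟩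
  have hκ1 : ∀ i, 0 < vi (pb u) i → κ i = Real.log (1 / coeff (u i) (R i) ^ 2) := by
    intro i hi
    rw [hκ]
    exact if_pos hi
  have hκ2 : ∀ i, i < M → 0 < vi (pb u) i → 2 * Real.log (1 / vi (pb u) i) ≤ κ i := by
    intro i _ hi
    obtain ⟨hR1, hR2, -⟩ := hR i hi
    rw [hκ1 i hi]
    refine UCm_log hR2 ?_
    rw [hVi i]
    exact h4 N (u i) (hC.2.2 i) (R i) hR1
  have hκ3 : ∀ i, κ i * vi (pb u) i ≤ K * (influence (u i) - vi (pb u) i) := by
    intro i
    rcases (hv0 i).lt_or_eq with hi | hi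
    · rw [hκ1 i hi, mul_comm]
      exact (hR i hi).2.2
    · rw [← hi, mul_zero, sub_zero]
      exact mul_nonneg hK (UCm_infl (u i))
  have hsum : ∑ T ∈ (range M).powerset.erase ∅, wt (pb u) T * c T ^ 2 = 1 - coeff f ∅ ^ 2 := by
    have hs := h5 N M P u f c hC hf hval
    rw [← Finset.sum_erase_add _ _ (Finset.empty_mem_powerset (range M))] at hs
    have hw : wt (pb u) ∅ = 1 := by simp [wt]
    rw [hw, ← f4, one_mul] at hs
    linarith
  obtain ⟨T, hT, hTp, hTi⟩ := hGM κ hκ2 (by rw [hsum]; exact hV)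
  obtain ⟨hT0, hTM⟩ := Finset.mem_erase.1 hT
  have hTM' : T ⊆ range M := Finset.mem_powerset.1 hTM
  have hvT : ∀ i ∈ T, 0 < vi (pb u) i := by
    intro i hi
    rcases (hv0 i).lt_or_eq with h | h
    · exact h
    · exfalso
      have hz : wt (pb u) T = 0 := by
        rw [wt_eq]
        exact Finset.prod_eq_zero hi h.symm
      rw [hz, zero_mul] at hTp
      exact lt_irrefl _ hTp
  have hcT : c T ≠ 0 := by
    intro h
    rw [h] at hTp
    simp at hTp
  have hRP : ∀ i ∈ T, R i ⊆ P i := by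
    intro i hi
    by_contra h
    exact (hR i (hvT i hi)).2.1 (h1.2 N (P i) (u i) (hC.2.1 i) (R i) h)
  obtain ⟨hS1, hS2, hS3⟩ := UCm_set P R hC.1 M T hTM' hRP (fun i hi => (hR i (hvT i hi)).1)
  have hcoef : coeff f (T.biUnion R) = (∏ i ∈ T, coeff (u i) (R i)) * c T := by
    rw [hf, hS2]
    congr 1
    unfold Lp
    rw [if_pos hS1, hS2]
    exact Finset.prod_congr rfl fun i hi => by rw [hS3 i hi]
  have hprod : ∏ i ∈ T, coeff (u i) (R i) ≠ 0 :=
    Finset.prod_ne_zero_iff.2 fun i hi => (hR i (hvT i hi)).2.1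
  have hlog : Real.log (1 / coeff f (T.biUnion R) ^ 2) = Real.log (1 / c T ^ 2) + ∑ i ∈ T, κ i := by
    have e1 : ∑ i ∈ T, κ i = - Real.log ((∏ i ∈ T, coeff (u i) (R i)) ^ 2) := by
      rw [← Finset.prod_pow, Real.log_prod (fun i hi => pow_ne_zero 2 (hR i (hvT i hi)).2.1),
        ← Finset.sum_neg_distrib]
      refine Finset.sum_congr rfl fun i hi => ?_
      rw [hκ1 i (hvT i hi), one_div, Real.log_inv]
    rw [hcoef, mul_pow, one_div, Real.log_inv, one_div, Real.log_inv,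
      Real.log_mul (pow_ne_zero 2 hprod) (pow_ne_zero 2 hcT), e1]
    ring
  refine ⟨T.biUnion R, ?_, ?_, ?_⟩
  · obtain ⟨i, hi⟩ := Finset.nonempty_iff_ne_empty.2 hT0
    intro h
    apply (hR i (hvT i hi)).1
    rw [← hS3 i hi, h, Finset.empty_inter]
  · rw [hcoef]
    exact mul_ne_zero hprod hcT
  · rw [hlog, ← hsum]
    refine hTi.trans ?_
    rw [UCm_exch]
    obtain ⟨Q, hQ⟩ : ∃ Q : ℕ → ℝ, Q = fun i =>
      ∑ T ∈ (range M).powerset.filter (fun T => i ∉ T), wt (pb u) T * c (insert i T) ^ 2 := ⟨_, rfl⟩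
    have hQ0 : ∀ i, 0 ≤ Q i := by
      intro i
      rw [hQ]
      exact Finset.sum_nonneg fun T _ => mul_nonneg (wt_nonneg hp T) (sq_nonneg _)
    have hQi : ∀ i, ∑ T ∈ (range M).powerset.filter (fun T => i ∉ T),
        wt (pb u) T * c (insert i T) ^ 2 = Q i := by
      intro i
      rw [hQ]
    simp only [hQi] at f2 f3 ⊢
    have e2 : ∑ T' ∈ (range M).powerset.erase ∅, ((T'.card : ℝ) - 1) * (wt (pb u) T' * c T' ^ 2) =
        ∑ i ∈ range M, vi (pb u) i * Q i -
          ∑ T' ∈ (range M).powerset.erase ∅, wt (pb u) T' * c T' ^ 2 := by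
      have e3 : ∑ i ∈ range M, vi (pb u) i * Q i =
          ∑ T ∈ (range M).powerset.erase ∅, (T.card : ℝ) * (wt (pb u) T * c T ^ 2) := by
        have e4 : ∑ i ∈ range M, vi (pb u) i * Q i =
            ∑ i ∈ range M, 4 * (pb u i * (1 - pb u i)) * Q i := rfl
        rw [e4, ← f3, ← Finset.sum_erase_add _ _ (Finset.empty_mem_powerset (range M))]
        simp
      rw [e3, ← Finset.sum_sub_distrib]
      exact Finset.sum_congr rfl fun T _ => by ring
    rw [e2, f2]
    have e5 : ∑ i ∈ range M, κ i * (vi (pb u) i * Q i) ≤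
        K * ∑ i ∈ range M, influence (u i) * Q i - K * ∑ i ∈ range M, vi (pb u) i * Q i := by
      rw [Finset.mul_sum, Finset.mul_sum, ← Finset.sum_sub_distrib]
      refine Finset.sum_le_sum fun i _ => ?_
      have h := mul_le_mul_of_nonneg_right (hκ3 i) (hQ0 i)
      linarith
    have e6 : K * (∑ i ∈ range M, influence (u i) * Q i -
        ∑ T' ∈ (range M).powerset.erase ∅, wt (pb u) T' * c T' ^ 2) =
        K * ∑ i ∈ range M, influence (u i) * Q i -
          K * ∑ T' ∈ (range M).powerset.erase ∅, wt (pb u) T' * c T' ^ 2 := by ring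
    have e7 : K * (∑ i ∈ range M, vi (pb u) i * Q i -
        ∑ T' ∈ (range M).powerset.erase ∅, wt (pb u) T' * c T' ^ 2) =
        K * ∑ i ∈ range M, vi (pb u) i * Q i -
          K * ∑ T' ∈ (range M).powerset.erase ∅, wt (pb u) T' * c T' ^ 2 := by ring
    rw [e6, e7]
    linarith

end Pool.Agent.MP3145b1.UM
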