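import Pool.Agent.Lib.MP_3145b1_co.UM.Spec

/-!
# MP_3145b1_co, project UM: the gate condition from the entropy inequality
-/

set_option autoImplicit false

namespace Pool.Agent.MP3145b1.UM

open Finset Pool.Agent.MP3145b1 Pool.Agent.MP3145b1.RC Pool.Agent.MP3145b1.RD Pool.Agent.MP3145b1.RT

private theorem UGE_hh (x : ℝ) : hh (x ^ 2) = x ^ 2 * Real.log (1 / x ^ 2) := by
  unfold hh Real.negMulLog
  rw [one_div, Real.log_inv]
  ring

theorem rUGE (h1 : S_UAv) : S_UGE := by
  intro K p M c hp hsum hent κ _ hpos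
  have hemp : (∅ : Finset ℕ) ∈ (range M).powerset := Finset.empty_mem_powerset _
  have hwt0 : wt p ∅ = 1 := by unfold wt; simp
  -- the three sums without the empty set
  rw [← Finset.add_sum_erase (range M).powerset (fun T => wt p T * c T ^ 2) hemp] at hsum
  rw [← Finset.add_sum_erase (range M).powerset (fun T => wt p T * hh (c T ^ 2)) hemp,
    ← Finset.add_sum_erase (range M).powerset (fun T => (T.card : ℝ) * (wt p T * c T ^ 2)) hemp] at hent
  simp only [hwt0, one_mul, Finset.card_empty, Nat.cast_zero, zero_mul, zero_add] at hsum hent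
  have e1 : ∑ T ∈ (range M).powerset.erase ∅, wt p T * c T ^ 2 * Real.log (1 / c T ^ 2) ≤
      K * ∑ T ∈ (range M).powerset.erase ∅, ((T.card : ℝ) - 1) * (wt p T * c T ^ 2) := by
    have e2 : ∑ T ∈ (range M).powerset.erase ∅, wt p T * c T ^ 2 * Real.log (1 / c T ^ 2) =
        ∑ T ∈ (range M).powerset.erase ∅, wt p T * hh (c T ^ 2) :=
      Finset.sum_congr rfl fun T _ => by rw [UGE_hh]; ring
    have e3 : ∑ T ∈ (range M).powerset.erase ∅, ((T.card : ℝ) - 1) * (wt p T * c T ^ 2) =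
        ∑ T ∈ (range M).powerset.erase ∅, (T.card : ℝ) * (wt p T * c T ^ 2) -
          ∑ T ∈ (range M).powerset.erase ∅, wt p T * c T ^ 2 := by
      rw [← Finset.sum_sub_distrib]
      exact Finset.sum_congr rfl fun T _ => by ring
    rw [e2, e3]
    have e4 : ∑ T ∈ (range M).powerset.erase ∅, wt p T * c T ^ 2 = 1 - c ∅ ^ 2 := by linarith
    rw [e4]
    linarith
  refine h1 _ (fun T => wt p T * c T ^ 2) (fun T => Real.log (1 / c T ^ 2) + ∑ i ∈ T, κ i) _
    (fun T _ => mul_nonneg (wt_nonneg hp T) (sq_nonneg _)) hpos ?_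
  have e5 : ∑ T ∈ (range M).powerset.erase ∅, wt p T * c T ^ 2 *
      (Real.log (1 / c T ^ 2) + ∑ i ∈ T, κ i) =
      ∑ T ∈ (range M).powerset.erase ∅, wt p T * c T ^ 2 * Real.log (1 / c T ^ 2) +
        ∑ T ∈ (range M).powerset.erase ∅, wt p T * c T ^ 2 * (∑ i ∈ T, κ i) := by
    rw [← Finset.sum_add_distrib]
    exact Finset.sum_congr rfl fun T _ => by ring
  show ∑ T ∈ (range M).powerset.erase ∅, wt p T * c T ^ 2 *
      (Real.log (1 / c T ^ 2) + ∑ i ∈ T, κ i) ≤ _
  rw [e5]
  linarith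

end Pool.Agent.MP3145b1.UM
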