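import Pool.Agent.Lib.MP_3145b1_co.UM.Spec

set_option autoImplicit false

namespace Pool.Agent.MP3145b1.UM

open Finset Pool.Agent.MP3145b1 Pool.Agent.MP3145b1.RC Pool.Agent.MP3145b1.RD Pool.Agent.MP3145b1.RT

private theorem UHc_pull (p ρ : ℕ → ℝ) (J : Finset ℕ) (i : ℕ) (hi : i ∉ J) (c : Finset ℕ → ℝ) (U : Finset ℕ) :
    Py p J (fun T => (∏ j ∈ insert i T, ρ j) * c (insert i T)) U =
      ρ i * Py p J (fun T => (∏ j ∈ T, ρ j) * c (insert i T)) U := by
  unfold Py
  rw [Finset.mul_sum]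
  refine Finset.sum_congr rfl fun T hT => ?_
  have hiT : i ∉ T := fun h => hi (Finset.mem_powerset.1 hT h)
  simp only []
  rw [Finset.prod_insert hiT]
  ring

private theorem UHc_sq (p : ℕ → ℝ) (J : Finset ℕ) (V : ℝ) (A B : Finset ℕ → ℝ) :
    EU p J (fun U => (A U ^ 2 + V * B U ^ 2) ^ 2) =
      EU p J (fun U => A U ^ 4) + 2 * V * EU p J (fun U => A U ^ 2 * B U ^ 2) +
        V ^ 2 * EU p J (fun U => B U ^ 4) := by
  rw [← EU_mul, ← EU_mul, ← EU_add, ← EU_add]
  exact EU_congr p J fun U _ => by ring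

theorem rUHc (h1 : S_UTwo) : S_UHc := by
  intro p ρ hp hρ J
  induction J using Finset.induction_on with
  | empty =>
    intro c
    rw [EU_empty]
    simp [Py, wt_eq]
    apply le_of_eq
    ring
  | insert i J hi ih =>
    intro c
    have hA := ih c
    have hB := ih (fun T => c (insert i T))
    have hX : 0 ≤ ∑ T ∈ J.powerset, wt p T * c T ^ 2 :=
      Finset.sum_nonneg fun T _ => mul_nonneg (wt_nonneg hp T) (sq_nonneg _)
    have hY : 0 ≤ ∑ T ∈ J.powerset, wt p T * c (insert i T) ^ 2 :=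
      Finset.sum_nonneg fun T _ => mul_nonneg (wt_nonneg hp T) (sq_nonneg _)
    have hS : ∑ T ∈ (insert i J).powerset, wt p T * c T ^ 2 =
        (∑ T ∈ J.powerset, wt p T * c T ^ 2) +
          vi p i * ∑ T ∈ J.powerset, wt p T * c (insert i T) ^ 2 := by
      rw [Finset.sum_powerset_insert hi, Finset.mul_sum]
      congr 1
      refine Finset.sum_congr rfl fun T hT => ?_
      have hiT : i ∉ T := fun h => hi (Finset.mem_powerset.1 hT h)
      rw [wt_eq, wt_eq, Finset.prod_insert hiT]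
      ring
    rw [hS]
    generalize hXd : ∑ T ∈ J.powerset, wt p T * c T ^ 2 = X at hA hX
    generalize hYd : ∑ T ∈ J.powerset, wt p T * c (insert i T) ^ 2 = Y at hB hY
    have hle : EU p (insert i J) (fun U => Py p (insert i J) (fun T => (∏ j ∈ T, ρ j) * c T) U ^ 4) ≤
        EU p J (fun U => (Py p J (fun T => (∏ j ∈ T, ρ j) * c T) U ^ 2 +
          vi p i * Py p J (fun T => (∏ j ∈ T, ρ j) * c (insert i T)) U ^ 2) ^ 2) := by
      rw [EU_insert p J i hi, ← EU_mul, ← EU_mul, ← EU_add]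
      refine EU_mono hp J fun U hU => ?_
      have hiU : i ∉ U := fun h => hi (hU h)
      rw [Py_insert1 p J i hi _ U hiU, Py_insert2 p J i hi _ U, UHc_pull p ρ J i hi c U]
      have h := h1 (p i) (Py p J (fun T => (∏ j ∈ T, ρ j) * c T) U)
        (Py p J (fun T => (∏ j ∈ T, ρ j) * c (insert i T)) U) (ρ i) (hp i).1 (hp i).2 (hρ i).1
        (hρ i).2
      exact h
    refine hle.trans ?_
    rw [UHc_sq]
    have hcs := EU_cs hp J (fun U => Py p J (fun T => (∏ j ∈ T, ρ j) * c T) U ^ 2)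
      (fun U => Py p J (fun T => (∏ j ∈ T, ρ j) * c (insert i T)) U ^ 2)
    have e1 : EU p J (fun U => (Py p J (fun T => (∏ j ∈ T, ρ j) * c T) U ^ 2) ^ 2) =
        EU p J (fun U => Py p J (fun T => (∏ j ∈ T, ρ j) * c T) U ^ 4) :=
      EU_congr p J fun U _ => by ring
    have e2 : EU p J (fun U => (Py p J (fun T => (∏ j ∈ T, ρ j) * c (insert i T)) U ^ 2) ^ 2) =
        EU p J (fun U => Py p J (fun T => (∏ j ∈ T, ρ j) * c (insert i T)) U ^ 4) :=
      EU_congr p J fun U _ => by ring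
    rw [e1, e2] at hcs
    have hB0 : 0 ≤ EU p J (fun U => Py p J (fun T => (∏ j ∈ T, ρ j) * c (insert i T)) U ^ 4) :=
      EU_nonneg hp J fun U _ => by positivity
    have hV := vi_nonneg hp i
    have h2 : EU p J (fun U => Py p J (fun T => (∏ j ∈ T, ρ j) * c T) U ^ 2 *
        Py p J (fun T => (∏ j ∈ T, ρ j) * c (insert i T)) U ^ 2) ≤ X * Y := by
      refine le_trans (le_abs_self _) (abs_le_of_sq_le_sq ?_ (mul_nonneg hX hY))
      refine hcs.trans ?_
      rw [mul_pow]
      exact mul_le_mul hA hB hB0 (sq_nonneg X)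
    nlinarith [mul_le_mul_of_nonneg_left h2 hV, mul_le_mul_of_nonneg_left hB (sq_nonneg (vi p i))]

end Pool.Agent.MP3145b1.UM
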