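import Pool.Agent.Lib.MP_3145b1_co.UM.Spec

/-!
# MP_3145b1_co, project UM: dual hypercontractive inequality for values 0, 1, -1 (UHm)
-/

set_option autoImplicit false

namespace Pool.Agent.MP3145b1.UM

open Finset Pool.Agent.MP3145b1 Pool.Agent.MP3145b1.RC Pool.Agent.MP3145b1.RD Pool.Agent.MP3145b1.RT

private theorem UHm_rho {p : ℕ → ℝ} (hp : ∀ i, 0 ≤ p i ∧ p i ≤ 1) (i : ℕ) :
    0 ≤ Real.sqrt (rr p i) ∧ Real.sqrt (rr p i) ^ 4 = vi p i / 16 := by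
  refine ⟨Real.sqrt_nonneg _, ?_⟩
  have h1 : Real.sqrt (rr p i) ^ 2 = rr p i := Real.sq_sqrt (rr_nonneg p i)
  have h2 : Real.sqrt (vi p i) ^ 2 = vi p i := Real.sq_sqrt (vi_nonneg hp i)
  calc Real.sqrt (rr p i) ^ 4 = (Real.sqrt (rr p i) ^ 2) ^ 2 := by ring
    _ = (Real.sqrt (vi p i) / 4) ^ 2 := by rw [h1]; rfl
    _ = Real.sqrt (vi p i) ^ 2 / 16 := by ring
    _ = vi p i / 16 := by rw [h2]

private theorem UHm_prod (p : ℕ → ℝ) (T : Finset ℕ) :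
    (∏ j ∈ T, Real.sqrt (rr p j)) * (∏ j ∈ T, Real.sqrt (rr p j)) = ∏ j ∈ T, rr p j := by
  rw [← Finset.prod_mul_distrib]
  exact Finset.prod_congr rfl fun j _ => Real.mul_self_sqrt (rr_nonneg p j)

private theorem UHm_final (N Q W E : ℝ) (hQ : 0 ≤ Q) (hW : 0 ≤ W) (h1 : N ^ 2 ≤ Q * W)
    (h2 : W ^ 2 ≤ Q * E) (h3 : E ≤ N ^ 2) : N ^ 2 ≤ Q ^ 3 := by
  rcases eq_or_ne N 0 with h0 | h0
  · have h5 := pow_nonneg hQ 3
    rw [h0]
    simpa using h5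
  · have hN : 0 < N ^ 2 := by positivity
    have h4 : N ^ 2 * N ^ 2 ≤ Q ^ 3 * N ^ 2 := by
      calc N ^ 2 * N ^ 2 ≤ (Q * W) * (Q * W) := mul_le_mul h1 h1 hN.le (mul_nonneg hQ hW)
        _ = Q ^ 2 * W ^ 2 := by ring
        _ ≤ Q ^ 2 * (Q * E) := mul_le_mul_of_nonneg_left h2 (sq_nonneg _)
        _ ≤ Q ^ 2 * (Q * N ^ 2) :=
          mul_le_mul_of_nonneg_left (mul_le_mul_of_nonneg_left h3 hQ) (sq_nonneg _)
        _ = Q ^ 3 * N ^ 2 := by ring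
    exact le_of_mul_le_mul_right h4 hN

theorem rUHm (h1 : S_UHc) (h2 : S_UPl) (h3 : S_URp) : S_UHm := by
  intro a p J h z hp hh
  have hE4 := h1 p (fun i => Real.sqrt (rr p i)) hp (UHm_rho hp) J
    (fun T => (∏ j ∈ T, Real.sqrt (rr p j)) * Co a p J T h z)
  have hPl := h2 p J (fun T => Co a p J T h z) (fun T => (∏ j ∈ T, rr p j) * Co a p J T h z)
  have hG : (fun U => Py p J (fun T => (∏ j ∈ T, Real.sqrt (rr p j)) *
      ((∏ j ∈ T, Real.sqrt (rr p j)) * Co a p J T h z)) U) =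
      Py p J (fun T => (∏ j ∈ T, rr p j) * Co a p J T h z) := by
    have e : (fun T : Finset ℕ => (∏ j ∈ T, Real.sqrt (rr p j)) *
        ((∏ j ∈ T, Real.sqrt (rr p j)) * Co a p J T h z)) =
        fun T => (∏ j ∈ T, rr p j) * Co a p J T h z := by
      funext T
      rw [← mul_assoc, UHm_prod]
    rw [e]
  set G : Finset ℕ → ℝ := Py p J (fun T => (∏ j ∈ T, rr p j) * Co a p J T h z) with hGd
  set N : ℝ := ∑ T ∈ J.powerset, (∏ j ∈ T, rr p j) * (wt p T * Co a p J T h z ^ 2) with hNd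
  have hval : ∀ U : Finset ℕ, h (z + ∑ i ∈ U, a i) ^ 3 = h (z + ∑ i ∈ U, a i) := by
    intro U
    rcases hh (z + ∑ i ∈ U, a i) with e | e | e <;> rw [e] <;> norm_num
  -- the sum as an expectation
  have hN : EU p J (fun U => h (z + ∑ i ∈ U, a i) * (h (z + ∑ i ∈ U, a i) ^ 2 * G U)) = N := by
    have e1 : EU p J (fun U => Py p J (fun T => Co a p J T h z) U * G U) = N := by
      rw [hPl, hNd]
      exact Finset.sum_congr rfl fun T _ => by ring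
    rw [← e1]
    refine EU_congr p J fun U hU => ?_
    rw [h3 a p J h z U hU, ← mul_assoc, ← pow_succ', hval U]
  have hQe : Av a p J (fun y => h y ^ 2) z = EU p J (fun U => h (z + ∑ i ∈ U, a i) ^ 2) := rfl
  rw [hQe]
  set Q : ℝ := EU p J (fun U => h (z + ∑ i ∈ U, a i) ^ 2) with hQd
  have hQ0 : 0 ≤ Q := EU_nonneg hp J fun U _ => sq_nonneg _
  have hW0 : 0 ≤ EU p J (fun U => h (z + ∑ i ∈ U, a i) ^ 2 * G U ^ 2) :=
    EU_nonneg hp J fun U _ => by positivity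
  refine UHm_final N Q (EU p J (fun U => h (z + ∑ i ∈ U, a i) ^ 2 * G U ^ 2))
    (EU p J (fun U => G U ^ 4)) hQ0 hW0 ?_ ?_ ?_
  · have hcs := EU_cs hp J (fun U => h (z + ∑ i ∈ U, a i)) (fun U => h (z + ∑ i ∈ U, a i) ^ 2 * G U)
    rw [hN] at hcs
    have e2 : EU p J (fun U => (h (z + ∑ i ∈ U, a i) ^ 2 * G U) ^ 2) =
        EU p J (fun U => h (z + ∑ i ∈ U, a i) ^ 2 * G U ^ 2) := by
      refine EU_congr p J fun U _ => ?_
      have e3 := hval U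
      calc (h (z + ∑ i ∈ U, a i) ^ 2 * G U) ^ 2 =
          h (z + ∑ i ∈ U, a i) ^ 3 * h (z + ∑ i ∈ U, a i) * G U ^ 2 := by ring
        _ = h (z + ∑ i ∈ U, a i) ^ 2 * G U ^ 2 := by rw [e3]; ring
    rw [e2] at hcs
    exact hcs
  · have hcs := EU_cs hp J (fun U => h (z + ∑ i ∈ U, a i) ^ 2) (fun U => G U ^ 2)
    have e2 : EU p J (fun U => (h (z + ∑ i ∈ U, a i) ^ 2) ^ 2) = Q := by
      refine EU_congr p J fun U _ => ?_
      have e3 := hval U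
      calc (h (z + ∑ i ∈ U, a i) ^ 2) ^ 2 =
          h (z + ∑ i ∈ U, a i) ^ 3 * h (z + ∑ i ∈ U, a i) := by ring
        _ = h (z + ∑ i ∈ U, a i) ^ 2 := by rw [e3]; ring
    have e4 : EU p J (fun U => (G U ^ 2) ^ 2) = EU p J (fun U => G U ^ 4) :=
      EU_congr p J fun U _ => by ring
    rw [e2, e4] at hcs
    exact hcs
  · have e5 : EU p J (fun U => G U ^ 4) = EU p J (fun U => Py p J (fun T =>
        (∏ j ∈ T, Real.sqrt (rr p j)) * ((∏ j ∈ T, Real.sqrt (rr p j)) * Co a p J T h z)) U ^ 4) := by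
      refine EU_congr p J fun U _ => ?_
      rw [← congrFun hG U]
    rw [e5]
    refine hE4.trans_eq ?_
    congr 1
    rw [hNd]
    refine Finset.sum_congr rfl fun T _ => ?_
    rw [← UHm_prod p T]
    ring

end Pool.Agent.MP3145b1.UM
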