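import Pool.Agent.Lib.MP_3145b1_co.UM.Spec

/-!
# MP_3145b1_co, project UM, module UIn: noisy influence
-/

set_option autoImplicit false

namespace Pool.Agent.MP3145b1.UM

open Finset Pool.Agent.MP3145b1 Pool.Agent.MP3145b1.RC Pool.Agent.MP3145b1.RD Pool.Agent.MP3145b1.RT

private theorem UIn_hA (A : ℝ) (F : ℝ → ℝ) (hF : ∀ y, F y = 1 ∨ F y = -1) (y : ℝ) :
    hA A F y = 0 ∨ hA A F y = 1 ∨ hA A F y = -1 := by
  unfold hA
  rcases hF y with h | h <;> rcases hF (y + A) with h' | h' <;> rw [h, h'] <;> norm_num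

/-- **UIn** (noisy influence) -/
theorem rUIn (h1 : S_TPar) (h2 : S_UHm) : S_UIn := by
  intro a p J F z i hp hF hi
  have e : ∀ T ∈ (J.erase i).powerset,
      Co a p J (insert i T) F z = Co a p (J.erase i) T (hA (a i) F) z := by
    intro T hT
    have h := Co_insert_mem a p (J.erase i) T i (Finset.notMem_erase i J)
      (Finset.mem_powerset.1 hT) F z
    rw [Finset.insert_erase hi] at h
    rw [Co_hA]
    exact h
  have hQ : QQ a p J F z i = Av a p (J.erase i) (fun y => hA (a i) F y ^ 2) z := by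
    unfold QQ
    rw [← (h1 a p (J.erase i) ∅ (hA (a i) F) z (Finset.empty_subset _)).1]
    exact Finset.sum_congr rfl fun T hT => by rw [e T hT]
  have hN := h2 a p (J.erase i) (hA (a i) F) z hp (UIn_hA (a i) F hF)
  rw [← hQ] at hN
  have e2 : ∑ T ∈ (J.erase i).powerset, (∏ j ∈ T, rr p j) *
      (wt p T * Co a p J (insert i T) F z ^ 2) = ∑ T ∈ (J.erase i).powerset,
      (∏ j ∈ T, rr p j) * (wt p T * Co a p (J.erase i) T (hA (a i) F) z ^ 2) :=
    Finset.sum_congr rfl fun T hT => by rw [e T hT]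
  rw [e2]
  have hQ0 : 0 ≤ QQ a p J F z i := by
    rw [hQ]
    exact Av_nonneg a hp _ (fun y => sq_nonneg _) z
  have hwt : ∀ T : Finset ℕ, 0 ≤ wt p T := fun T => by
    rw [wt_eq]
    exact Finset.prod_nonneg fun j _ => vi_nonneg hp j
  have hN0 : 0 ≤ ∑ T ∈ (J.erase i).powerset,
      (∏ j ∈ T, rr p j) * (wt p T * Co a p (J.erase i) T (hA (a i) F) z ^ 2) :=
    Finset.sum_nonneg fun T _ => mul_nonneg (Finset.prod_nonneg fun j _ => rr_nonneg p j)
      (mul_nonneg (hwt T) (sq_nonneg _))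
  rw [← sq_le_sq₀ hN0 (mul_nonneg hQ0 (Real.sqrt_nonneg _)), mul_pow, Real.sq_sqrt hQ0]
  refine hN.trans (le_of_eq ?_)
  ring

end Pool.Agent.MP3145b1.UM
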