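import Pool.Agent.Lib.MP_3145b1_co.UM.Spec

/-!
# MP_3145b1_co, project UM, module ULg: the logarithms of the influences
-/

set_option autoImplicit false

namespace Pool.Agent.MP3145b1.UM

open Finset Pool.Agent.MP3145b1 Pool.Agent.MP3145b1.RC Pool.Agent.MP3145b1.RD Pool.Agent.MP3145b1.RT

/-- the pointwise inequality -/
private theorem ULg_pt (v : ℕ → ℝ) (S : Finset ℕ) (q : ℝ) (hv : ∀ j ∈ S, 0 < v j) (hq : 0 < q) :
    2 * Real.log (1 / q) ≤ ∑ j ∈ S, 2 * Real.log (1 / v j) + 6 * (S.card : ℝ) +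
      4 * ((∏ j ∈ S, Real.sqrt (v j) / 4) / Real.sqrt q) - 4 := by
  have hsq : 0 < Real.sqrt q := Real.sqrt_pos.2 hq
  have hf : ∀ j ∈ S, 0 < Real.sqrt (v j) / 4 := fun j hj => by
    have := Real.sqrt_pos.2 (hv j hj)
    positivity
  have hR : 0 < ∏ j ∈ S, Real.sqrt (v j) / 4 := Finset.prod_pos hf
  have h1 := Real.log_le_sub_one_of_pos (div_pos hR hsq)
  rw [Real.log_div hR.ne' hsq.ne', Real.log_sqrt hq.le, Real.log_prod (fun j hj => (hf j hj).ne')] at h1
  have h2 : ∑ j ∈ S, Real.log (Real.sqrt (v j) / 4) =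
      ∑ j ∈ S, (-(1 / 4) * (2 * Real.log (1 / v j))) - (S.card : ℝ) * Real.log 4 := by
    rw [← nsmul_eq_mul, ← Finset.sum_const, ← Finset.sum_sub_distrib]
    refine Finset.sum_congr rfl fun j hj => ?_
    rw [Real.log_div (Real.sqrt_pos.2 (hv j hj)).ne' (by norm_num), Real.log_sqrt (hv j hj).le,
      one_div (v j), Real.log_inv]
    ring
  have h3 : ∑ j ∈ S, (-(1 / 4) * (2 * Real.log (1 / v j))) = -(1 / 4) * ∑ j ∈ S, 2 * Real.log (1 / v j) := by
    rw [Finset.mul_sum]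
  have h4 : Real.log 4 ≤ 3 / 2 := by
    have e : (4 : ℝ) = 2 ^ 2 := by norm_num
    rw [e, Real.log_pow]
    have := Real.log_two_lt_d9
    push_cast
    linarith
  have h5 : (S.card : ℝ) * Real.log 4 ≤ (S.card : ℝ) * (3 / 2) :=
    mul_le_mul_of_nonneg_left h4 (Nat.cast_nonneg _)
  rw [h2, h3] at h1
  have h6 : Real.log (1 / q) = - Real.log q := by
    rw [one_div, Real.log_inv]
  rw [h6]
  linarith

private theorem ULg_swap (J : Finset ℕ) (g : ℕ → Finset ℕ → ℝ) :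
    ∑ T ∈ J.powerset, ∑ i ∈ T, g i T = ∑ i ∈ J, ∑ T ∈ J.powerset.filter (fun T => i ∈ T), g i T := by
  refine Finset.sum_comm' fun T i => ?_
  rw [Finset.mem_filter, Finset.mem_powerset]
  constructor
  · rintro ⟨h1, h2⟩
    exact ⟨⟨h1, h2⟩, h1 h2⟩
  · rintro ⟨⟨h1, h2⟩, _⟩
    exact ⟨h1, h2⟩

private theorem ULg_erase (J : Finset ℕ) (g : Finset ℕ → ℝ) (h : g ∅ = 0) :
    ∑ T ∈ J.powerset.erase ∅, g T = ∑ T ∈ J.powerset, g T := by
  rw [← Finset.add_sum_erase _ g (Finset.empty_mem_powerset J), h, zero_add]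

/-- double counting -/
private theorem ULg_dc (J : Finset ℕ) (v ρ Q : ℕ → ℝ) (x : Finset ℕ → ℝ) (ι : Finset ℕ → ℕ)
    (hρ : ∀ i, 0 ≤ ρ i) (hx : ∀ T, 0 ≤ x T) (hQ0 : ∀ i, 0 ≤ Q i)
    (hQ : ∀ i ∈ J, ∑ T ∈ J.powerset.filter (fun T => i ∈ T), x T = v i * Q i)
    (hR : ∀ i ∈ J, ∑ T ∈ J.powerset.filter (fun T => i ∈ T), x T * ∏ j ∈ T.erase i, ρ j ≤
      v i * (Q i * Real.sqrt (Q i)))
    (hι : ∀ T ∈ J.powerset.erase ∅, ι T ∈ T) :
    ∑ T ∈ J.powerset.erase ∅, x T * ((∏ j ∈ T.erase (ι T), ρ j) / Real.sqrt (Q (ι T))) ≤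
      ∑ T ∈ J.powerset.erase ∅, (T.card : ℝ) * x T := by
  have hn : ∀ T : Finset ℕ, ∀ i, 0 ≤ x T * ((∏ j ∈ T.erase i, ρ j) / Real.sqrt (Q i)) := fun T i =>
    mul_nonneg (hx T) (div_nonneg (Finset.prod_nonneg fun j _ => hρ j) (Real.sqrt_nonneg _))
  calc ∑ T ∈ J.powerset.erase ∅, x T * ((∏ j ∈ T.erase (ι T), ρ j) / Real.sqrt (Q (ι T)))
      ≤ ∑ T ∈ J.powerset.erase ∅, ∑ i ∈ T, x T * ((∏ j ∈ T.erase i, ρ j) / Real.sqrt (Q i)) :=
        Finset.sum_le_sum fun T hT =>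
          Finset.single_le_sum (f := fun i => x T * ((∏ j ∈ T.erase i, ρ j) / Real.sqrt (Q i)))
            (fun i _ => hn T i) (hι T hT)
    _ = ∑ T ∈ J.powerset, ∑ i ∈ T, x T * ((∏ j ∈ T.erase i, ρ j) / Real.sqrt (Q i)) :=
        ULg_erase J _ (by simp)
    _ = ∑ i ∈ J, ∑ T ∈ J.powerset.filter (fun T => i ∈ T),
          x T * ((∏ j ∈ T.erase i, ρ j) / Real.sqrt (Q i)) :=
        ULg_swap J (fun i T => x T * ((∏ j ∈ T.erase i, ρ j) / Real.sqrt (Q i)))
    _ ≤ ∑ i ∈ J, ∑ T ∈ J.powerset.filter (fun T => i ∈ T), x T := by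
        refine Finset.sum_le_sum fun i hi => ?_
        rw [hQ i hi]
        have e : ∑ T ∈ J.powerset.filter (fun T => i ∈ T), x T * ((∏ j ∈ T.erase i, ρ j) / Real.sqrt (Q i)) =
            (∑ T ∈ J.powerset.filter (fun T => i ∈ T), x T * ∏ j ∈ T.erase i, ρ j) / Real.sqrt (Q i) := by
          rw [Finset.sum_div]
          exact Finset.sum_congr rfl fun T _ => by rw [mul_div_assoc]
        rw [e]
        rcases eq_or_lt_of_le (hQ0 i) with h0 | h0
        · rw [← h0, Real.sqrt_zero, div_zero, mul_zero]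
        · have hs : 0 < Real.sqrt (Q i) := Real.sqrt_pos.2 h0
          rw [div_le_iff₀ hs]
          have := hR i hi
          linarith
    _ = ∑ T ∈ J.powerset, ∑ i ∈ T, x T := (ULg_swap J (fun _ T => x T)).symm
    _ = ∑ T ∈ J.powerset, (T.card : ℝ) * x T :=
        Finset.sum_congr rfl fun T _ => by rw [Finset.sum_const, nsmul_eq_mul]
    _ = ∑ T ∈ J.powerset.erase ∅, (T.card : ℝ) * x T := (ULg_erase J _ (by simp)).symm

/-- the abstract form -/
private theorem ULg_main (J : Finset ℕ) (v Q : ℕ → ℝ) (x : Finset ℕ → ℝ) (ι : Finset ℕ → ℕ)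
    (hv : ∀ i, 0 ≤ v i) (hx : ∀ T, 0 ≤ x T) (hxv : ∀ T, ∀ j ∈ T, v j = 0 → x T = 0) (hQ0 : ∀ i, 0 ≤ Q i)
    (hQ : ∀ i ∈ J, ∑ T ∈ J.powerset.filter (fun T => i ∈ T), x T = v i * Q i)
    (hR : ∀ i ∈ J, ∑ T ∈ J.powerset.filter (fun T => i ∈ T), x T * ∏ j ∈ T.erase i, Real.sqrt (v j) / 4 ≤
      v i * (Q i * Real.sqrt (Q i)))
    (hι : ∀ T ∈ J.powerset.erase ∅, ι T ∈ T) :
    ∑ T ∈ J.powerset.erase ∅, x T * (2 * Real.log (1 / Q (ι T))) ≤
      ∑ T ∈ J.powerset.erase ∅, x T * (∑ j ∈ T.erase (ι T), 2 * Real.log (1 / v j)) +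
      10 * ∑ T ∈ J.powerset.erase ∅, ((T.card : ℝ) - 1) * x T := by
  have hdc := ULg_dc J v (fun j => Real.sqrt (v j) / 4) Q x ι (fun i => by positivity) hx hQ0 hQ hR hι
  have hpt : ∀ T ∈ J.powerset.erase ∅, x T * (2 * Real.log (1 / Q (ι T))) ≤
      x T * (∑ j ∈ T.erase (ι T), 2 * Real.log (1 / v j)) + 6 * (((T.card : ℝ) - 1) * x T) +
      4 * (x T * ((∏ j ∈ T.erase (ι T), Real.sqrt (v j) / 4) / Real.sqrt (Q (ι T)))) - 4 * x T := by
    intro T hT
    have hi := hι T hT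
    have hTJ : T ⊆ J := Finset.mem_powerset.1 (Finset.mem_of_mem_erase hT)
    rcases eq_or_lt_of_le (hx T) with h0 | h0
    · rw [← h0]
      simp
    · have hvp : ∀ j ∈ T, 0 < v j := fun j hj =>
        lt_of_le_of_ne (hv j) (fun h => h0.ne' (hxv T j hj h.symm))
      have hq : 0 < Q (ι T) := by
        rcases eq_or_lt_of_le (hQ0 (ι T)) with h | h
        · exfalso
          have e := hQ (ι T) (hTJ hi)
          rw [← h, mul_zero] at e
          have hm : T ∈ J.powerset.filter (fun T' => ι T ∈ T') :=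
            Finset.mem_filter.2 ⟨Finset.mem_powerset.2 hTJ, hi⟩
          have := Finset.single_le_sum (f := x) (fun T' _ => hx T') hm
          linarith
        · exact h
      have hp := ULg_pt v (T.erase (ι T)) (Q (ι T)) (fun j hj => hvp j (Finset.mem_of_mem_erase hj)) hq
      have hc : ((T.erase (ι T)).card : ℝ) = (T.card : ℝ) - 1 := by
        rw [← Finset.card_erase_add_one hi]
        push_cast
        ring
      rw [hc] at hp
      have := mul_le_mul_of_nonneg_left hp h0.le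
      nlinarith [this]
  have hsum := Finset.sum_le_sum hpt
  rw [Finset.sum_sub_distrib, Finset.sum_add_distrib, Finset.sum_add_distrib, ← Finset.mul_sum, ← Finset.mul_sum,
    ← Finset.mul_sum] at hsum
  have e1 : ∑ T ∈ J.powerset.erase ∅, ((T.card : ℝ) - 1) * x T =
      ∑ T ∈ J.powerset.erase ∅, (T.card : ℝ) * x T - ∑ T ∈ J.powerset.erase ∅, x T := by
    rw [← Finset.sum_sub_distrib]
    exact Finset.sum_congr rfl fun T _ => by ring
  linarith

/-- the sets which contain `i` -/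
private theorem ULg_reindex (J : Finset ℕ) (i : ℕ) (hi : i ∈ J) (g : Finset ℕ → ℝ) :
    ∑ T ∈ J.powerset.filter (fun T => i ∈ T), g T = ∑ T ∈ (J.erase i).powerset, g (insert i T) := by
  refine Finset.sum_nbij' (fun T => T.erase i) (fun T => insert i T) ?_ ?_ ?_ ?_ ?_
  · intro T hT
    rw [Finset.mem_filter, Finset.mem_powerset] at hT
    exact Finset.mem_powerset.2 (Finset.erase_subset_erase i hT.1)
  · intro T hT
    rw [Finset.mem_powerset] at hT
    rw [Finset.mem_filter, Finset.mem_powerset]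
    refine ⟨?_, Finset.mem_insert_self i T⟩
    intro j hj
    rcases Finset.mem_insert.1 hj with h | h
    · exact h ▸ hi
    · exact Finset.mem_of_mem_erase (hT h)
  · intro T hT
    rw [Finset.mem_filter] at hT
    exact Finset.insert_erase hT.2
  · intro T hT
    rw [Finset.mem_powerset] at hT
    exact Finset.erase_insert (fun h => (Finset.mem_erase.1 (hT h)).1 rfl)
  · intro T hT
    rw [Finset.mem_filter] at hT
    rw [Finset.insert_erase hT.2]

theorem rULg (h1 : S_UIn) : S_ULg := by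
  intro a p J F z ι hp hF hι
  have hi1 : ∀ i, ∀ T ∈ (J.erase i).powerset, i ∉ T := fun i T hT h =>
    (Finset.mem_erase.1 (Finset.mem_powerset.1 hT h)).1 rfl
  refine ULg_main J (vi p) (QQ a p J F z) (fun T => wt p T * Co a p J T F z ^ 2) ι (fun i => vi_nonneg hp i)
    (fun T => mul_nonneg (wt_nonneg hp T) (sq_nonneg _)) ?_ ?_ ?_ ?_ hι
  · intro T j hj h
    rw [wt_eq, Finset.prod_eq_zero hj h, zero_mul]
  · intro i
    exact Finset.sum_nonneg fun T _ => mul_nonneg (wt_nonneg hp T) (sq_nonneg _)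
  · intro i hi
    rw [ULg_reindex J i hi, QQ, Finset.mul_sum]
    refine Finset.sum_congr rfl fun T hT => ?_
    rw [wt_eq, wt_eq, Finset.prod_insert (hi1 i T hT)]
    ring
  · intro i hi
    rw [ULg_reindex J i hi]
    have h := mul_le_mul_of_nonneg_left (h1 a p J F z i hp hF hi) (vi_nonneg hp i)
    refine le_trans (le_of_eq ?_) h
    rw [Finset.mul_sum]
    refine Finset.sum_congr rfl fun T hT => ?_
    rw [wt_eq, wt_eq, Finset.prod_insert (hi1 i T hT), Finset.erase_insert (hi1 i T hT)]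
    unfold rr
    ring

end Pool.Agent.MP3145b1.UM
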