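import Pool.Agent.Lib.MP_3145b1_co.UM.Spec

/-!
# MP_3145b1_co, project UM, module UMn: from the sharp form to Q1
-/

set_option autoImplicit false

namespace Pool.Agent.MP3145b1.UM

open Finset Pool.Agent.MP3145b1 Pool.Agent.MP3145b1.RC Pool.Agent.MP3145b1.RD Pool.Agent.MP3145b1.RT

private theorem UMn_par (N : ℕ) (f : (Fin N → Bool) → ℝ) (hf : ∀ x, f x = 1 ∨ f x = -1) :
    ∑ S : Finset (Fin N), coeff f S ^ 2 = 1 := by
  rw [Q.parseval]
  have h : (fun x => f x ^ 2) = fun _ => (1 : ℝ) := by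
    funext x
    rcases hf x with h | h <;> rw [h] <;> norm_num
  rw [h, Q.mean_const]

private theorem UMn_sum (N : ℕ) (f : (Fin N → Bool) → ℝ) (hf : ∀ x, f x = 1 ∨ f x = -1) :
    ∑ S ∈ (univ : Finset (Finset (Fin N))).erase ∅, coeff f S ^ 2 = 1 - coeff f ∅ ^ 2 := by
  have h1 := UMn_par N f hf
  rw [← Finset.add_sum_erase _ _ (mem_univ (∅ : Finset (Fin N)))] at h1
  linarith

private theorem UMn_V0 (N : ℕ) (f : (Fin N → Bool) → ℝ) (hf : ∀ x, f x = 1 ∨ f x = -1) :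
    0 ≤ 1 - coeff f ∅ ^ 2 := by
  rw [← UMn_sum N f hf]
  exact Finset.sum_nonneg fun S _ => sq_nonneg _

private theorem UMn_VI (N : ℕ) (f : (Fin N → Bool) → ℝ) (hf : ∀ x, f x = 1 ∨ f x = -1) :
    1 - coeff f ∅ ^ 2 ≤ influence f := by
  rw [← UMn_sum N f hf]
  unfold influence
  rw [← Finset.add_sum_erase _ _ (mem_univ (∅ : Finset (Fin N)))]
  have h1 : ∑ S ∈ (univ : Finset (Finset (Fin N))).erase ∅, coeff f S ^ 2 ≤
      ∑ S ∈ (univ : Finset (Finset (Fin N))).erase ∅, (S.card : ℝ) * coeff f S ^ 2 := by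
    refine Finset.sum_le_sum fun S hS => ?_
    have h2 : 1 ≤ S.card := Finset.card_pos.2 (Finset.nonempty_iff_ne_empty.2 (Finset.ne_of_mem_erase hS))
    have h3 : (1 : ℝ) ≤ (S.card : ℝ) := by exact_mod_cast h2
    nlinarith [sq_nonneg (coeff f S)]
  have h4 : ((∅ : Finset (Fin N)).card : ℝ) * coeff f ∅ ^ 2 = 0 := by simp
  rw [h4, zero_add]
  exact h1

private theorem UMn_c1 (N : ℕ) (f : (Fin N → Bool) → ℝ) (hf : ∀ x, f x = 1 ∨ f x = -1)
    (S : Finset (Fin N)) : coeff f S ^ 2 ≤ 1 := by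
  rw [← UMn_par N f hf]
  exact Finset.single_le_sum (f := fun S => coeff f S ^ 2) (fun S _ => sq_nonneg _) (mem_univ S)

private theorem UMn_exp {V : ℝ} (h0 : 0 ≤ V) (h1 : V ≤ 1 / 2) : Real.exp (-V) ^ 2 ≤ 1 - V := by
  have e1 : Real.exp (-V) ^ 2 * Real.exp (2 * V) = 1 := by
    rw [← Real.exp_nat_mul, ← Real.exp_add]
    norm_num
  have e2 : 2 * V + 1 ≤ Real.exp (2 * V) := Real.add_one_le_exp _
  have e3 : 0 ≤ Real.exp (-V) ^ 2 := sq_nonneg _
  have e4 : Real.exp (-V) ^ 2 * (2 * V + 1) ≤ 1 :=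
    (mul_le_mul_of_nonneg_left e2 e3).trans e1.le
  have e5 : 1 ≤ (1 - V) * (2 * V + 1) := by nlinarith
  exact le_of_mul_le_mul_right (e4.trans e5) (by linarith)

theorem rUMn : S_UMn := by
  intro K N f hK hf hM
  have hV0 := UMn_V0 N f hf
  have hVI := UMn_VI N f hf
  have hI : 0 ≤ influence f := hV0.trans hVI
  by_cases hv : 1 - coeff f ∅ ^ 2 ≤ 1 / 2
  · refine ⟨∅, ?_⟩
    have h1 := UMn_exp hV0 hv
    have h2 : Real.exp (-(1 - coeff f ∅ ^ 2)) ^ 2 ≤ coeff f ∅ ^ 2 := by linarith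
    have h3 : Real.exp (-(1 - coeff f ∅ ^ 2)) ≤ |coeff f ∅| := by
      have h4 := sq_le_sq.1 h2
      rwa [abs_of_pos (Real.exp_pos _)] at h4
    refine le_trans (Real.exp_le_exp.2 ?_) h3
    have h5 : influence f ≤ K * influence f := by nlinarith
    linarith
  · have hv' : 1 / 2 < 1 - coeff f ∅ ^ 2 := lt_of_not_ge hv
    obtain ⟨S, -, hc, hle⟩ := hM (by linarith)
    refine ⟨S, ?_⟩
    have hc2 : 0 < coeff f S ^ 2 := by positivity
    have hL : Real.log (1 / coeff f S ^ 2) = -(2 * Real.log |coeff f S|) := by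
      rw [one_div, Real.log_inv, Real.log_abs, Real.log_pow]
      norm_num
    have hL0 : 0 ≤ Real.log (1 / coeff f S ^ 2) := by
      apply Real.log_nonneg
      rw [le_div_iff₀ hc2, one_mul]
      exact UMn_c1 N f hf S
    rw [← Real.le_log_iff_exp_le (abs_pos.2 hc)]
    have h6 : K * (influence f - (1 - coeff f ∅ ^ 2)) ≤ K * influence f :=
      mul_le_mul_of_nonneg_left (by linarith) (by linarith)
    have h7 : 1 / 2 * Real.log (1 / coeff f S ^ 2) ≤
        (1 - coeff f ∅ ^ 2) * Real.log (1 / coeff f S ^ 2) :=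
      mul_le_mul_of_nonneg_right hv'.le hL0
    rw [hL] at h7 hle
    linarith

end Pool.Agent.MP3145b1.UM
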