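import Pool.Agent.Lib.MP_3145b1_co.UM.Spec

set_option autoImplicit false

namespace Pool.Agent.MP3145b1.UM

open Finset Pool.Agent.MP3145b1 Pool.Agent.MP3145b1.RC Pool.Agent.MP3145b1.RD Pool.Agent.MP3145b1.RT

private theorem UMx_one (N : ℕ) (u : (Fin N → Bool) → ℝ) (hu : ∀ x, u x = 1 ∨ u x = -1)
    (S : Finset (Fin N)) (hS : S ≠ ∅) (s : ℝ) (hs : s = 1 ∨ s = -1) :
    |coeff u S| ≤ 1 - s * coeff u ∅ := by
  have h0 : coeff (fun _ : Fin N → Bool => s) S = 0 := by
    obtain ⟨i, hi⟩ := Finset.nonempty_iff_ne_empty.mpr hS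
    exact Q.coeff_zero _ i S hi (fun _ _ => rfl)
  have h1 : coeff u ∅ = T.mean u := by
    rw [Q.coeff_mean]
    congr 1
    funext x
    simp [sgn]
  have h2 : coeff u S = T.mean (fun x => u x * sgn x S - s * sgn x S) := by
    rw [Q.mean_sub (fun x => u x * sgn x S) (fun x => s * sgn x S), ← Q.coeff_mean,
      ← Q.coeff_mean (fun _ => s) S, h0, sub_zero]
  have h3 : T.mean (fun x => 1 - s * u x) = 1 - s * coeff u ∅ := by
    rw [Q.mean_sub (fun _ => (1 : ℝ)) (fun x => s * u x), Q.mean_const, Q.mean_mul, h1]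
  have hsg : ∀ x : Fin N → Bool, sgn x S = 1 ∨ sgn x S = -1 := by
    intro x
    have := sgn_sq x S
    have h2 : (sgn x S - 1) * (sgn x S + 1) = 0 := by linear_combination this
    rcases mul_eq_zero.mp h2 with h | h
    · left; linarith
    · right; linarith
  rw [abs_le]
  constructor
  · have h4 : T.mean (fun x => -1 * (u x * sgn x S - s * sgn x S)) ≤ T.mean (fun x => 1 - s * u x) := by
      refine Q.mean_mono fun x => ?_
      rcases hu x with h | h <;> rcases hs with h' | h' <;> rcases hsg x with h'' | h'' <;>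
        rw [h, h', h''] <;> norm_num
    rw [Q.mean_mul, ← h2, h3] at h4
    linarith
  · have h4 : T.mean (fun x => u x * sgn x S - s * sgn x S) ≤ T.mean (fun x => 1 - s * u x) := by
      refine Q.mean_mono fun x => ?_
      rcases hu x with h | h <;> rcases hs with h' | h' <;> rcases hsg x with h'' | h'' <;>
        rw [h, h', h''] <;> norm_num
    rw [← h2, h3] at h4
    exact h4

theorem rUMx : S_UMx := by
  intro N u hu S hS
  have h1 := UMx_one N u hu S hS 1 (Or.inl rfl)
  have h2 := UMx_one N u hu S hS (-1) (Or.inr rfl)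
  have h0 := abs_nonneg (coeff u S)
  have h3 : |coeff u ∅| ≤ 1 := by
    rw [abs_le]
    constructor <;> linarith
  have h4 : |coeff u S| ≤ 1 - |coeff u ∅| := by
    rcases abs_cases (coeff u ∅) with h | h <;> rw [h.1] <;> linarith
  have h5 : coeff u ∅ ^ 2 ≤ |coeff u ∅| := by
    rw [← sq_abs]
    nlinarith [abs_nonneg (coeff u ∅)]
  linarith

end Pool.Agent.MP3145b1.UM
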