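import Pool.Agent.Lib.MP_3145b1_co.UM.Spec

/-!
# MP_3145b1_co, project UM, module UPl: orthogonality
-/

set_option autoImplicit false

namespace Pool.Agent.MP3145b1.UM

open Finset Pool.Agent.MP3145b1 Pool.Agent.MP3145b1.RC Pool.Agent.MP3145b1.RD Pool.Agent.MP3145b1.RT

/-- **UPl** (orthogonality) -/
theorem rUPl : S_UPl := by
  intro p J
  induction J using Finset.induction_on with
  | empty =>
    intro c d
    rw [EU_empty]
    simp [Py, wt]
  | insert i J hi ih =>
    intro c d
    rw [EU_insert p J i hi]
    have e1 : EU p J (fun U => Py p (insert i J) c U * Py p (insert i J) d U) =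
        EU p J (fun U => (Py p J c U + 2 * (1 - p i) * Py p J (fun T => c (insert i T)) U) *
          (Py p J d U + 2 * (1 - p i) * Py p J (fun T => d (insert i T)) U)) := by
      refine EU_congr p J fun U hU => ?_
      have hiU : i ∉ U := fun h => hi (hU h)
      rw [Py_insert1 p J i hi c U hiU, Py_insert1 p J i hi d U hiU]
    have e2 : EU p J (fun U => (fun U' => Py p (insert i J) c U' * Py p (insert i J) d U') (insert i U)) =
        EU p J (fun U => (Py p J c U - 2 * p i * Py p J (fun T => c (insert i T)) U) *
          (Py p J d U - 2 * p i * Py p J (fun T => d (insert i T)) U)) := by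
      refine EU_congr p J fun U _ => ?_
      dsimp only
      rw [Py_insert2 p J i hi c U, Py_insert2 p J i hi d U]
    rw [e1, e2, ← EU_mul, ← EU_mul, ← EU_add]
    have e3 : EU p J (fun U => p i * ((Py p J c U + 2 * (1 - p i) * Py p J (fun T => c (insert i T)) U) *
          (Py p J d U + 2 * (1 - p i) * Py p J (fun T => d (insert i T)) U)) +
        (1 - p i) * ((Py p J c U - 2 * p i * Py p J (fun T => c (insert i T)) U) *
          (Py p J d U - 2 * p i * Py p J (fun T => d (insert i T)) U))) =
        EU p J (fun U => Py p J c U * Py p J d U + 4 * (p i * (1 - p i)) *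
          (Py p J (fun T => c (insert i T)) U * Py p J (fun T => d (insert i T)) U)) := by
      refine EU_congr p J fun U _ => ?_
      ring
    rw [e3, EU_add, EU_mul, ih c d, ih (fun T => c (insert i T)) (fun T => d (insert i T)),
      Finset.sum_powerset_insert hi, Finset.mul_sum]
    congr 1
    refine Finset.sum_congr rfl fun T hT => ?_
    have hiT : i ∉ T := fun h => hi (Finset.mem_powerset.1 hT h)
    rw [wt_insert p T i hiT]
    ring

end Pool.Agent.MP3145b1.UM
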