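import Pool.Agent.Lib.MP_3145b1_co.UM.Spec

/-!
# MP_3145b1_co, project UM: Parseval for a composition (helper60)
-/

set_option autoImplicit false

namespace Pool.Agent.MP3145b1.UM

open Finset Pool.Agent.MP3145b1 Pool.Agent.MP3145b1.RC Pool.Agent.MP3145b1.RD Pool.Agent.MP3145b1.RT

private theorem UPv_Lp_sq {N : ℕ} (P : ℕ → Finset (Fin N)) (M : ℕ) (ψ : ℕ → Finset (Fin N) → ℝ)
    (S : Finset (Fin N)) : Lp P M ψ S ^ 2 = Lp P M (fun i R => ψ i R ^ 2) S := by
  unfold Lp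
  split_ifs
  · rw [Finset.prod_pow]
  · norm_num

private theorem UPv_par {N : ℕ} (f : (Fin N → Bool) → ℝ) (hf : ∀ x, f x = 1 ∨ f x = -1) :
    ∑ S : Finset (Fin N), coeff f S ^ 2 = 1 := by
  rw [Q.parseval]
  have h : (fun x => f x ^ 2) = fun _ => (1 : ℝ) := by
    funext x
    rcases hf x with h | h <;> rw [h] <;> norm_num
  rw [h, Q.mean_const]

theorem rUPv (h1 : S_Smm) (h2 : S_Vsm) : S_UPv := by
  intro N M P u f c hC hcf hf
  have e1 : ∀ S : Finset (Fin N), coeff f S ^ 2 =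
      Lp P M (fun i R => coeff (u i) R ^ 2) S * (fun T => c T ^ 2) (TT P M S) := by
    intro S
    rw [hcf S, mul_pow, UPv_Lp_sq]
  rw [← UPv_par f hf, Finset.sum_congr rfl (fun S _ => e1 S)]
  refine Eq.trans ?_ (h1 N M P hC.1 (fun i R => coeff (u i) R ^ 2) (fun T => c T ^ 2)).symm
  refine Finset.sum_congr rfl fun T _ => ?_
  congr 1
  unfold wt
  exact Finset.prod_congr rfl fun i _ => (h2 N P u hC i).2.2.1.symm

end Pool.Agent.MP3145b1.UM
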