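import Pool.Agent.Lib.MP_3145b1_co.UM.Spec

set_option autoImplicit false

namespace Pool.Agent.MP3145b1.UM

open Finset Pool.Agent.MP3145b1 Pool.Agent.MP3145b1.RC Pool.Agent.MP3145b1.RD Pool.Agent.MP3145b1.RT

private theorem URp_lin (p : ℕ → ℝ) (J : Finset ℕ) (x y : ℝ) (c c1 c2 : Finset ℕ → ℝ)
    (h : ∀ T, T ⊆ J → c T = x * c1 T + y * c2 T) (U : Finset ℕ) :
    Py p J c U = x * Py p J c1 U + y * Py p J c2 U := by
  unfold Py
  rw [Finset.mul_sum, Finset.mul_sum, ← Finset.sum_add_distrib]
  refine Finset.sum_congr rfl fun T hT => ?_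
  rw [h T (Finset.mem_powerset.1 hT)]
  ring

theorem rURp : S_URp := by
  intro a p J
  induction J using Finset.induction_on with
  | empty =>
    intro F z U hU
    have hU' : U = ∅ := Finset.subset_empty.1 hU
    subst hU'
    simp [Py, Co_empty, Av_empty]
  | insert i J hi ih =>
    intro F z U hU
    have e1 : ∀ V : Finset ℕ, Py p J (fun T => Co a p (insert i J) T F z) V =
        p i * Py p J (fun T => Co a p J T F z) V +
          (1 - p i) * Py p J (fun T => Co a p J T F (z + a i)) V := fun V =>
      URp_lin p J (p i) (1 - p i) _ _ _ (fun T hT => Co_insert_not a p J T i hi hT F z) V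
    have e2 : ∀ V : Finset ℕ, Py p J (fun T => Co a p (insert i J) (insert i T) F z) V =
        (1 / 2) * Py p J (fun T => Co a p J T F z) V +
          (-(1 / 2)) * Py p J (fun T => Co a p J T F (z + a i)) V := fun V =>
      URp_lin p J (1 / 2) (-(1 / 2)) _ _ _ (fun T hT => by
        rw [Co_insert_mem a p J T i hi hT F z]; ring) V
    by_cases hiU : i ∈ U
    · have hV : U.erase i ⊆ J := by
        intro j hj
        rcases Finset.mem_insert.1 (hU (Finset.mem_of_mem_erase hj)) with h | h
        · exact absurd h (Finset.ne_of_mem_erase hj)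
        · exact h
      have hUe : insert i (U.erase i) = U := Finset.insert_erase hiU
      have hni : i ∉ U.erase i := Finset.notMem_erase i U
      rw [← hUe, Py_insert2 p J i hi, e1, e2, ih F z _ hV, ih F (z + a i) _ hV,
        Finset.sum_insert hni]
      have e3 : z + (a i + ∑ j ∈ U.erase i, a j) = z + a i + ∑ j ∈ U.erase i, a j := by ring
      rw [e3]
      ring
    · have hV : U ⊆ J := by
        intro j hj
        rcases Finset.mem_insert.1 (hU hj) with h | h
        · exact absurd (h ▸ hj) hiU
        · exact h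
      rw [Py_insert1 p J i hi _ U hiU, e1, e2, ih F z _ hV, ih F (z + a i) _ hV]
      ring

end Pool.Agent.MP3145b1.UM
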