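import Pool.Agent.Lib.MP_3145b1_co.UM.Spec

/-!
# MP_3145b1_co, project UM: symmetric gates of a composition
-/

set_option autoImplicit false

namespace Pool.Agent.MP3145b1.UM

open Finset Pool.Agent.MP3145b1 Pool.Agent.MP3145b1.RC Pool.Agent.MP3145b1.RD Pool.Agent.MP3145b1.RT

private theorem USy_val (φ : ℕ → Bool) (y : ℝ) : (fun y : ℝ => if φ ⌊y⌋₊ then (-1 : ℝ) else 1) y = 1 ∨
    (fun y : ℝ => if φ ⌊y⌋₊ then (-1 : ℝ) else 1) y = -1 := by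
  show (if φ ⌊y⌋₊ then (-1 : ℝ) else 1) = 1 ∨ (if φ ⌊y⌋₊ then (-1 : ℝ) else 1) = -1
  by_cases h : φ ⌊y⌋₊ = true
  · right
    rw [if_pos h]
  · left
    rw [if_neg h]

private theorem USy_fun {N : ℕ} (M : ℕ) (u : ℕ → (Fin N → Bool) → ℝ) (φ : ℕ → Bool) :
    (fun x : Fin N → Bool => if φ ((range M).filter (fun i => u i x = -1)).card then (-1 : ℝ) else 1) =
      (fun x => (fun y : ℝ => if φ ⌊y⌋₊ then (-1 : ℝ) else 1)
        (0 + ∑ i ∈ range M, (if u i x = -1 then (fun _ : ℕ => (1 : ℝ)) i else 0))) := by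
  funext x
  have e : (0 : ℝ) + ∑ i ∈ range M, (if u i x = -1 then (fun _ : ℕ => (1 : ℝ)) i else 0) =
      (((range M).filter (fun i => u i x = -1)).card : ℝ) := by
    rw [zero_add]
    exact Finset.sum_boole _ _
  show _ = (if φ ⌊(0 : ℝ) + ∑ i ∈ range M, (if u i x = -1 then (fun _ : ℕ => (1 : ℝ)) i else 0)⌋₊
    then (-1 : ℝ) else 1)
  rw [e, Nat.floor_natCast]

/-- Symmetric gates. -/
theorem rUSy (h1 : S_Vsm) (h2 : S_TSym) (h3 : S_TCfo) (h4 : S_UPv) (h5 : S_UGE) (h6 : S_UCm) : S_USy := by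
  intro K N M P u φ hK hC hM
  rw [USy_fun M u φ]
  have hp : ∀ i, 0 ≤ pb u i ∧ pb u i ≤ 1 := fun i => (h1 N P u hC i).1
  have hco := h3 N M (fun _ => 1) (fun y : ℝ => if φ ⌊y⌋₊ then (-1 : ℝ) else 1) P u hC 0
  have hval : ∀ x : Fin N → Bool, (fun x => (fun y : ℝ => if φ ⌊y⌋₊ then (-1 : ℝ) else 1)
        (0 + ∑ i ∈ range M, (if u i x = -1 then (fun _ : ℕ => (1 : ℝ)) i else 0))) x = 1 ∨
      (fun x => (fun y : ℝ => if φ ⌊y⌋₊ then (-1 : ℝ) else 1)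
        (0 + ∑ i ∈ range M, (if u i x = -1 then (fun _ : ℕ => (1 : ℝ)) i else 0))) x = -1 :=
    fun x => USy_val φ _
  have hsum := h4 N M P u _ (fun T => Co (fun _ => 1) (pb u) (range M) T
    (fun y : ℝ => if φ ⌊y⌋₊ then (-1 : ℝ) else 1) 0) hC hco hval
  have hineq := h2 (fun _ => 1) (pb u) (range M) (fun y : ℝ => if φ ⌊y⌋₊ then (-1 : ℝ) else 1)
    (fun _ _ => rfl) hp (USy_val φ) K hK 0
  have hGM := h5 K (pb u) M (fun T => Co (fun _ => 1) (pb u) (range M) T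
    (fun y : ℝ => if φ ⌊y⌋₊ then (-1 : ℝ) else 1) 0) hp hsum hineq
  exact h6 K N M P u _ _ (by linarith) hC hco hval hGM hM

end Pool.Agent.MP3145b1.UM
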