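import Pool.Agent.Lib.MP_3145b1_co.UM.Spec

/-!
# MP_3145b1_co, project UM: threshold gates with weights of both signs
-/

set_option autoImplicit false

namespace Pool.Agent.MP3145b1.UM

open Finset Pool.Agent.MP3145b1 Pool.Agent.MP3145b1.RC Pool.Agent.MP3145b1.RD Pool.Agent.MP3145b1.RT

private theorem UTh_neg {N : ℕ} (g : (Fin N → Bool) → ℝ) (S : Finset (Fin N)) :
    coeff (fun x => - g x) S = - coeff g S := by
  unfold coeff
  rw [show (∑ x : Fin N → Bool, -g x * ∏ i ∈ S, (if x i then (-1 : ℝ) else 1)) =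
      -∑ x : Fin N → Bool, g x * ∏ i ∈ S, (if x i then (-1 : ℝ) else 1) by
    rw [← Finset.sum_neg_distrib]
    exact Finset.sum_congr rfl fun x _ => by ring]
  ring

private theorem UTh_sq {N : ℕ} (g : (Fin N → Bool) → ℝ) (S : Finset (Fin N)) :
    coeff (fun x => - g x) S ^ 2 = coeff g S ^ 2 := by
  rw [UTh_neg, neg_sq]

private theorem UTh_mq {K : ℝ} {N : ℕ} (g : (Fin N → Bool) → ℝ) (h : Mq K g) :
    Mq K (fun x => - g x) := by
  have hi : influence (fun x => - g x) = influence g := by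
    unfold influence
    exact Finset.sum_congr rfl fun T _ => by rw [UTh_sq]
  unfold Mq at h ⊢
  rw [hi, UTh_sq]
  intro hV
  obtain ⟨S, h1, h2, h3⟩ := h hV
  refine ⟨S, h1, ?_, ?_⟩
  · rw [UTh_neg]
    exact neg_ne_zero.2 h2
  · rw [UTh_sq]
    exact h3

/-- Threshold gates with weights of both signs. -/
theorem rUTh (h1 : S_Vsm) (h2 : S_TLin) (h3 : S_TCfo) (h4 : S_UPv) (h5 : S_UGE) (h6 : S_UCm) :
    S_UTh := by
  intro K N M P u a θ1 θ2 hK hC hS
  obtain ⟨u', hu'⟩ : ∃ u' : ℕ → (Fin N → Bool) → ℝ,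
      u' = fun i => if 0 ≤ a i then u i else fun x => - u i x := ⟨_, rfl⟩
  have hup : ∀ i, 0 ≤ a i → u' i = u i := fun i hi => by rw [hu']; exact if_pos hi
  have hun : ∀ i, ¬ 0 ≤ a i → u' i = fun x => - u i x := fun i hi => by rw [hu']; exact if_neg hi
  have hC' : Cp P u' := by
    obtain ⟨c1, c2, c3⟩ := hC
    refine ⟨c1, fun i => ?_, fun i x => ?_⟩
    · by_cases hi : 0 ≤ a i
      · rw [hup i hi]; exact c2 i
      · rw [hun i hi]
        intro x y hxy
        show - u i x = - u i y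
        rw [c2 i x y hxy]
    · by_cases hi : 0 ≤ a i
      · rw [hup i hi]; exact c3 i x
      · rw [hun i hi]
        show - u i x = 1 ∨ - u i x = -1
        rcases c3 i x with h | h
        · right; rw [h]
        · left; rw [h]; norm_num
  have hS' : ∀ i, Mq K (u' i) := by
    intro i
    by_cases hi : 0 ≤ a i
    · rw [hup i hi]; exact hS i
    · rw [hun i hi]; exact UTh_mq (u i) (hS i)
  obtain ⟨σ, hσ⟩ : ∃ σ : ℝ, σ = ∑ i ∈ range M, (if 0 ≤ a i then 0 else a i) := ⟨_, rfl⟩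
  have hsum : ∀ x : Fin N → Bool, ∑ i ∈ range M, (if u i x = -1 then a i else 0) =
      σ + ∑ i ∈ range M, (if u' i x = -1 then (fun j : ℕ => |a j|) i else 0) := by
    intro x
    rw [hσ, ← Finset.sum_add_distrib]
    refine Finset.sum_congr rfl fun i _ => ?_
    show _ = _ + (if u' i x = -1 then |a i| else 0)
    by_cases hi : 0 ≤ a i
    · rw [hup i hi, if_pos hi, abs_of_nonneg hi, zero_add]
    · rw [hun i hi, if_neg hi, abs_of_neg (not_le.1 hi)]
      show _ = a i + (if - u i x = -1 then - a i else 0)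
      rcases hC.2.2 i x with h | h
      · rw [h]; norm_num
      · rw [h]; norm_num
  have hfe : (fun x : Fin N → Bool => if θ1 ≤ ∑ i ∈ range M, (if u i x = -1 then a i else 0) ∧
        ∑ i ∈ range M, (if u i x = -1 then a i else 0) < θ2 then (-1 : ℝ) else 1) =
      (fun x => Og θ1 θ2 (σ + ∑ i ∈ range M, (if u' i x = -1 then (fun j : ℕ => |a j|) i else 0))) := by
    funext x
    rw [← hsum x]
    rfl
  rw [hfe]
  have hval : ∀ x : Fin N → Bool, (fun x : Fin N → Bool => Og θ1 θ2 (σ + ∑ i ∈ range M,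
      (if u' i x = -1 then (fun j : ℕ => |a j|) i else 0))) x = 1 ∨
      (fun x : Fin N → Bool => Og θ1 θ2 (σ + ∑ i ∈ range M,
      (if u' i x = -1 then (fun j : ℕ => |a j|) i else 0))) x = -1 := fun x => Og_val θ1 θ2 _
  have hco : ∀ S : Finset (Fin N), coeff (fun x : Fin N → Bool => Og θ1 θ2 (σ + ∑ i ∈ range M,
      (if u' i x = -1 then (fun j : ℕ => |a j|) i else 0))) S =
      Lp P M (fun i R => coeff (u' i) R) S *
        (fun T => Co (fun j : ℕ => |a j|) (pb u') (range M) T (Og θ1 θ2) σ) (TT P M S) :=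
    fun S => h3 N M (fun j : ℕ => |a j|) (Og θ1 θ2) P u' hC' σ S
  refine h6 K N M P u' _ (fun T => Co (fun j : ℕ => |a j|) (pb u') (range M) T (Og θ1 θ2) σ)
    (by linarith) hC' hco hval ?_ hS'
  refine h5 K (pb u') M _ (fun i => (h1 N P u' hC' i).1) ?_ ?_
  · exact h4 N M P u' _ _ hC' hco hval
  · exact h2 (fun j : ℕ => |a j|) (pb u') (range M) θ1 θ2 (fun i _ => abs_nonneg _)
      (fun i => (h1 N P u' hC' i).1) K hK σ

end Pool.Agent.MP3145b1.UM
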