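import Pool.Agent.Lib.MP_3145b1_co.UM.Spec

/-!
# MP_3145b1_co, project UM: the two-point inequality for a biased bit
-/

set_option autoImplicit false

namespace Pool.Agent.MP3145b1.UM

open Finset Pool.Agent.MP3145b1 Pool.Agent.MP3145b1.RC Pool.Agent.MP3145b1.RD Pool.Agent.MP3145b1.RT

private theorem UTwo_ring (p A X : ℝ) :
    p * (A + 2 * (1 - p) * X) ^ 4 + (1 - p) * (A - 2 * p * X) ^ 4 =
      A ^ 4 + 6 * A ^ 2 * X ^ 2 * (4 * (p * (1 - p))) +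
        8 * A * X ^ 3 * (4 * (p * (1 - p))) * (1 - 2 * p) +
        X ^ 4 * (4 * (p * (1 - p))) * (4 - 3 * (4 * (p * (1 - p)))) := by
  ring

theorem rUTwo : S_UTwo := by
  intro p A B r hp0 hp1 hr0 hr
  rw [UTwo_ring]
  have hV0 : 0 ≤ 4 * (p * (1 - p)) := by nlinarith [mul_nonneg hp0 (sub_nonneg.2 hp1)]
  have hV1 : 4 * (p * (1 - p)) ≤ 1 := by nlinarith [sq_nonneg (2 * p - 1)]
  have hq : (1 - 2 * p) ^ 2 ≤ 1 := by nlinarith
  generalize 4 * (p * (1 - p)) = V at hr hV0 hV1 ⊢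
  generalize 1 - 2 * p = d at hq ⊢
  have hs0 : 0 ≤ r ^ 2 := sq_nonneg r
  have hs : r ^ 2 ≤ 1 / 4 := by
    by_contra hcon
    push Not at hcon
    nlinarith
  -- the three pieces
  have h1 : 6 * A ^ 2 * (r * B) ^ 2 * V ≤ 3 / 2 * (A ^ 2 * B ^ 2 * V) := by
    have h : 0 ≤ (A ^ 2 * B ^ 2 * V) * (1 / 4 - r ^ 2) :=
      mul_nonneg (by positivity) (by linarith)
    nlinarith
  have h2 : 8 * A * (r * B) ^ 3 * V * d ≤ 1 / 2 * (A ^ 2 * B ^ 2 * V) + 32 * (B ^ 4 * r ^ 6 * V) := by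
    have h : 0 ≤ V * B ^ 2 * (A - 8 * r ^ 3 * B * d) ^ 2 := by positivity
    have h' : 0 ≤ (B ^ 4 * r ^ 6 * V) * (1 - d ^ 2) := mul_nonneg (by positivity) (by linarith)
    nlinarith
  have h3 : 32 * (B ^ 4 * r ^ 6 * V) ≤ 1 / 2 * (V ^ 2 * B ^ 4) := by
    have e : 32 * (B ^ 4 * r ^ 6 * V) = 2 * r ^ 2 * (V ^ 2 * B ^ 4) := by
      have : r ^ 6 = r ^ 2 * (V / 16) := by
        rw [← hr]
        ring
      rw [this]
      ring
    rw [e]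
    have : 0 ≤ (V ^ 2 * B ^ 4) * (1 / 4 - r ^ 2) := mul_nonneg (by positivity) (by linarith)
    nlinarith
  have h4 : (r * B) ^ 4 * V * (4 - 3 * V) ≤ 1 / 4 * (V ^ 2 * B ^ 4) := by
    have e : (r * B) ^ 4 * V * (4 - 3 * V) = 1 / 4 * (V ^ 2 * B ^ 4) - 3 / 16 * (V ^ 3 * B ^ 4) := by
      rw [mul_pow, hr]
      ring
    rw [e]
    have : 0 ≤ V ^ 3 * B ^ 4 := by positivity
    linarith
  have h5 : 0 ≤ V ^ 2 * B ^ 4 := by positivity
  nlinarith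

end Pool.Agent.MP3145b1.UM
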