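import Pool.Agent.Lib.MP_3145b1_co.UM.Spec

/-!
# MP_3145b1_co, project UM: unate gates of a composition (binary encoding of the sets)
-/

set_option autoImplicit false

namespace Pool.Agent.MP3145b1.UM

open Finset Pool.Agent.MP3145b1 Pool.Agent.MP3145b1.RC Pool.Agent.MP3145b1.RD Pool.Agent.MP3145b1.RT

private noncomputable def UUa_F (φ : Finset ℕ → Bool) (y : ℝ) : ℝ :=
  if φ (⌊y⌋₊.bitIndices.toFinset) then (-1 : ℝ) else 1

private theorem UUa_val (φ : Finset ℕ → Bool) (y : ℝ) : UUa_F φ y = 1 ∨ UUa_F φ y = -1 := by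
  unfold UUa_F
  split_ifs
  · exact Or.inr rfl
  · exact Or.inl rfl

private theorem UUa_sum (φ : Finset ℕ → Bool) (U : Finset ℕ) :
    UUa_F φ (0 + ∑ i ∈ U, (fun i : ℕ => (2 : ℝ) ^ i) i) = if φ U then (-1 : ℝ) else 1 := by
  have e : (0 : ℝ) + ∑ i ∈ U, (fun i : ℕ => (2 : ℝ) ^ i) i = ((∑ i ∈ U, 2 ^ i : ℕ) : ℝ) := by
    push_cast
    rw [zero_add]
  rw [UUa_F, e, Nat.floor_natCast, Finset.toFinset_bitIndices_sum_two_pow]

private theorem UUa_sum' (φ : Finset ℕ → Bool) (U : Finset ℕ) (i : ℕ) (hi : i ∉ U) :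
    UUa_F φ (0 + ∑ j ∈ U, (fun i : ℕ => (2 : ℝ) ^ i) j + (fun i : ℕ => (2 : ℝ) ^ i) i) =
      if φ (insert i U) then (-1 : ℝ) else 1 := by
  rw [← UUa_sum φ (insert i U), Finset.sum_insert hi]
  congr 1
  ring

private theorem UUa_le {b c : Bool} (h : b = true → c = true) :
    (if c then (-1 : ℝ) else 1) ≤ if b then (-1 : ℝ) else 1 := by
  cases b <;> cases c
  · simp
  · simp
  · simp at h
  · simp

private theorem UUa_un (φ : Finset ℕ → Bool) (M : ℕ)
    (hφ : ∀ i, i < M → (∀ U, U ⊆ range M → i ∉ U → φ U = true → φ (insert i U) = true) ∨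
      (∀ U, U ⊆ range M → i ∉ U → φ (insert i U) = true → φ U = true)) :
    Un (fun i : ℕ => (2 : ℝ) ^ i) (range M) (UUa_F φ) 0 := by
  intro i hi
  rcases hφ i (Finset.mem_range.1 hi) with h | h
  · right
    intro S hS
    have hi' : i ∉ S := fun h0 => (Finset.mem_erase.1 (hS h0)).1 rfl
    have hS' : S ⊆ range M := fun j hj => Finset.mem_of_mem_erase (hS hj)
    rw [UUa_sum' φ S i hi', UUa_sum φ S]
    exact UUa_le (h S hS' hi')
  · left
    intro S hS
    have hi' : i ∉ S := fun h0 => (Finset.mem_erase.1 (hS h0)).1 rfl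
    have hS' : S ⊆ range M := fun j hj => Finset.mem_of_mem_erase (hS hj)
    rw [UUa_sum' φ S i hi', UUa_sum φ S]
    exact UUa_le (h S hS' hi')

/-- Unate gates. -/
theorem rUUa (h1 : S_Vsm) (h2 : S_TCfo) (h3 : S_UGU) (h4 : S_UCm) : S_UUa := by
  intro K N M P u φ hK hφ hC hu
  have hfe : (fun x : Fin N → Bool =>
      if φ ((range M).filter (fun i => u i x = -1)) then (-1 : ℝ) else 1) =
      (fun x => UUa_F φ (0 + ∑ i ∈ range M, (if u i x = -1 then (fun i : ℕ => (2 : ℝ) ^ i) i else 0))) := by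
    funext x
    rw [← Finset.sum_filter]
    exact (UUa_sum φ _).symm
  refine h4 K N M P u _ (fun T => Co (fun i : ℕ => (2 : ℝ) ^ i) (pb u) (range M) T (UUa_F φ) 0)
    (by linarith) hC ?_ ?_ ?_ hu
  · intro S
    rw [hfe]
    exact h2 N M (fun i : ℕ => (2 : ℝ) ^ i) (UUa_F φ) P u hC 0 S
  · intro x
    by_cases h : φ ((range M).filter (fun i => u i x = -1)) = true
    · right
      show (if φ ((range M).filter (fun i => u i x = -1)) then (-1 : ℝ) else 1) = -1
      rw [if_pos h]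
    · left
      show (if φ ((range M).filter (fun i => u i x = -1)) then (-1 : ℝ) else 1) = 1
      rw [if_neg h]
  · exact h3 K (fun i : ℕ => (2 : ℝ) ^ i) (pb u) M (UUa_F φ) 0 (by linarith)
      (fun i => (h1 N P u hC i).1) (UUa_val φ) (UUa_un φ M hφ)

end Pool.Agent.MP3145b1.UM
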