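import Pool.Agent.Lib.MP_3145b1_co.UM.Spec

/-!
# The first level of a unate gate
-/

set_option autoImplicit false

namespace Pool.Agent.MP3145b1.UM

open Finset Pool.Agent.MP3145b1 Pool.Agent.MP3145b1.RC Pool.Agent.MP3145b1.RD Pool.Agent.MP3145b1.RT

private theorem UUn_Co (a p : ℕ → ℝ) (J : Finset ℕ) (F : ℝ → ℝ) (z : ℝ) (i : ℕ) (hi : i ∈ J)
    (T : Finset ℕ) (hT : T ⊆ J.erase i) :
    Co a p J (insert i T) F z = Co a p (J.erase i) T (hA (a i) F) z := by
  have h1 := Co_insert_mem a p (J.erase i) T i (Finset.notMem_erase i J) hT F z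
  rw [Finset.insert_erase hi] at h1
  rw [h1, Co_hA]

private theorem UUn_Av_congr (a p : ℕ → ℝ) (B : Finset ℕ) (F G : ℝ → ℝ) (z : ℝ)
    (h : ∀ S, S ⊆ B → F (z + ∑ j ∈ S, a j) = G (z + ∑ j ∈ S, a j)) :
    Av a p B F z = Av a p B G z := by
  unfold Av
  exact Finset.sum_congr rfl fun S hS => by rw [h S (Finset.mem_powerset.1 hS)]

theorem rUUn (h1 : S_TPar) : S_UUn := by
  intro a p J F z hp hF hU i hi
  have hQ : QQ a p J F z i = Av a p (J.erase i) (fun y => hA (a i) F y ^ 2) z := by
    unfold QQ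
    rw [← (h1 a p (J.erase i) ∅ (hA (a i) F) z (Finset.empty_subset _)).1]
    exact Finset.sum_congr rfl fun T hT => by
      rw [UUn_Co a p J F z i hi T (Finset.mem_powerset.1 hT)]
  have hC : Co a p J {i} F z = Av a p (J.erase i) (hA (a i) F) z := by
    have h2 := UUn_Co a p J F z i hi ∅ (Finset.empty_subset _)
    rw [Co_empty] at h2
    rw [← h2]
    rfl
  rw [hQ, hC]
  rcases hU i hi with hm | hm
  · have h3 : Av a p (J.erase i) (fun y => hA (a i) F y ^ 2) z =
        Av a p (J.erase i) (fun y => (-1) * hA (a i) F y) z := by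
      refine UUn_Av_congr a p _ _ _ z fun S hS => ?_
      have h4 := hm S hS
      unfold hA
      rcases hF (z + ∑ j ∈ S, a j) with h5 | h5 <;>
        rcases hF (z + ∑ j ∈ S, a j + a i) with h6 | h6 <;> rw [h5, h6] at h4 <;>
        simp only [h5, h6] <;> first | (exfalso; linarith) | norm_num
    rw [h3, Av_mul]
    ring
  · have h3 : Av a p (J.erase i) (fun y => hA (a i) F y ^ 2) z =
        Av a p (J.erase i) (hA (a i) F) z := by
      refine UUn_Av_congr a p _ _ _ z fun S hS => ?_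
      have h4 := hm S hS
      unfold hA
      rcases hF (z + ∑ j ∈ S, a j) with h5 | h5 <;>
        rcases hF (z + ∑ j ∈ S, a j + a i) with h6 | h6 <;> rw [h5, h6] at h4 <;>
        simp only [h5, h6] <;> first | (exfalso; linarith) | norm_num
    rw [h3]

end Pool.Agent.MP3145b1.UM
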