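import Pool.Agent.Lib.MP_3145b1_co.RT.Asm
import Pool.Agent.Lib.MP_3145b1_co.UM.UTwo
import Pool.Agent.Lib.MP_3145b1_co.UM.UHc
import Pool.Agent.Lib.MP_3145b1_co.UM.UPl
import Pool.Agent.Lib.MP_3145b1_co.UM.URp
import Pool.Agent.Lib.MP_3145b1_co.UM.UHm
import Pool.Agent.Lib.MP_3145b1_co.UM.UIn
import Pool.Agent.Lib.MP_3145b1_co.UM.ULg
import Pool.Agent.Lib.MP_3145b1_co.UM.UUn
import Pool.Agent.Lib.MP_3145b1_co.UM.UAv
import Pool.Agent.Lib.MP_3145b1_co.UM.UGU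
import Pool.Agent.Lib.MP_3145b1_co.UM.UGE
import Pool.Agent.Lib.MP_3145b1_co.UM.UMx
import Pool.Agent.Lib.MP_3145b1_co.UM.UPv
import Pool.Agent.Lib.MP_3145b1_co.UM.UCm
import Pool.Agent.Lib.MP_3145b1_co.UM.UTh
import Pool.Agent.Lib.MP_3145b1_co.UM.USy
import Pool.Agent.Lib.MP_3145b1_co.UM.UUa
import Pool.Agent.Lib.MP_3145b1_co.UM.UPr
import Pool.Agent.Lib.MP_3145b1_co.UM.UCl
import Pool.Agent.Lib.MP_3145b1_co.UM.UMn
import Pool.Agent.Lib.MP_3145b1_co.UM.UFn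

/-!
# MP_3145b1_co, project UM: assembly
-/

set_option autoImplicit false

namespace Pool.Agent.MP3145b1.UM

open Finset Pool.Agent.MP3145b1 Pool.Agent.MP3145b1.RC Pool.Agent.MP3145b1.RD Pool.Agent.MP3145b1.RT

theorem uHc : S_UHc := rUHc rUTwo

theorem uHm : S_UHm := rUHm uHc rUPl rURp

theorem uIn : S_UIn := rUIn rTPar uHm

theorem uLg : S_ULg := rULg uIn

theorem uUn : S_UUn := rUUn rTPar

theorem uGU : S_UGU := rUGU uLg uUn rUAv

theorem uGE : S_UGE := rUGE rUAv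

theorem uPv : S_UPv := rUPv rSmm aVsm

theorem uCm : S_UCm := rUCm rPrd aVsm tFml rUMx uPv

theorem uTh : S_UTh := rUTh aVsm tLin tCfo uPv uGE uCm

theorem uSy : S_USy := rUSy aVsm tSym tCfo uPv uGE uCm

theorem uUa : S_UUa := rUUa aVsm tCfo uGU uCm

theorem uPr : S_UPr := rUPr aVsm aCfo aPiv rFix uPv uGE uCm

theorem uCl : S_UCl := rUCl uTh uSy uUa uPr

/-- the min-entropy-influence inequality for read-once compositions of unate gates, threshold gates,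
symmetric gates and branching programs of width `w` -/
theorem fin : ∃ C : ℝ, 0 < C ∧ ∀ w : ℕ, 1 ≤ w → ∀ (N : ℕ) (f : (Fin N → Bool) → ℝ), UG w f →
    (0 < 1 - coeff f ∅ ^ 2 → ∃ S : Finset (Fin N), S ≠ ∅ ∧ coeff f S ≠ 0 ∧
      (1 - coeff f ∅ ^ 2) * Real.log (1 / coeff f S ^ 2) ≤ C * w * (influence f - (1 - coeff f ∅ ^ 2))) ∧
    ∃ S : Finset (Fin N), Real.exp (-(C * w * influence f)) ≤ |coeff f S| :=
  rUFn gVar gPg uCl rUMn

end Pool.Agent.MP3145b1.UM
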