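import Pool.Agent.Lib.MP_3145b1_co.UM.Spec2

/-!
# MP_3145b1_co, project UM, part 2: the final statement `S_UF2`
-/

set_option autoImplicit false

namespace Pool.Agent.MP3145b1.UM

open Finset Pool.Agent.MP3145b1 Pool.Agent.MP3145b1.RC Pool.Agent.MP3145b1.RD Pool.Agent.MP3145b1.RT

/-- **UF2** (final statement, with leaves) -/
theorem rUF2 (h1 : S_GVar) (h2 : S_GPg) (h3 : S_UC2) (h4 : S_UMn) : S_UF2 := by
  refine ⟨4706 * 7000000, by norm_num, fun w hw C0 hC0 N f hf => ?_⟩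
  have hw1 : (1 : ℝ) ≤ (w : ℝ) := by exact_mod_cast hw
  have hPG : PG w (4706 * (7000000 * (w : ℝ))) := h2 w (7000000 * (w : ℝ)) (by linarith) (h1 w hw)
  have hle : 4706 * (7000000 * (w : ℝ)) ≤ 4706 * 7000000 * ((w : ℝ) + C0) := by linarith
  have hK2 : 30000 ≤ 4706 * 7000000 * ((w : ℝ) + C0) := by linarith
  have h13 : 13 * C0 ≤ 4706 * 7000000 * ((w : ℝ) + C0) := by linarith
  generalize 4706 * 7000000 * ((w : ℝ) + C0) = K at hle hK2 h13 ⊢
  have hK1 : 1 ≤ K := by linarith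
  obtain ⟨hv, hE⟩ := h3 w (4706 * (7000000 * (w : ℝ))) K C0 hPG hle hK2 hC0 h13 N f hf
  exact ⟨hE, h4 K N f hK1 hv hE⟩

end Pool.Agent.MP3145b1.UM
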