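import Pool.Agent.Lib.MP_3145b1_co.UM.Spec2

set_option autoImplicit false

namespace Pool.Agent.MP3145b1.UM

open Finset Pool.Agent.MP3145b1 Pool.Agent.MP3145b1.RC Pool.Agent.MP3145b1.RD Pool.Agent.MP3145b1.RT

private theorem ULf_vi {p : ℕ → ℝ} {M : ℕ} (hph : ∀ i, i < M → p i = 1 / 2) {j : ℕ} (hj : j ∈ range M) :
    vi p j = 1 := by
  unfold vi
  rw [hph j (mem_range.1 hj)]
  norm_num

private theorem ULf_wt {p : ℕ → ℝ} {M : ℕ} (hph : ∀ i, i < M → p i = 1 / 2) {T : Finset ℕ}
    (hT : T ⊆ range M) : wt p T = 1 := by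
  rw [wt_eq]
  exact Finset.prod_eq_one fun j hj => ULf_vi hph (hT hj)

private theorem ULf_card {T : Finset ℕ} (hT : T ≠ ∅) : 0 ≤ (T.card : ℝ) - 1 := by
  have h : 1 ≤ T.card := Finset.card_pos.2 (Finset.nonempty_iff_ne_empty.2 hT)
  have h' : (1 : ℝ) ≤ T.card := by exact_mod_cast h
  linarith

private theorem ULf_split (c : Finset ℕ → ℝ) (J : Finset ℕ) (i : ℕ) (hi : i ∈ J) :
    ∑ T ∈ (J.erase i).powerset, c (insert i T) ^ 2 ≤ c {i} ^ 2 +
      ∑ T ∈ J.powerset.erase ∅, ((T.card : ℝ) - 1) * c T ^ 2 := by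
  classical
  have h0 : (∅ : Finset ℕ) ∈ (J.erase i).powerset := Finset.empty_mem_powerset _
  rw [← Finset.add_sum_erase _ _ h0]
  have e : insert i (∅ : Finset ℕ) = {i} := by simp
  rw [e]
  have hinj : Set.InjOn (fun T : Finset ℕ => insert i T) ((J.erase i).powerset.erase ∅ : Finset (Finset ℕ)) := by
    intro S hS T hT h
    have hS' : i ∉ S := fun h => by
      have := Finset.mem_powerset.1 (Finset.mem_of_mem_erase (Finset.mem_coe.1 hS)) h
      simp at this
    have hT' : i ∉ T := fun h => by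
      have := Finset.mem_powerset.1 (Finset.mem_of_mem_erase (Finset.mem_coe.1 hT)) h
      simp at this
    have h2 : insert i S = insert i T := h
    rw [← Finset.erase_insert hS', ← Finset.erase_insert hT', h2]
  have h1 : ∑ T ∈ (J.erase i).powerset.erase ∅, c (insert i T) ^ 2 ≤
      ∑ T ∈ (J.erase i).powerset.erase ∅, (((insert i T).card : ℝ) - 1) * c (insert i T) ^ 2 := by
    refine Finset.sum_le_sum fun T hT => ?_
    have hT' : i ∉ T := fun h => by
      have := Finset.mem_powerset.1 (Finset.mem_of_mem_erase hT) h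
      simp at this
    have hne : T ≠ ∅ := Finset.ne_of_mem_erase hT
    have h2 : 1 ≤ T.card := Finset.card_pos.2 (Finset.nonempty_iff_ne_empty.2 hne)
    have h3 : (1 : ℝ) ≤ T.card := by exact_mod_cast h2
    rw [Finset.card_insert_of_notMem hT']
    push_cast
    nlinarith [sq_nonneg (c (insert i T))]
  have h2 : ∑ T ∈ (J.erase i).powerset.erase ∅, (((insert i T).card : ℝ) - 1) * c (insert i T) ^ 2 =
      ∑ T ∈ ((J.erase i).powerset.erase ∅).image (fun T => insert i T), ((T.card : ℝ) - 1) * c T ^ 2 :=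
    (Finset.sum_image (f := fun T : Finset ℕ => ((T.card : ℝ) - 1) * c T ^ 2) hinj).symm
  have h3 : ∑ T ∈ ((J.erase i).powerset.erase ∅).image (fun T => insert i T), ((T.card : ℝ) - 1) * c T ^ 2 ≤
      ∑ T ∈ J.powerset.erase ∅, ((T.card : ℝ) - 1) * c T ^ 2 := by
    refine Finset.sum_le_sum_of_subset_of_nonneg ?_ fun T hT _ =>
      mul_nonneg (ULf_card (Finset.ne_of_mem_erase hT)) (sq_nonneg _)
    intro U hU
    obtain ⟨T, hT, rfl⟩ := Finset.mem_image.1 hU
    have hT' : T ⊆ J.erase i := Finset.mem_powerset.1 (Finset.mem_of_mem_erase hT)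
    refine Finset.mem_erase.2 ⟨Finset.insert_ne_empty _ _, Finset.mem_powerset.2 ?_⟩
    exact Finset.insert_subset hi (hT'.trans (Finset.erase_subset _ _))
  linarith

private theorem ULf_num {V D Q x : ℝ} (hV : 0 < V) (hV1 : V ≤ 1) (hD : 0 ≤ D) (hDV : D ≤ V / 12)
    (hQ : 0 < Q) (hQx : Q ≤ x + D) (hx : x ≤ 1) (h : V * (2 * Real.log (1 / Q)) ≤ 10 * D) :
    0 < x ∧ V * Real.log (1 / x) ≤ 12 * D := by
  have h1 : Real.log Q ≤ Q - 1 := Real.log_le_sub_one_of_pos hQ
  have e : Real.log (1 / Q) = -Real.log Q := by rw [one_div, Real.log_inv]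
  rw [e] at h
  have h2 : V * (1 - Q) ≤ 5 * D := by nlinarith
  have h3 : V * (1 - x) ≤ 6 * D := by nlinarith
  have h4 : 1 / 2 ≤ x := by
    by_contra hlt
    push Not at hlt
    nlinarith
  have hx0 : 0 < x := by linarith
  refine ⟨hx0, ?_⟩
  have h5 : Real.log (1 / x) ≤ 1 / x - 1 := Real.log_le_sub_one_of_pos (by positivity)
  have h6 : 1 / x - 1 ≤ 2 * (1 - x) := by
    have h7 : 1 / x * x = 1 := by field_simp
    have h8 : 0 < 1 / x := by positivity
    have h9 : 1 / x ≤ 2 := by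
      rw [div_le_iff₀ hx0]
      linarith
    nlinarith
  nlinarith

theorem rULf (h1 : S_TPar) (h2 : S_ULg) (h3 : S_UAv) : S_ULf := by
  classical
  intro a p M F z hp hph hF hV hD
  have hF2 : ∀ y, F y ^ 2 = 1 := fun y => by rcases hF y with h | h <;> rw [h] <;> norm_num
  have hwt : ∀ T ∈ (range M).powerset.erase ∅, wt p T = 1 := fun T hT =>
    ULf_wt hph (Finset.mem_powerset.1 (Finset.mem_of_mem_erase hT))
  have hD0 : 0 ≤ ∑ T ∈ (range M).powerset.erase ∅, ((T.card : ℝ) - 1) * Co a p (range M) T F z ^ 2 :=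
    Finset.sum_nonneg fun T hT => mul_nonneg (ULf_card (Finset.ne_of_mem_erase hT)) (sq_nonneg _)
  have hV1 : ∑ T ∈ (range M).powerset.erase ∅, Co a p (range M) T F z ^ 2 ≤ 1 := by
    have h := (h1 a p (range M) ∅ F z (Finset.empty_subset _)).2.2.2
    rw [Av_congr a p (range M) hF2 z, Av_const] at h
    have e : ∑ T ∈ (range M).powerset.erase ∅, Co a p (range M) T F z ^ 2 =
        ∑ T ∈ (range M).powerset.erase ∅, wt p T * Co a p (range M) T F z ^ 2 :=
      Finset.sum_congr rfl fun T hT => by rw [hwt T hT, one_mul]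
    rw [e, h]
    linarith [sq_nonneg (Av a p (range M) F z)]
  obtain ⟨ι, hι⟩ : ∃ ι : Finset ℕ → ℕ, ∀ T : Finset ℕ, T ≠ ∅ → ι T ∈ T := by
    refine ⟨fun T => if h : T.Nonempty then h.choose else 0, fun T hT => ?_⟩
    have h : T.Nonempty := Finset.nonempty_iff_ne_empty.2 hT
    dsimp only
    rw [dif_pos h]
    exact h.choose_spec
  have hA := h2 a p (range M) F z ι hp hF (fun T hT => hι T (Finset.ne_of_mem_erase hT))
  have e1 : ∑ T ∈ (range M).powerset.erase ∅, wt p T * Co a p (range M) T F z ^ 2 *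
      (2 * Real.log (1 / QQ a p (range M) F z (ι T))) =
      ∑ T ∈ (range M).powerset.erase ∅, Co a p (range M) T F z ^ 2 *
      (2 * Real.log (1 / QQ a p (range M) F z (ι T))) :=
    Finset.sum_congr rfl fun T hT => by rw [hwt T hT, one_mul]
  have e2 : ∑ T ∈ (range M).powerset.erase ∅, wt p T * Co a p (range M) T F z ^ 2 *
      (∑ j ∈ T.erase (ι T), 2 * Real.log (1 / vi p j)) = 0 := by
    refine Finset.sum_eq_zero fun T hT => ?_
    have hz : ∑ j ∈ T.erase (ι T), 2 * Real.log (1 / vi p j) = 0 := by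
      refine Finset.sum_eq_zero fun j hj => ?_
      have hj' : j ∈ range M :=
        Finset.mem_powerset.1 (Finset.mem_of_mem_erase hT) (Finset.mem_of_mem_erase hj)
      rw [ULf_vi hph hj']
      simp
    rw [hz, mul_zero]
  have e3 : ∑ T ∈ (range M).powerset.erase ∅, ((T.card : ℝ) - 1) * (wt p T * Co a p (range M) T F z ^ 2) =
      ∑ T ∈ (range M).powerset.erase ∅, ((T.card : ℝ) - 1) * Co a p (range M) T F z ^ 2 :=
    Finset.sum_congr rfl fun T hT => by rw [hwt T hT, one_mul]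
  rw [e1, e2, e3, zero_add] at hA
  obtain ⟨T1, hT1, hpos, hle⟩ := h3 ((range M).powerset.erase ∅)
    (fun T => Co a p (range M) T F z ^ 2) (fun T => 2 * Real.log (1 / QQ a p (range M) F z (ι T)))
    (10 * ∑ T ∈ (range M).powerset.erase ∅, ((T.card : ℝ) - 1) * Co a p (range M) T F z ^ 2)
    (fun T _ => sq_nonneg _) hV hA
  have hT1s : T1 ⊆ range M := Finset.mem_powerset.1 (Finset.mem_of_mem_erase hT1)
  have hiT : ι T1 ∈ T1 := hι T1 (Finset.ne_of_mem_erase hT1)
  have hiJ : ι T1 ∈ range M := hT1s hiT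
  have hQeq : QQ a p (range M) F z (ι T1) =
      ∑ T ∈ ((range M).erase (ι T1)).powerset, Co a p (range M) (insert (ι T1) T) F z ^ 2 := by
    unfold QQ
    refine Finset.sum_congr rfl fun T hT => ?_
    rw [ULf_wt hph ((Finset.mem_powerset.1 hT).trans (Finset.erase_subset _ _)), one_mul]
  have hQpos : 0 < QQ a p (range M) F z (ι T1) := by
    rw [hQeq]
    have hm : T1.erase (ι T1) ∈ ((range M).erase (ι T1)).powerset :=
      Finset.mem_powerset.2 (Finset.erase_subset_erase _ hT1s)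
    have h := Finset.single_le_sum (f := fun T => Co a p (range M) (insert (ι T1) T) F z ^ 2)
      (fun T _ => sq_nonneg _) hm
    rw [Finset.insert_erase hiT] at h
    exact lt_of_lt_of_le hpos h
  have hQle : QQ a p (range M) F z (ι T1) ≤ Co a p (range M) {ι T1} F z ^ 2 +
      ∑ T ∈ (range M).powerset.erase ∅, ((T.card : ℝ) - 1) * Co a p (range M) T F z ^ 2 := by
    rw [hQeq]
    exact ULf_split (fun T => Co a p (range M) T F z) (range M) (ι T1) hiJ
  have hx1 : Co a p (range M) {ι T1} F z ^ 2 ≤ 1 := by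
    have hm : ({ι T1} : Finset ℕ) ∈ (range M).powerset.erase ∅ :=
      Finset.mem_erase.2 ⟨Finset.singleton_ne_empty _,
        Finset.mem_powerset.2 (Finset.singleton_subset_iff.2 hiJ)⟩
    exact (Finset.single_le_sum (f := fun T => Co a p (range M) T F z ^ 2)
      (fun T _ => sq_nonneg _) hm).trans hV1
  obtain ⟨hx0, hfin⟩ := ULf_num hV hV1 hD0 hD hQpos hQle hx1 hle
  refine ⟨ι T1, hiJ, fun h => ?_, hfin⟩
  rw [h] at hx0
  norm_num at hx0

end Pool.Agent.MP3145b1.UM
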