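import Pool.Agent.Lib.MP_3145b1_co.UM.Spec2

/-!
# MP_3145b1_co, project UM: the plain min-entropy inequality implies the sharp one
-/

set_option autoImplicit false

namespace Pool.Agent.MP3145b1.UM

open Finset Pool.Agent.MP3145b1 Pool.Agent.MP3145b1.RC Pool.Agent.MP3145b1.RD Pool.Agent.MP3145b1.RT

private def ULv_P (N : ℕ) (i : ℕ) : Finset (Fin N) := if h : i < N then {⟨i, h⟩} else ∅

private noncomputable def ULv_u (N : ℕ) (i : ℕ) (x : Fin N → Bool) : ℝ :=
  if h : i < N then (if x ⟨i, h⟩ then -1 else 1) else 1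

private noncomputable def ULv_F {N : ℕ} (f : (Fin N → Bool) → ℝ) (y : ℝ) : ℝ :=
  f (fun j => decide (j.val ∈ ⌊y⌋₊.bitIndices.toFinset))

private theorem ULv_var (N : ℕ) (a : Fin N) :
    coeff (fun x : Fin N → Bool => if x a then (-1 : ℝ) else 1) {a} = 1 ∧
    coeff (fun x : Fin N → Bool => if x a then (-1 : ℝ) else 1) ∅ = 0 ∧
    influence (fun x : Fin N → Bool => if x a then (-1 : ℝ) else 1) = 1 := by
  set f : (Fin N → Bool) → ℝ := fun x => if x a then -1 else 1 with hf
  have hsg : ∀ x : Fin N → Bool, f x = sgn x {a} := by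
    intro x
    simp [hf, sgn]
  have h1 : coeff f {a} = 1 := by
    rw [Q.coeff_mean]
    have : (fun x : Fin N → Bool => f x * sgn x {a}) = fun _ => (1 : ℝ) := by
      funext x
      rw [hsg, ← pow_two, sgn_sq]
    rw [this, Q.mean_const]
  have hpar : ∑ S : Finset (Fin N), coeff f S ^ 2 = 1 := by
    rw [Q.parseval]
    have : (fun x : Fin N → Bool => f x ^ 2) = fun _ => (1 : ℝ) := by
      funext x
      rw [hsg, sgn_sq]
    rw [this, Q.mean_const]
  have h0 : ∀ S : Finset (Fin N), S ≠ {a} → coeff f S = 0 := by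
    intro S hS
    have h2 : coeff f S ^ 2 ≤ 0 := by
      have h3 : coeff f S ^ 2 + coeff f {a} ^ 2 ≤ ∑ S : Finset (Fin N), coeff f S ^ 2 := by
        rw [← Finset.sum_pair (f := fun S => coeff f S ^ 2) hS]
        exact Finset.sum_le_sum_of_subset_of_nonneg (Finset.subset_univ _)
          (fun _ _ _ => sq_nonneg _)
      rw [hpar, h1] at h3
      linarith
    exact pow_eq_zero_iff (two_ne_zero) |>.mp (le_antisymm h2 (sq_nonneg _))
  have h2 : influence f = 1 := by
    unfold influence
    rw [Finset.sum_eq_single ({a} : Finset (Fin N))]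
    · rw [h1]
      simp
    · intro S _ hS
      rw [h0 S hS]
      simp
    · intro h
      exact absurd (Finset.mem_univ _) h
  have h3 : coeff f ∅ = 0 := h0 ∅ (by
    intro h
    exact (Finset.singleton_ne_empty a) h.symm)
  exact ⟨h1, h3, h2⟩

private theorem ULv_ueq (N i : ℕ) (h : i < N) :
    ULv_u N i = fun x : Fin N → Bool => if x ⟨i, h⟩ then (-1 : ℝ) else 1 := by
  funext x
  unfold ULv_u
  rw [dif_pos h]

private theorem ULv_cp (N : ℕ) : Cp (ULv_P N) (ULv_u N) := by
  refine ⟨?_, ?_, ?_⟩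
  · intro i j hij
    unfold ULv_P
    by_cases hi : i < N
    · by_cases hj : j < N
      · rw [dif_pos hi, dif_pos hj, Finset.disjoint_singleton]
        intro h
        exact hij (Fin.mk.inj h)
      · rw [dif_neg hj]
        exact Finset.disjoint_empty_right _
    · rw [dif_neg hi]
      exact Finset.disjoint_empty_left _
  · intro i x y hxy
    unfold ULv_u
    by_cases hi : i < N
    · rw [dif_pos hi, dif_pos hi]
      have h := hxy ⟨i, hi⟩ (by
        unfold ULv_P
        rw [dif_pos hi]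
        exact Finset.mem_singleton_self _)
      rw [h]
    · rw [dif_neg hi, dif_neg hi]
  · intro i x
    unfold ULv_u
    by_cases hi : i < N
    · rw [dif_pos hi]
      split_ifs
      · exact Or.inr rfl
      · exact Or.inl rfl
    · rw [dif_neg hi]
      exact Or.inl rfl

private theorem ULv_pb (N i : ℕ) (h : i < N) : pb (ULv_u N) i = 1 / 2 := by
  unfold pb
  rw [ULv_ueq N i h, (ULv_var N ⟨i, h⟩).2.1]
  norm_num

private theorem ULv_sum {N : ℕ} (f : (Fin N → Bool) → ℝ) (x : Fin N → Bool) :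
    ULv_F f (0 + ∑ i ∈ range N, (if ULv_u N i x = -1 then (fun i : ℕ => (2 : ℝ) ^ i) i else 0)) =
      f x := by
  rw [← Finset.sum_filter]
  have e : (0 : ℝ) + ∑ i ∈ (range N).filter (fun i => ULv_u N i x = -1),
      (fun i : ℕ => (2 : ℝ) ^ i) i =
      ((∑ i ∈ (range N).filter (fun i => ULv_u N i x = -1), 2 ^ i : ℕ) : ℝ) := by
    push_cast
    rw [zero_add]
  rw [ULv_F, e, Nat.floor_natCast, Finset.toFinset_bitIndices_sum_two_pow]
  congr 1
  funext j
  have h1 : (j.val ∈ (range N).filter (fun i => ULv_u N i x = -1)) ↔ x j = true := by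
    rw [Finset.mem_filter, Finset.mem_range, ULv_ueq N j.val j.isLt]
    constructor
    · rintro ⟨-, h⟩
      by_contra h'
      simp only [Fin.eta] at h
      rw [if_neg h'] at h
      norm_num at h
    · intro h
      refine ⟨j.isLt, ?_⟩
      simp only [Fin.eta]
      rw [if_pos h]
  by_cases hx : x j = true
  · rw [hx]
    exact decide_eq_true (h1.2 hx)
  · rw [Bool.not_eq_true] at hx
    rw [hx]
    refine decide_eq_false fun h => ?_
    rw [h1.1 h] at hx
    exact absurd hx (by decide)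

/-- The plain min-entropy inequality implies the sharp one. -/
theorem rULv (h1 : S_Vsm) (h2 : S_TCfo) (h3 : S_TFml) (h4 : S_UPv) (h5 : S_ULf) : S_ULv := by
  intro K C0 N f hC0 hK hKC hv hPm hV
  have hCp := ULv_cp N
  have hco : ∀ S, coeff f S = Lp (ULv_P N) N (fun i R => coeff (ULv_u N i) R) S *
      (fun T => Co (fun i : ℕ => (2 : ℝ) ^ i) (pb (ULv_u N)) (range N) T (ULv_F f) 0)
        (TT (ULv_P N) N S) := by
    intro S
    have h := h2 N N (fun i : ℕ => (2 : ℝ) ^ i) (ULv_F f) (ULv_P N) (ULv_u N) hCp 0 S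
    have hf : (fun x : Fin N → Bool => ULv_F f (0 + ∑ i ∈ range N,
        (if ULv_u N i x = -1 then (fun i : ℕ => (2 : ℝ) ^ i) i else 0))) = f := by
      funext x
      exact ULv_sum f x
    rw [hf] at h
    exact h
  set c : Finset ℕ → ℝ := fun T =>
    Co (fun i : ℕ => (2 : ℝ) ^ i) (pb (ULv_u N)) (range N) T (ULv_F f) 0 with hc
  have hpar := h4 N N (ULv_P N) (ULv_u N) f c hCp hco hv
  obtain ⟨-, hI, hJ, h0⟩ := h3 N N (ULv_P N) (ULv_u N) f c hCp hco
  have hwt : ∀ T ∈ (range N).powerset, wt (pb (ULv_u N)) T = 1 := by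
    intro T hT
    unfold wt
    refine Finset.prod_eq_one fun i hi => ?_
    rw [ULv_pb N i (Finset.mem_range.1 (Finset.mem_powerset.1 hT hi))]
    norm_num
  have hI2 : influence f = ∑ T ∈ (range N).powerset, (T.card : ℝ) * c T ^ 2 := by
    have e1 : ∑ T ∈ (range N).powerset, (T.card : ℝ) * (wt (pb (ULv_u N)) T * c T ^ 2) =
        ∑ T ∈ (range N).powerset, (T.card : ℝ) * c T ^ 2 :=
      Finset.sum_congr rfl fun T hT => by rw [hwt T hT, one_mul]
    rw [← e1, hJ, hI]
    refine Finset.sum_congr rfl fun i hi => ?_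
    have hi' := Finset.mem_range.1 hi
    rw [ULv_pb N i hi', ULv_ueq N i hi', (ULv_var N ⟨i, hi'⟩).2.2]
    norm_num
  have hpar2 : ∑ T ∈ (range N).powerset, c T ^ 2 = 1 := by
    rw [← hpar]
    exact Finset.sum_congr rfl fun T hT => by rw [hwt T hT, one_mul]
  have hem : (∅ : Finset ℕ) ∈ (range N).powerset := Finset.empty_mem_powerset _
  have hV2 : ∑ T ∈ (range N).powerset.erase ∅, c T ^ 2 = 1 - coeff f ∅ ^ 2 := by
    have h := Finset.add_sum_erase (range N).powerset (fun T => c T ^ 2) hem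
    rw [h0]
    linarith
  have hD2 : ∑ T ∈ (range N).powerset.erase ∅, ((T.card : ℝ) - 1) * c T ^ 2 =
      influence f - (1 - coeff f ∅ ^ 2) := by
    have h := Finset.add_sum_erase (range N).powerset (fun T => (T.card : ℝ) * c T ^ 2) hem
    rw [Finset.card_empty, Nat.cast_zero, zero_mul, zero_add, ← hI2] at h
    rw [← hV2, ← h, ← Finset.sum_sub_distrib]
    exact Finset.sum_congr rfl fun T _ => by ring
  have hD0 : 0 ≤ influence f - (1 - coeff f ∅ ^ 2) := by
    rw [← hD2]
    refine Finset.sum_nonneg fun T hT => mul_nonneg ?_ (sq_nonneg _)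
    have h : 1 ≤ T.card := Finset.card_pos.2 (Finset.nonempty_iff_ne_empty.2 (Finset.mem_erase.1 hT).1)
    have h' : (1 : ℝ) ≤ T.card := by exact_mod_cast h
    linarith
  rcases le_total ((1 - coeff f ∅ ^ 2) / 12) (influence f - (1 - coeff f ∅ ^ 2)) with hc1 | hc1
  · obtain ⟨S, hS, hS0, h⟩ := hPm hV
    refine ⟨S, hS, hS0, le_trans h ?_⟩
    have h6 : C0 * influence f ≤ 13 * C0 * (influence f - (1 - coeff f ∅ ^ 2)) := by
      nlinarith
    refine le_trans h6 (mul_le_mul_of_nonneg_right hKC hD0)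
  · have hV' : 0 < ∑ T ∈ (range N).powerset.erase ∅, c T ^ 2 := by rw [hV2]; exact hV
    have hD' : ∑ T ∈ (range N).powerset.erase ∅, ((T.card : ℝ) - 1) * c T ^ 2 ≤
        (∑ T ∈ (range N).powerset.erase ∅, c T ^ 2) / 12 := by
      rw [hV2, hD2]; exact hc1
    obtain ⟨i, hi, hne, hle⟩ := h5 (fun i : ℕ => (2 : ℝ) ^ i) (pb (ULv_u N)) N (ULv_F f) 0
      (fun j => (h1 N (ULv_P N) (ULv_u N) hCp j).1) (fun j hj => ULv_pb N j hj) (fun y => hv _)
      hV' hD'
    have hi' := Finset.mem_range.1 hi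
    have hle2 : (1 - coeff f ∅ ^ 2) * Real.log (1 / c {i} ^ 2) ≤
        12 * (influence f - (1 - coeff f ∅ ^ 2)) := by
      rw [← hD2, ← hV2]
      exact hle
    have hTT : TT (ULv_P N) N {⟨i, hi'⟩} = {i} := by
      unfold TT
      ext j
      rw [Finset.mem_filter, Finset.mem_range, Finset.mem_singleton]
      constructor
      · rintro ⟨hj, hne'⟩
        unfold ULv_P at hne'
        rw [dif_pos hj] at hne'
        obtain ⟨y, hy⟩ := hne'
        rw [Finset.mem_inter, Finset.mem_singleton, Finset.mem_singleton] at hy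
        have := hy.1.symm.trans hy.2
        exact (Fin.mk.inj this).symm
      · rintro rfl
        refine ⟨hi', ?_⟩
        unfold ULv_P
        rw [dif_pos hi', Finset.inter_self]
        exact Finset.singleton_nonempty _
    have hPi : ULv_P N i = {⟨i, hi'⟩} := by
      unfold ULv_P
      rw [dif_pos hi']
    have hLp : Lp (ULv_P N) N (fun i R => coeff (ULv_u N i) R) {⟨i, hi'⟩} = 1 := by
      unfold Lp
      have hsub : ({⟨i, hi'⟩} : Finset (Fin N)) ⊆ (range N).biUnion (ULv_P N) := by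
        rw [Finset.singleton_subset_iff, Finset.mem_biUnion]
        refine ⟨i, hi, ?_⟩
        rw [hPi]
        exact Finset.mem_singleton_self _
      rw [if_pos hsub, hTT, Finset.prod_singleton, hPi, Finset.inter_self]
      show coeff (ULv_u N i) {⟨i, hi'⟩} = 1
      rw [ULv_ueq N i hi']
      exact (ULv_var N ⟨i, hi'⟩).1
    have hcf : coeff f {⟨i, hi'⟩} = c {i} := by
      rw [hco, hLp, one_mul, hTT]
    refine ⟨{⟨i, hi'⟩}, Finset.singleton_ne_empty _, ?_, ?_⟩
    · rw [hcf]
      exact hne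
    · rw [hcf]
      exact le_trans hle2 (mul_le_mul_of_nonneg_right hK hD0)

end Pool.Agent.MP3145b1.UM
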