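import Pool.Agent.Lib.MP_3145b1_co.UM.Spec2

set_option autoImplicit false

namespace Pool.Agent.MP3145b1.UM

open Finset Pool.Agent.MP3145b1 Pool.Agent.MP3145b1.RC Pool.Agent.MP3145b1.RD Pool.Agent.MP3145b1.RT

private theorem USe_sum {N : ℕ} (f : (Fin N → Bool) → ℝ) (hf : ∀ x, f x = 1 ∨ f x = -1) :
    ∑ T : Finset (Fin N), coeff f T ^ 2 = 1 := by
  rw [Q.parseval, funext (fun x => (by rcases hf x with h | h <;> rw [h] <;> norm_num :
    f x ^ 2 = (1 : ℝ)))]
  exact Q.mean_const 1

private theorem USe_le {N : ℕ} (f : (Fin N → Bool) → ℝ) (hf : ∀ x, f x = 1 ∨ f x = -1)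
    (S : Finset (Fin N)) : coeff f S ^ 2 ≤ 1 := by
  rw [← USe_sum f hf]
  exact Finset.single_le_sum (f := fun T => coeff f T ^ 2) (fun T _ => sq_nonneg _) (mem_univ S)

private theorem USe_log {c : ℝ} (h0 : 0 < c ^ 2) (h1 : c ^ 2 ≤ 1) :
    0 ≤ Real.log (1 / c ^ 2) ∧ Real.log (1 / c ^ 2) ≤ Real.logb 2 (1 / c ^ 2) := by
  have h2 : 1 ≤ 1 / c ^ 2 := by
    rw [le_div_iff₀ h0]
    linarith
  have h3 := Real.log_nonneg h2
  have h4 : 0 < Real.log 2 := Real.log_pos one_lt_two
  have h5 : Real.log 2 ≤ 1 := by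
    have := Real.log_two_lt_d9
    linarith
  refine ⟨h3, ?_⟩
  rw [Real.logb, le_div_iff₀ h4]
  nlinarith

/-- **USe** (the entropy inequality implies the plain min-entropy inequality) -/
theorem rUSe : S_USe := by
  intro C0 N f hf hE hV
  have hterm : ∀ S : Finset (Fin N), 0 ≤ coeff f S ^ 2 * Real.logb 2 (1 / coeff f S ^ 2) := by
    intro S
    rcases eq_or_lt_of_le (sq_nonneg (coeff f S)) with h | h
    · rw [← h]
      simp
    · have := USe_log h (USe_le f hf S)
      exact mul_nonneg h.le (this.1.trans this.2)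
  have hVs : ∑ S ∈ (univ : Finset (Finset (Fin N))).erase ∅, coeff f S ^ 2 = 1 - coeff f ∅ ^ 2 := by
    have h := Finset.add_sum_erase (univ : Finset (Finset (Fin N))) (fun S => coeff f S ^ 2) (mem_univ ∅)
    have h2 := USe_sum f hf
    linarith
  have hEs : ∑ S ∈ (univ : Finset (Finset (Fin N))).erase ∅,
      coeff f S ^ 2 * Real.logb 2 (1 / coeff f S ^ 2) ≤ C0 * influence f := by
    refine le_trans ?_ hE
    unfold specEntropy
    exact Finset.sum_le_sum_of_subset_of_nonneg (Finset.erase_subset _ _) fun S _ _ => hterm S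
  by_contra hcon
  push Not at hcon
  have hlt : ∑ S ∈ (univ : Finset (Finset (Fin N))).erase ∅, coeff f S ^ 2 * (C0 * influence f) <
      ∑ S ∈ (univ : Finset (Finset (Fin N))).erase ∅,
        (1 - coeff f ∅ ^ 2) * (coeff f S ^ 2 * Real.logb 2 (1 / coeff f S ^ 2)) := by
    have hpt : ∀ S ∈ (univ : Finset (Finset (Fin N))).erase ∅, coeff f S ≠ 0 →
        coeff f S ^ 2 * (C0 * influence f) <
          (1 - coeff f ∅ ^ 2) * (coeff f S ^ 2 * Real.logb 2 (1 / coeff f S ^ 2)) := by
      intro S hS hc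
      have hc2 : 0 < coeff f S ^ 2 := by positivity
      have h1 := hcon S (Finset.nonempty_iff_ne_empty.2 (Finset.ne_of_mem_erase hS)) hc
      have h2 := (USe_log hc2 (USe_le f hf S)).2
      have h3 := mul_le_mul_of_nonneg_left h2 hV.le
      have h4 := mul_lt_mul_of_pos_left (lt_of_lt_of_le h1 h3) hc2
      linarith
    refine Finset.sum_lt_sum ?_ ?_
    · intro S hS
      by_cases hc : coeff f S = 0
      · rw [hc]
        simp
      · exact (hpt S hS hc).le
    · by_contra hno
      push Not at hno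
      have hz : ∑ S ∈ (univ : Finset (Finset (Fin N))).erase ∅, coeff f S ^ 2 = 0 := by
        refine Finset.sum_eq_zero fun S hS => ?_
        by_contra hc
        have hc' : coeff f S ≠ 0 := fun h => hc (by rw [h]; norm_num)
        exact absurd (hno S hS) (not_le.2 (hpt S hS hc'))
      linarith
  rw [← Finset.sum_mul, ← Finset.mul_sum, hVs] at hlt
  have := mul_le_mul_of_nonneg_left hEs hV.le
  linarith

end Pool.Agent.MP3145b1.UM
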