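import Pool.Agent.Lib.MP_3145b1_co.UM.Asm
import Pool.Agent.Lib.MP_3145b1_co.UM.ULf
import Pool.Agent.Lib.MP_3145b1_co.UM.ULv
import Pool.Agent.Lib.MP_3145b1_co.UM.USe
import Pool.Agent.Lib.MP_3145b1_co.UM.UC2
import Pool.Agent.Lib.MP_3145b1_co.UM.UF2

/-!
# MP_3145b1_co, project UM, part 2: assembly
-/

set_option autoImplicit false

namespace Pool.Agent.MP3145b1.UM

open Finset Pool.Agent.MP3145b1 Pool.Agent.MP3145b1.RC Pool.Agent.MP3145b1.RD Pool.Agent.MP3145b1.RT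

theorem uLf : S_ULf := rULf rTPar uLg rUAv

theorem uLv : S_ULv := rULv aVsm tCfo tFml uPv uLf

theorem uC2 : S_UC2 := rUC2 uTh uSy uUa uPr uLv

/-- the composition theorem for the min-entropy-influence inequality -/
theorem fin2 : ∃ C : ℝ, 0 < C ∧ ∀ w : ℕ, 1 ≤ w → ∀ C0 : ℝ, 0 ≤ C0 → ∀ (N : ℕ) (f : (Fin N → Bool) → ℝ),
    UL w C0 f →
    (0 < 1 - coeff f ∅ ^ 2 → ∃ S : Finset (Fin N), S ≠ ∅ ∧ coeff f S ≠ 0 ∧
      (1 - coeff f ∅ ^ 2) * Real.log (1 / coeff f S ^ 2) ≤ C * (w + C0) * (influence f - (1 - coeff f ∅ ^ 2))) ∧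
    ∃ S : Finset (Fin N), Real.exp (-(C * (w + C0) * influence f)) ≤ |coeff f S| :=
  rUF2 gVar gPg uC2 rUMn

end Pool.Agent.MP3145b1.UM
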