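import Pool.Agent.Lib.MP_3145b1_co.RT.Spec

/-!
# MP_3145b1_co, project UM (unate gates): definitions and basic lemmas

The bits `i : ℕ` are independent, the bit `i` is `false` with probability `p i`, `U` is the set of the
true bits; `ps p i U` is the value of the bit (`1` if false, `-1` if true) minus its mean, `EU p J G` is the
expectation of `G U` over the sets `U ⊆ J`, `Py p J c` is the function with the coefficients `c`.
`Av`, `Df`, `Co`, `hA` are defined in RT/Def.lean; `Av a p J F z = EU p J (fun U => F (z + ∑ i ∈ U, a i))`.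
-/

set_option autoImplicit false

namespace Pool.Agent.MP3145b1.UM

open Finset Pool.Agent.MP3145b1 Pool.Agent.MP3145b1.RC Pool.Agent.MP3145b1.RD Pool.Agent.MP3145b1.RT

/-- value of the bit `i` minus its mean, if `U` is the set of the true bits -/
noncomputable def ps (p : ℕ → ℝ) (i : ℕ) (U : Finset ℕ) : ℝ := if i ∈ U then -(2 * p i) else 2 * (1 - p i)

/-- the function with the coefficients `c` -/
noncomputable def Py (p : ℕ → ℝ) (J : Finset ℕ) (c : Finset ℕ → ℝ) (U : Finset ℕ) : ℝ :=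
  ∑ T ∈ J.powerset, c T * ∏ j ∈ T, ps p j U

/-- expectation over the set of the true bits in `J` -/
noncomputable def EU (p : ℕ → ℝ) (J : Finset ℕ) (G : Finset ℕ → ℝ) : ℝ :=
  ∑ U ∈ J.powerset, (∏ i ∈ U, (1 - p i)) * (∏ i ∈ J \ U, p i) * G U

/-- the variance of the bit `i` -/
noncomputable def vi (p : ℕ → ℝ) (i : ℕ) : ℝ := 4 * (p i * (1 - p i))

/-- the noise factor of the bit `i` -/
noncomputable def rr (p : ℕ → ℝ) (i : ℕ) : ℝ := Real.sqrt (vi p i) / 4

/-- the probability that the bit `i` is pivotal -/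
noncomputable def QQ (a p : ℕ → ℝ) (J : Finset ℕ) (F : ℝ → ℝ) (z : ℝ) (i : ℕ) : ℝ :=
  ∑ T ∈ (J.erase i).powerset, wt p T * Co a p J (insert i T) F z ^ 2

theorem Av_eq_EU (a p : ℕ → ℝ) (J : Finset ℕ) (F : ℝ → ℝ) (z : ℝ) :
    Av a p J F z = EU p J (fun U => F (z + ∑ i ∈ U, a i)) := rfl

theorem vi_nonneg {p : ℕ → ℝ} (hp : ∀ i, 0 ≤ p i ∧ p i ≤ 1) (i : ℕ) : 0 ≤ vi p i := by
  unfold vi
  nlinarith [mul_nonneg (hp i).1 (sub_nonneg.2 (hp i).2)]

theorem vi_le (p : ℕ → ℝ) (i : ℕ) : vi p i ≤ 1 := by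
  unfold vi
  nlinarith [sq_nonneg (2 * p i - 1)]

theorem wt_eq (p : ℕ → ℝ) (T : Finset ℕ) : wt p T = ∏ i ∈ T, vi p i := rfl

theorem rr_nonneg (p : ℕ → ℝ) (i : ℕ) : 0 ≤ rr p i := by
  unfold rr
  positivity

theorem EU_empty (p : ℕ → ℝ) (G : Finset ℕ → ℝ) : EU p ∅ G = G ∅ := by
  simp [EU]

theorem EU_insert (p : ℕ → ℝ) (J : Finset ℕ) (i : ℕ) (hi : i ∉ J) (G : Finset ℕ → ℝ) :
    EU p (insert i J) G = p i * EU p J G + (1 - p i) * EU p J (fun U => G (insert i U)) := by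
  unfold EU
  rw [Finset.sum_powerset_insert hi, Finset.mul_sum, Finset.mul_sum]
  congr 1
  · refine Finset.sum_congr rfl fun S hS => ?_
    have hS' : S ⊆ J := Finset.mem_powerset.1 hS
    have hiS : i ∉ S := fun h => hi (hS' h)
    rw [Finset.insert_sdiff_of_notMem _ hiS, Finset.prod_insert (fun h => hi (Finset.mem_sdiff.1 h).1)]
    ring
  · refine Finset.sum_congr rfl fun S hS => ?_
    have hS' : S ⊆ J := Finset.mem_powerset.1 hS
    have hiS : i ∉ S := fun h => hi (hS' h)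
    have e : insert i J \ insert i S = J \ S := by
      ext j
      simp only [Finset.mem_sdiff, Finset.mem_insert]
      constructor
      · rintro ⟨h1 | h1, h2⟩
        · exact absurd (Or.inl h1) h2
        · exact ⟨h1, fun h => h2 (Or.inr h)⟩
      · rintro ⟨h1, h2⟩
        refine ⟨Or.inr h1, ?_⟩
        rintro (h | h)
        · exact hi (h ▸ h1)
        · exact h2 h
    rw [Finset.prod_insert hiS, e]
    ring

theorem EU_add (p : ℕ → ℝ) (J : Finset ℕ) (G H : Finset ℕ → ℝ) :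
    EU p J (fun U => G U + H U) = EU p J G + EU p J H := by
  unfold EU
  rw [← Finset.sum_add_distrib]
  exact Finset.sum_congr rfl fun S _ => by ring

theorem EU_mul (p : ℕ → ℝ) (J : Finset ℕ) (c : ℝ) (G : Finset ℕ → ℝ) :
    EU p J (fun U => c * G U) = c * EU p J G := by
  unfold EU
  rw [Finset.mul_sum]
  exact Finset.sum_congr rfl fun S _ => by ring

theorem EU_mono {p : ℕ → ℝ} (hp : ∀ i, 0 ≤ p i ∧ p i ≤ 1) (J : Finset ℕ) {G H : Finset ℕ → ℝ}
    (h : ∀ U, U ⊆ J → G U ≤ H U) : EU p J G ≤ EU p J H := by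
  unfold EU
  refine Finset.sum_le_sum fun S hS =>
    mul_le_mul_of_nonneg_left (h S (Finset.mem_powerset.1 hS)) (mul_nonneg ?_ ?_)
  · exact Finset.prod_nonneg fun i _ => by linarith [(hp i).2]
  · exact Finset.prod_nonneg fun i _ => (hp i).1

theorem EU_congr (p : ℕ → ℝ) (J : Finset ℕ) {G H : Finset ℕ → ℝ} (h : ∀ U, U ⊆ J → G U = H U) :
    EU p J G = EU p J H := by
  unfold EU
  exact Finset.sum_congr rfl fun S hS => by rw [h S (Finset.mem_powerset.1 hS)]

theorem EU_nonneg {p : ℕ → ℝ} (hp : ∀ i, 0 ≤ p i ∧ p i ≤ 1) (J : Finset ℕ) {G : Finset ℕ → ℝ}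
    (h : ∀ U, U ⊆ J → 0 ≤ G U) : 0 ≤ EU p J G := by
  unfold EU
  refine Finset.sum_nonneg fun S hS => mul_nonneg (mul_nonneg ?_ ?_) (h S (Finset.mem_powerset.1 hS))
  · exact Finset.prod_nonneg fun i _ => by linarith [(hp i).2]
  · exact Finset.prod_nonneg fun i _ => (hp i).1

/-- Cauchy-Schwarz inequality -/
theorem EU_cs {p : ℕ → ℝ} (hp : ∀ i, 0 ≤ p i ∧ p i ≤ 1) (J : Finset ℕ) (G H : Finset ℕ → ℝ) :
    EU p J (fun U => G U * H U) ^ 2 ≤ EU p J (fun U => G U ^ 2) * EU p J (fun U => H U ^ 2) := by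
  have h0 : ∀ U ∈ J.powerset, 0 ≤ (∏ i ∈ U, (1 - p i)) * (∏ i ∈ J \ U, p i) := fun U _ =>
    mul_nonneg (Finset.prod_nonneg fun i _ => by linarith [(hp i).2]) (Finset.prod_nonneg fun i _ => (hp i).1)
  unfold EU
  have h := Finset.sum_mul_sq_le_sq_mul_sq J.powerset
    (fun U => Real.sqrt ((∏ i ∈ U, (1 - p i)) * (∏ i ∈ J \ U, p i)) * G U)
    (fun U => Real.sqrt ((∏ i ∈ U, (1 - p i)) * (∏ i ∈ J \ U, p i)) * H U)
  have e1 : ∑ U ∈ J.powerset, (∏ i ∈ U, (1 - p i)) * (∏ i ∈ J \ U, p i) * (G U * H U) =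
      ∑ U ∈ J.powerset, Real.sqrt ((∏ i ∈ U, (1 - p i)) * (∏ i ∈ J \ U, p i)) * G U *
        (Real.sqrt ((∏ i ∈ U, (1 - p i)) * (∏ i ∈ J \ U, p i)) * H U) := by
    refine Finset.sum_congr rfl fun U hU => ?_
    have := Real.mul_self_sqrt (h0 U hU)
    linear_combination (-(G U * H U)) * this
  have e2 : ∑ U ∈ J.powerset, (∏ i ∈ U, (1 - p i)) * (∏ i ∈ J \ U, p i) * G U ^ 2 =
      ∑ U ∈ J.powerset, (Real.sqrt ((∏ i ∈ U, (1 - p i)) * (∏ i ∈ J \ U, p i)) * G U) ^ 2 := by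
    refine Finset.sum_congr rfl fun U hU => ?_
    have := Real.mul_self_sqrt (h0 U hU)
    linear_combination (-(G U ^ 2)) * this
  have e3 : ∑ U ∈ J.powerset, (∏ i ∈ U, (1 - p i)) * (∏ i ∈ J \ U, p i) * H U ^ 2 =
      ∑ U ∈ J.powerset, (Real.sqrt ((∏ i ∈ U, (1 - p i)) * (∏ i ∈ J \ U, p i)) * H U) ^ 2 := by
    refine Finset.sum_congr rfl fun U hU => ?_
    have := Real.mul_self_sqrt (h0 U hU)
    linear_combination (-(H U ^ 2)) * this
  rw [e1, e2, e3]
  exact h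

theorem ps_insert (p : ℕ → ℝ) (i j : ℕ) (U : Finset ℕ) (h : j ≠ i) : ps p j (insert i U) = ps p j U := by
  unfold ps
  simp [Finset.mem_insert, h]

/-- the variable `i` is false -/
theorem Py_insert1 (p : ℕ → ℝ) (J : Finset ℕ) (i : ℕ) (hi : i ∉ J) (c : Finset ℕ → ℝ) (U : Finset ℕ)
    (hU : i ∉ U) : Py p (insert i J) c U = Py p J c U + 2 * (1 - p i) * Py p J (fun T => c (insert i T)) U := by
  unfold Py
  rw [Finset.sum_powerset_insert hi, Finset.mul_sum]
  congr 1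
  refine Finset.sum_congr rfl fun T hT => ?_
  have hiT : i ∉ T := fun h => hi (Finset.mem_powerset.1 hT h)
  have e : ps p i U = 2 * (1 - p i) := by simp [ps, hU]
  rw [Finset.prod_insert hiT, e]
  ring

/-- the variable `i` is true -/
theorem Py_insert2 (p : ℕ → ℝ) (J : Finset ℕ) (i : ℕ) (hi : i ∉ J) (c : Finset ℕ → ℝ) (U : Finset ℕ) :
    Py p (insert i J) c (insert i U) = Py p J c U - 2 * p i * Py p J (fun T => c (insert i T)) U := by
  unfold Py
  rw [Finset.sum_powerset_insert hi, Finset.mul_sum, sub_eq_add_neg, ← Finset.sum_neg_distrib]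
  congr 1
  · refine Finset.sum_congr rfl fun T hT => ?_
    have hiT : i ∉ T := fun h => hi (Finset.mem_powerset.1 hT h)
    congr 1
    exact Finset.prod_congr rfl fun j hj => ps_insert p i j U (fun h => hiT (h ▸ hj))
  · refine Finset.sum_congr rfl fun T hT => ?_
    have hiT : i ∉ T := fun h => hi (Finset.mem_powerset.1 hT h)
    have e : ps p i (insert i U) = -(2 * p i) := by simp [ps]
    rw [Finset.prod_insert hiT, e,
      Finset.prod_congr rfl fun j hj => ps_insert p i j U (fun h => hiT (h ▸ hj))]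
    ring

end Pool.Agent.MP3145b1.UM
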