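import Pool.Agent.Lib.MP_3145b1_co.UM.Def

/-!
# MP_3145b1_co, project UM (architect helper45): FMEI for read-once compositions with arbitrary UNATE gates

THEOREM. There is an absolute constant `C` such that for all `w ≥ 1` and all `f` in `UG w` (read-once compositions of ARBITRARY
UNATE functions of any number of inputs, arbitrary symmetric functions, interval / threshold gates and read-once branching programs
of width `w`): some Fourier coefficient has absolute value at least `exp (- C w I(f))` (Q1), and in the sharp form: if `Var f > 0` there is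
`S ≠ ∅` with `Var f * log (1 / f^(S)^2) ≤ C w (I(f) - Var f)`.

RULES. Module X: file Pool/Agent/Lib/MP_3145b1_co/UM/X.lean, `import Pool.Agent.Lib.MP_3145b1_co.UM.Spec`,
`set_option autoImplicit false`, `namespace Pool.Agent.MP3145b1.UM`,
`open Finset Pool.Agent.MP3145b1 Pool.Agent.MP3145b1.RC Pool.Agent.MP3145b1.RD Pool.Agent.MP3145b1.RT`, final theorem
`theorem rX (h1 : S_A) ... : S_X` (the statements under Uses, in this order, are the hypotheses; `S_T..` are in RT/Spec.lean, the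
others without U in RC/SpecF.lean, RD/Spec.lean). Auxiliary lemmas private, names X_. READ FIRST: UM/Def.lean (ps, Py, EU, vi, rr, QQ; EU_insert,
EU_cs, Py_insert1, Py_insert2, ..), RT/Def.lean (Av, Co, hA and the lemmas), `wt p T = ∏ i ∈ T, vi p i` (wt_eq), `wt_insert`, `wt_nonneg` in RC/Def.lean.
-/

set_option autoImplicit false

namespace Pool.Agent.MP3145b1.UM

open Finset Pool.Agent.MP3145b1 Pool.Agent.MP3145b1.RC Pool.Agent.MP3145b1.RD Pool.Agent.MP3145b1.RT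

/-! ## Part 1: hypercontractivity for biased bits -/

/-- **UTwo** (two-point inequality). Uses: nothing.
Proof. `V = 4 p (1-p) ≤ 1`. The left side is `A^4 + 6 A^2 r^2 B^2 V + 8 A r^3 B^3 V (1 - 2p) + r^4 B^4 V (4 - 3V)` (ring identity), `r^4 = V/16`, `r^2 ≤ 1/4`. `6 A^2 r^2 B^2 V ≤ (3/2) A^2 B^2 V`; `|1 - 2p| ≤ 1`, `8 |A| |B|^3 r^3 V ≤ (1/2) A^2 B^2 V + 32 B^4 r^6 V` (AM-GM),
`32 r^6 V = 32 r^2 (V/16) V ≤ V^2/2`; `r^4 V (4 - 3V) B^4 ≤ V^2 B^4/4`. Sum `≤ A^4 + 2 A^2 B^2 V + (3/4) V^2 B^4`. -/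
def S_UTwo : Prop := ∀ (p A B r : ℝ), 0 ≤ p → p ≤ 1 → 0 ≤ r → r ^ 4 = 4 * (p * (1 - p)) / 16 →
  p * (A + 2 * (1 - p) * (r * B)) ^ 4 + (1 - p) * (A - 2 * p * (r * B)) ^ 4 ≤ (A ^ 2 + 4 * (p * (1 - p)) * B ^ 2) ^ 2

/-- **UHc** ((2,4)-hypercontractivity). Uses: S_UTwo.
Proof. Finset.induction_on `J`, for all `c`. `J = ∅`: both sides `c ∅ ^4`. `insert i J`: `A U = Py p J (fun T => (∏ ρ) * c T) U`, `B U = Py p J (fun T => (∏ ρ) * c (insert i T)) U`. EU_insert, Py_insert1 (`i ∉ U`), Py_insert2; for `T ⊆ J`: `∏ j ∈ insert i T, ρ j = ρ i * ∏ j ∈ T, ρ j`; so the left side is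
`EU J (p_i (A + 2 (1-p_i) (ρ_i B))^4 + (1-p_i) (A - 2 p_i (ρ_i B))^4) ≤ EU J ((A^2 + V B^2)^2) = E A^4 + 2 V E (A^2 B^2) + V^2 E B^4` (S_UTwo, `V = vi p i`), `E A^4 ≤ X^2`, `E B^4 ≤ Y^2` (induction, `X = ∑ wt c_T^2`, `Y = ∑ wt c(insert i T)^2`, both `≥ 0`), `(E A^2 B^2)^2 ≤ E A^4 E B^4 ≤ (X Y)^2` (EU_cs with `A^2`, `B^2`).
So the left side is `≤ (X + V Y)^2`, and `X + V Y` is the sum for `insert i J` (Finset.sum_powerset_insert, wt_insert). -/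
def S_UHc : Prop := ∀ (p ρ : ℕ → ℝ), (∀ i, 0 ≤ p i ∧ p i ≤ 1) → (∀ i, 0 ≤ ρ i ∧ ρ i ^ 4 = vi p i / 16) →
  ∀ (J : Finset ℕ) (c : Finset ℕ → ℝ),
  EU p J (fun U => Py p J (fun T => (∏ j ∈ T, ρ j) * c T) U ^ 4) ≤ (∑ T ∈ J.powerset, wt p T * c T ^ 2) ^ 2

/-- **UPl** (orthogonality). Uses: nothing.
Proof. Finset.induction_on `J`, for all `c, d` (EU_insert, Py_insert1, Py_insert2, Finset.sum_powerset_insert, wt_insert): with `A, A'` = Py of `c, d` and `B, B'` = Py of `c (insert i ·)`, `d (insert i ·)`: `p (A + 2(1-p) B)(A' + 2(1-p) B') + (1-p)(A - 2p B)(A' - 2p B') = A A' + 4p(1-p) B B'`. -/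
def S_UPl : Prop := ∀ (p : ℕ → ℝ) (J : Finset ℕ) (c d : Finset ℕ → ℝ),
  EU p J (fun U => Py p J c U * Py p J d U) = ∑ T ∈ J.powerset, wt p T * (c T * d T)

/-- **URp** (expansion of a function of the sum). Uses: nothing.
Proof. Finset.induction_on `J`, for all `z, U`. `insert i J`: `Co_insert_not`, `Co_insert_mem`, Py linear in `c` (unfold, Finset.mul_sum). `i ∉ U`: Py_insert1: `(p X(z) + (1-p) X(z+a)) + 2 (1-p) (X(z) - X(z+a))/2 = X(z)` with `X(z) = Py p J (Co J · F z) U = F (z + ∑ U)`. `i ∈ U`: `U = insert i U'`, `U' = U.erase i ⊆ J`, Py_insert2: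
`(p X(z) + (1-p) X(z+a)) - 2 p (X(z) - X(z+a))/2 = X(z+a)` for `U'`. -/
def S_URp : Prop := ∀ (a p : ℕ → ℝ) (J : Finset ℕ) (F : ℝ → ℝ) (z : ℝ) (U : Finset ℕ), U ⊆ J →
  Py p J (fun T => Co a p J T F z) U = F (z + ∑ i ∈ U, a i)

/-- **UHm** (dual form for functions with values `0`, `1`, `-1`). Uses: S_UHc, S_UPl, S_URp.
Proof. `c T = Co a p J T h z`, `R T = ∏ j ∈ T, rr p j`, `ρ j = sqrt (rr p j)` (`ρ^2 = rr`, `ρ^4 = rr^2 = vi/16`, `R T = (∏ ρ)^2`), `H U = h (z + ∑ U) = Py p J c U` on `U ⊆ J` (S_URp), `G U = Py p J (fun T => R T * c T) U`, `N = ∑ T, R T * (wt T * c T^2) = EU (H * G)` (S_UPl), `Q = Av J (h^2) z = EU (H^2)` (Av_eq_EU).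
`H` has values `0, 1, -1`: `H G = H (H^2 .. )`: (1) `H G = (H) * (H^2 G)` as `H^3 = H`; EU_cs: `(EU (H G))^2 = (EU (H * (H^2 G)))^2 ≤ EU (H^2) * EU ((H^2 G)^2)`, `(H^2 G)^2 = H^2 G^2`; (2) EU_cs: `(EU (H^2 G^2))^2 ≤ EU (H^4) EU (G^4) = Q EU (G^4)`. So `N^4 ≤ Q^2 (EU (H^2 G^2))^2 ≤ Q^3 EU (G^4)`.
S_UHc for the coefficients `(∏ ρ) * c T`: `EU (G^4) ≤ (∑ wt (∏ρ)^2 c^2)^2 = N^2`. So `N^4 ≤ Q^3 N^2`; `N = 0` clear, otherwise divide. -/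
def S_UHm : Prop := ∀ (a p : ℕ → ℝ) (J : Finset ℕ) (h : ℝ → ℝ) (z : ℝ), (∀ i, 0 ≤ p i ∧ p i ≤ 1) →
  (∀ y, h y = 0 ∨ h y = 1 ∨ h y = -1) →
  (∑ T ∈ J.powerset, (∏ j ∈ T, rr p j) * (wt p T * Co a p J T h z ^ 2)) ^ 2 ≤ Av a p J (fun y => h y ^ 2) z ^ 3

/-! ## Part 2: the inequality for the small influences -/

/-- **UIn** (noisy influence). Uses: S_TPar, S_UHm.
Proof. `J = insert i (J.erase i)`; for `T ⊆ J.erase i`: `Co a p J (insert i T) F z = (Co (J.erase i) T F z - Co (J.erase i) T F (z + a i))/2 = Co (J.erase i) T (hA (a i) F) z` (Co_insert_mem, Co_hA). `h = hA (a i) F` has values `0, 1, -1`; S_UHm; `Av (J.erase i) (h^2) z = ∑ wt Co^2 = QQ` (S_TPar (1) with `B = ∅`). So `N^2 ≤ Q^3 = (Q sqrt Q)^2`, `N ≤ Q sqrt Q` (abs_le_of_sq_le or Real.sqrt; `N, Q ≥ 0`). -/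
def S_UIn : Prop := ∀ (a p : ℕ → ℝ) (J : Finset ℕ) (F : ℝ → ℝ) (z : ℝ) (i : ℕ), (∀ i, 0 ≤ p i ∧ p i ≤ 1) →
  (∀ y, F y = 1 ∨ F y = -1) → i ∈ J →
  ∑ T ∈ (J.erase i).powerset, (∏ j ∈ T, rr p j) * (wt p T * Co a p J (insert i T) F z ^ 2) ≤
    QQ a p J F z i * Real.sqrt (QQ a p J F z i)

/-- **ULg** (the logarithms of the influences). Uses: S_UIn. THE MAIN STEP.
Proof. `c T = Co a p J T F z`, `x T = wt p T * c T^2 ≥ 0`, `Q i = QQ .. i`. (0) for `i ∈ J`: `∑_{T ∈ J.powerset.filter (i ∈ T)} x T = vi p i * Q i` (the `T ∋ i` are the `insert i T'`, `T' ⊆ J.erase i`, wt_insert), the same with the factor `∏ j ∈ T.erase i, rr p j`: `≤ vi p i * (Q i * sqrt (Q i))` (S_UIn).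
(1) For `T ≠ ∅` with `x T > 0`, `i = ι T ∈ T`: `vi p j > 0` for `j ∈ T`, `Q i > 0` (by (0)), `R = ∏ j ∈ T.erase i, rr p j > 0`. `log s ≤ s - 1` for `s = R/sqrt (Q i)`: `(1/2) log (1/Q i) ≤ log (1/R) + R/sqrt (Q i) - 1`, and `log (1/R) = ∑_{j ∈ T.erase i} ((1/2) log (1/vi p j) + log 4)` (Real.log_prod, Real.log_sqrt), `log 4 ≤ 1.4` (`log 2 ≤ 0.6931471808`).
Multiply by `4 x T` and sum over `T ≠ ∅` (for `x T = 0` all terms are `0`): `∑ x T (2 log (1/Q)) ≤ ∑ x T ∑_{j ∈ T.erase i} 2 log (1/vi p j) + 5.6 ∑ x T (|T| - 1) + 4 ∑ x T R/sqrt (Q i) - 4 ∑ x T`. (2) `∑_{T ≠ ∅} x T R_T/sqrt (Q (ι T)) ≤ ∑_{i ∈ J} ∑_{T ∋ i} x T (∏ j ∈ T.erase i, rr p j)/sqrt (Q i) ≤ ∑_{i ∈ J} vi p i * Q i = ∑_T |T| x T`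
(`Q i = 0`: `0`; Finset.sum_comm). So the last two terms are `≤ 4 ∑ (|T| - 1) x T`, total `5.6 + 4 ≤ 10`. -/
def S_ULg : Prop := ∀ (a p : ℕ → ℝ) (J : Finset ℕ) (F : ℝ → ℝ) (z : ℝ) (ι : Finset ℕ → ℕ), (∀ i, 0 ≤ p i ∧ p i ≤ 1) →
  (∀ y, F y = 1 ∨ F y = -1) → (∀ T ∈ J.powerset.erase ∅, ι T ∈ T) →
  ∑ T ∈ J.powerset.erase ∅, wt p T * Co a p J T F z ^ 2 * (2 * Real.log (1 / QQ a p J F z (ι T))) ≤
    ∑ T ∈ J.powerset.erase ∅, wt p T * Co a p J T F z ^ 2 * (∑ j ∈ T.erase (ι T), 2 * Real.log (1 / vi p j)) +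
    10 * ∑ T ∈ J.powerset.erase ∅, ((T.card : ℝ) - 1) * (wt p T * Co a p J T F z ^ 2)

/-- `F` is unate in the bits of `J` (on the sums from `z`) -/
def Un (a : ℕ → ℝ) (J : Finset ℕ) (F : ℝ → ℝ) (z : ℝ) : Prop := ∀ i ∈ J,
  (∀ S, S ⊆ J.erase i → F (z + ∑ j ∈ S, a j) ≤ F (z + ∑ j ∈ S, a j + a i)) ∨
  (∀ S, S ⊆ J.erase i → F (z + ∑ j ∈ S, a j + a i) ≤ F (z + ∑ j ∈ S, a j))

/-- **UUn** (first-level coefficients of a unate gate). Uses: S_TPar.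
Proof. `J = insert i (J.erase i)`, `{i} = insert i ∅`: `Co a p J {i} F z = Av (J.erase i) (hA (a i) F) z` (Co_insert_mem, Co_empty, Av_shift, Av_sub, Av_mul; or Co_hA and Co_empty), `QQ = Av (J.erase i) ((hA (a i) F)^2) z` (as in UIn). At the points `y = z + ∑ S`, `S ⊆ J.erase i`, `hA y` is `0` or `1` for all, or `0` or `-1` for all (Un), so `(hA y)^2 = hA y` for all, or `= - hA y` for all: unfold Av, Finset.sum_congr. So `Co = ± QQ`. -/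
def S_UUn : Prop := ∀ (a p : ℕ → ℝ) (J : Finset ℕ) (F : ℝ → ℝ) (z : ℝ), (∀ i, 0 ≤ p i ∧ p i ≤ 1) →
  (∀ y, F y = 1 ∨ F y = -1) → Un a J F z → ∀ i ∈ J, Co a p J {i} F z ^ 2 = QQ a p J F z i ^ 2

/-- **UAv** (averaging). Uses: nothing.
Proof. Otherwise `R < (∑ w) * X T` for all `T` with `w T > 0`; multiply by `w T`, sum: `(∑ w) R ≤ (∑ w) ∑ w X` with a strict inequality for at least one `T` (`∑ w > 0`), so `R < ∑ w X ≤ R`. -/
def S_UAv : Prop := ∀ (s : Finset (Finset ℕ)) (w X : Finset ℕ → ℝ) (R : ℝ), (∀ T ∈ s, 0 ≤ w T) → 0 < ∑ T ∈ s, w T →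
  ∑ T ∈ s, w T * X T ≤ R → ∃ T ∈ s, 0 < w T ∧ (∑ T ∈ s, w T) * X T ≤ R

/-- gate condition for the sharp min-entropy inequality with the constant `K` -/
def GM (K : ℝ) (p : ℕ → ℝ) (M : ℕ) (c : Finset ℕ → ℝ) : Prop := ∀ κ : ℕ → ℝ,
  (∀ i, i < M → 0 < vi p i → 2 * Real.log (1 / vi p i) ≤ κ i) →
  0 < ∑ T ∈ (range M).powerset.erase ∅, wt p T * c T ^ 2 →
  ∃ T ∈ (range M).powerset.erase ∅, 0 < wt p T * c T ^ 2 ∧
    (∑ T' ∈ (range M).powerset.erase ∅, wt p T' * c T' ^ 2) * (Real.log (1 / c T ^ 2) + ∑ i ∈ T, κ i) ≤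
      ∑ T' ∈ (range M).powerset.erase ∅, wt p T' * c T' ^ 2 * (∑ i ∈ T', κ i) +
      K * ∑ T' ∈ (range M).powerset.erase ∅, ((T'.card : ℝ) - 1) * (wt p T' * c T' ^ 2)

/-- **UGU** (gate condition for unate gates). Uses: S_ULg, S_UUn, S_UAv.
Proof. `J = range M`, `c T = Co a p J T F z`, `x T = wt T * c T^2`, `ι T = if h : T.Nonempty then h.choose else 0` (or `T.min'`). `X T = 2 log (1/Q (ι T)) + κ (ι T)`. For `x T > 0`: all `vi p j > 0` (`j ∈ T`), so `∑_{j ∈ T.erase (ι T)} 2 log (1/vi p j) + κ (ι T) ≤ ∑_{j ∈ T} κ j`. S_ULg: `∑_{T ≠ ∅} x T X T ≤ RHS := ∑ x T ∑_{T} κ + 10 ∑ (|T|-1) x T`,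
`10 ≤ K` and `∑ (|T|-1) x T ≥ 0`. S_UAv (weights `x T`): `T1` with `x T1 > 0`, `(∑ x) X T1 ≤ RHS`. `i = ι T1 ∈ T1`, `T := {i}`: `vi p i > 0`, `Q i > 0` (`vi p i * Q i = ∑_{T ∋ i} x T ≥ x T1 > 0`; `wt T1 = vi p i * wt (T1.erase i)`, so `wt (T1.erase i) * c T1^2 > 0` is one of the terms of `QQ`), S_UUn: `c {i}^2 = (Q i)^2`,
`wt {i} * c {i}^2 > 0`, `log (1/c {i}^2) = 2 log (1/Q i)`, `∑_{j ∈ {i}} κ j = κ i`. -/
def S_UGU : Prop := ∀ (K : ℝ) (a p : ℕ → ℝ) (M : ℕ) (F : ℝ → ℝ) (z : ℝ), 10 ≤ K → (∀ i, 0 ≤ p i ∧ p i ≤ 1) →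
  (∀ y, F y = 1 ∨ F y = -1) → Un a (range M) F z → GM K p M (fun T => Co a p (range M) T F z)

/-- **UGE** (gate condition from the entropy inequality). Uses: S_UAv.
Proof. `x T = wt T * c T^2`. `∑_{T ∈ powerset} x T = 1`, `wt p ∅ = 1`: `∑_{T ≠ ∅} x T = 1 - c ∅^2`; `hh t = t log (1/t)` (Real.negMulLog), so `∑_{T ≠ ∅} x T log (1/c T^2) ≤ K (∑ |T| x T - ∑_{T ≠ ∅} x T) = K ∑_{T ≠ ∅} (|T| - 1) x T`. Add `∑_{T ≠ ∅} x T ∑_{i ∈ T} κ i`; S_UAv with `X T = log (1/c T^2) + ∑_{i ∈ T} κ i`. -/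
def S_UGE : Prop := ∀ (K : ℝ) (p : ℕ → ℝ) (M : ℕ) (c : Finset ℕ → ℝ), (∀ i, 0 ≤ p i ∧ p i ≤ 1) →
  ∑ T ∈ (range M).powerset, wt p T * c T ^ 2 = 1 →
  (∑ T ∈ (range M).powerset, wt p T * hh (c T ^ 2) ≤ hh (c ∅ ^ 2) +
    K * (∑ T ∈ (range M).powerset, (T.card : ℝ) * (wt p T * c T ^ 2) - (1 - c ∅ ^ 2))) → GM K p M c

/-! ## Part 3: compositions -/

/-- sharp min-entropy inequality of `f` with the constant `K` -/
def Mq (K : ℝ) {N : ℕ} (f : (Fin N → Bool) → ℝ) : Prop := 0 < 1 - coeff f ∅ ^ 2 →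
  ∃ S : Finset (Fin N), S ≠ ∅ ∧ coeff f S ≠ 0 ∧
    (1 - coeff f ∅ ^ 2) * Real.log (1 / coeff f S ^ 2) ≤ K * (influence f - (1 - coeff f ∅ ^ 2))

/-- **UMx** (a coefficient is at most the variance). Uses: nothing.
Proof. For `s ∈ {1, -1}`, `S ≠ ∅`: `coeff u S = mean (u sgn_S) = mean ((u - s) sgn_S)` (`mean sgn_S = 0`; e.g. by Q.coeff_mean and the coefficient of a constant function at `S ≠ ∅` is `0`, see Clo_const in RC/Clo.lean, Q.coeff_zero), so `|coeff u S| ≤ mean |u - s| = mean (1 - s u) = 1 - s * coeff u ∅`. Both signs: `|coeff u S| ≤ 1 - |coeff u ∅| ≤ 1 - (coeff u ∅)^2` (`|coeff u ∅| ≤ 1`). -/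
def S_UMx : Prop := ∀ (N : ℕ) (u : (Fin N → Bool) → ℝ), (∀ x, u x = 1 ∨ u x = -1) → ∀ S : Finset (Fin N), S ≠ ∅ →
  |coeff u S| ≤ 1 - coeff u ∅ ^ 2

/-- **UPv** (Parseval for a composition). Uses: S_Smm, S_Vsm.
Proof. `∑_S coeff f S^2 = 1` (Q.parseval, `f^2 = 1`, Q.mean_const). `coeff f S^2 = Lp P M (fun i R => coeff (u i) R^2) S * c (TT P M S)^2` (Lp of squares: unfold Lp, Finset.prod_pow), S_Smm, S_Vsm (3): `∏ i ∈ T, ∑_{R ≠ ∅} coeff (u i) R^2 = wt (pb u) T`. -/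
def S_UPv : Prop := ∀ (N M : ℕ) (P : ℕ → Finset (Fin N)) (u : ℕ → (Fin N → Bool) → ℝ) (f : (Fin N → Bool) → ℝ)
  (c : Finset ℕ → ℝ), Cp P u → (∀ S, coeff f S = Lp P M (fun i R => coeff (u i) R) S * c (TT P M S)) →
  (∀ x, f x = 1 ∨ f x = -1) → ∑ T ∈ (range M).powerset, wt (pb u) T * c T ^ 2 = 1

/-- **UCm** (composition). Uses: S_Prd, S_Vsm, S_TFml, S_UMx, S_UPv.
Proof. `p = pb u`, `V_i = vi p i = 1 - coeff (u i) ∅^2` (S_Vsm), `x T = wt T * c T^2`, `V = 1 - coeff f ∅^2 = 1 - c ∅^2 = ∑_{T ≠ ∅} x T > 0` (S_TFml (4), S_UPv). For every `i` with `V_i > 0` choose `S_i` by Mq: `S_i ≠ ∅`, `m_i = coeff (u i) S_i ≠ 0`, `V_i κ_i ≤ K (I_i - V_i)`, `κ_i = log (1/m_i^2)`; `S_i ⊆ P i` (S_Prd (2)), `κ_i ≥ 2 log (1/V_i)` (S_UMx: `m_i^2 ≤ V_i^2`).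
For `V_i = 0`: `κ_i = 0`, `S_i = ∅`. GM gives `T`; `x T > 0`: `c T ≠ 0`, `V_i > 0` for `i ∈ T`. `S = T.biUnion S_i ≠ ∅`: `S ∩ P i = S_i` for `i ∈ T`, `= ∅` for `i ∉ T` (disjoint blocks), `TT P M S = T`, `S ⊆ (range M).biUnion P`, so `coeff f S = (∏ i ∈ T, m_i) * c T ≠ 0` and `log (1/coeff f S^2) = log (1/c T^2) + ∑_{i ∈ T} κ_i` (Real.log_mul, Real.log_prod).
GM: `V * log (..) ≤ ∑_{T'} x T' ∑_{i ∈ T'} κ_i + K ∑_{T' ≠ ∅} (|T'| - 1) x T'`. With `Q_i = ∑_{T ∌ i} wt T * c (insert i T)^2 ≥ 0`: the first sum is `∑_{i<M} κ_i V_i Q_i ≤ ∑ K (I_i - V_i) Q_i` (exchange the sums; `V_i = 0`: `0 ≤ K I_i Q_i`), `∑ V_i Q_i = ∑ |T'| x T'` (S_TFml (3)), `∑ I_i Q_i = influence f` (S_TFml (2)). Total: `K (influence f - V)`. -/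
def S_UCm : Prop := ∀ (K : ℝ) (N M : ℕ) (P : ℕ → Finset (Fin N)) (u : ℕ → (Fin N → Bool) → ℝ) (f : (Fin N → Bool) → ℝ)
  (c : Finset ℕ → ℝ), 0 ≤ K → Cp P u → (∀ S, coeff f S = Lp P M (fun i R => coeff (u i) R) S * c (TT P M S)) →
  (∀ x, f x = 1 ∨ f x = -1) → GM K (pb u) M c → (∀ i, Mq K (u i)) → Mq K f

/-- **UTh** (threshold gates). Uses: S_Vsm, S_TLin, S_TCfo, S_UPv, S_UGE, S_UCm. MODEL: RT/TGth.lean (the same reduction to weights `≥ 0`; `Mq K (- u)` from `Mq K u`: the squares of the coefficients and the influence are the same).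
At the end: `c T = Co a' (pb u') (range M) T (Og θ1 θ2) σ`, GM by S_UGE (S_TLin gives its inequality, S_UPv its sum), S_UCm. -/
def S_UTh : Prop := ∀ (K : ℝ) (N M : ℕ) (P : ℕ → Finset (Fin N)) (u : ℕ → (Fin N → Bool) → ℝ) (a : ℕ → ℝ) (θ1 θ2 : ℝ),
  30000 ≤ K → Cp P u → (∀ i, Mq K (u i)) →
  Mq K (fun x => if θ1 ≤ ∑ i ∈ range M, (if u i x = -1 then a i else 0) ∧
        ∑ i ∈ range M, (if u i x = -1 then a i else 0) < θ2 then (-1 : ℝ) else 1)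

/-- **USy** (symmetric gates). Uses: S_Vsm, S_TSym, S_TCfo, S_UPv, S_UGE, S_UCm. MODEL: RT/TGsy.lean. -/
def S_USy : Prop := ∀ (K : ℝ) (N M : ℕ) (P : ℕ → Finset (Fin N)) (u : ℕ → (Fin N → Bool) → ℝ) (φ : ℕ → Bool),
  30000 ≤ K → Cp P u → (∀ i, Mq K (u i)) →
  Mq K (fun x => if φ ((range M).filter (fun i => u i x = -1)).card then (-1 : ℝ) else 1)

/-- **UUa** (unate gates). Uses: S_Vsm, S_TCfo, S_UGU, S_UCm.
Proof. `a i = (2 : ℝ)^i`, `F y = if φ (⌊y⌋₊.bitIndices.toFinset) then -1 else 1`, `z = 0`. For a finite set `U`: `∑ i ∈ U, (2 : ℝ)^i` is the cast of `∑ i ∈ U, 2^i`, Nat.floor_natCast, and `(∑ i ∈ U, 2^i).bitIndices.toFinset = U` (Finset.equivBitIndices and its inverse, or Finset.toFinset_bitIndices_twoPowSum), so `F (∑ i ∈ U, a i) = if φ U then -1 else 1`.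
`∑ i ∈ range M, (if u i x = -1 then a i else 0) = ∑ i ∈ (range M).filter (u i x = -1), a i` (Finset.sum_filter), so the function is `F (0 + ..)`: S_TCfo. `Un a (range M) F 0`: for `i < M`, `S ⊆ (range M).erase i`: `∑ S + a i = ∑ (insert i S)` and the hypothesis on `φ` (`φ S → φ (insert i S)`: `F` decreases). S_UGU (`10 ≤ K`), S_UCm (`p = pb u` in `[0,1]`: S_Vsm). -/
def S_UUa : Prop := ∀ (K : ℝ) (N M : ℕ) (P : ℕ → Finset (Fin N)) (u : ℕ → (Fin N → Bool) → ℝ) (φ : Finset ℕ → Bool),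
  30000 ≤ K → (∀ i, i < M → (∀ U, U ⊆ range M → i ∉ U → φ U = true → φ (insert i U) = true) ∨
    (∀ U, U ⊆ range M → i ∉ U → φ (insert i U) = true → φ U = true)) → Cp P u → (∀ i, Mq K (u i)) →
  Mq K (fun x => if φ ((range M).filter (fun i => u i x = -1)) then (-1 : ℝ) else 1)

/-- **UPr** (branching programs). Uses: S_Vsm, S_Cfo, S_Piv, S_Fix, S_UPv, S_UGE, S_UCm. MODEL: RT/TPrg.lean, RC/Clo.lean (the case `comp`): instead of S_Cmp use S_UCm with `c T = Cf s v' (pb u') O T n 0 x0` (S_Cfo with `k = n`, `t = 0`), GM by S_UGE (its inequality is PG with S_Piv as in RC/Cmp.lean, its sum is S_UPv). Constant functions satisfy `Mq` (`1 - coeff ∅^2 = 0`). -/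
def S_UPr : Prop := ∀ (w : ℕ) (K0 K : ℝ), PG w K0 → K0 ≤ K → 0 ≤ K → ∀ (N : ℕ) (P : ℕ → Finset (Fin N))
  (u : ℕ → (Fin N → Bool) → ℝ), Cp P u → (∀ i, Mq K (u i)) →
  ∀ (n : ℕ) (s : ℕ → Fin w → Bool → Fin w) (v : ℕ → Fin w → ℕ) (x0 : Fin w) (o : Fin w → Bool), ReadOnce s v n x0 →
  Mq K (fun x => if o (run s v x0 (fun i => decide (u i x = -1)) n) then (-1 : ℝ) else 1)

/-- **Read-once compositions of unate functions, symmetric functions, threshold gates and branching programs of width `w`**: the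
smallest class of functions `(Fin N → Bool) → {1, -1}` which contains the constants and the variables, with `f`
also `-f`, and with functions `u i` (`i : ℕ`) of pairwise disjoint sets `P i` of variables also
(una) every function `G` of the `u i`, `i < M`, which is unate: the value is `-1` iff the set of the `i < M` with `u i x = -1` is in the
family `φ`, where for every `i < M` either adding `i` to a subset of `range M` never leads out of `φ` or it never leads into `φ`;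
(thr) the function which is `-1` iff the sum of the real weights `a i` over the `i < M` with `u i x = -1` is in `[θ1, θ2)`;
(sym) every function of the number of the `i < M` with `u i x = -1`;
(prog) every function computed by a read-once branching program with `w` states per level whose nodes read the values of the `u i`. -/
inductive UG (w : ℕ) {N : ℕ} : ((Fin N → Bool) → ℝ) → Prop
  | const (c : Bool) : UG w (fun _ => if c then -1 else 1)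
  | var (b : Fin N) : UG w (fun x => if x b then -1 else 1)
  | neg (f : (Fin N → Bool) → ℝ) (hf : UG w f) : UG w (fun x => - f x)
  | una (P : ℕ → Finset (Fin N)) (u : ℕ → (Fin N → Bool) → ℝ)
      (hP : ∀ i j, i ≠ j → Disjoint (P i) (P j)) (hd : ∀ i, Dp (P i) (u i)) (hu : ∀ i, UG w (u i))
      (M : ℕ) (φ : Finset ℕ → Bool)
      (hφ : ∀ i, i < M → (∀ U, U ⊆ range M → i ∉ U → φ U = true → φ (insert i U) = true) ∨
        (∀ U, U ⊆ range M → i ∉ U → φ (insert i U) = true → φ U = true)) :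
      UG w (fun x => if φ ((range M).filter (fun i => u i x = -1)) then -1 else 1)
  | thr (P : ℕ → Finset (Fin N)) (u : ℕ → (Fin N → Bool) → ℝ)
      (hP : ∀ i j, i ≠ j → Disjoint (P i) (P j)) (hd : ∀ i, Dp (P i) (u i)) (hu : ∀ i, UG w (u i))
      (M : ℕ) (a : ℕ → ℝ) (θ1 θ2 : ℝ) :
      UG w (fun x => if θ1 ≤ ∑ i ∈ range M, (if u i x = -1 then a i else 0) ∧
        ∑ i ∈ range M, (if u i x = -1 then a i else 0) < θ2 then -1 else 1)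
  | sym (P : ℕ → Finset (Fin N)) (u : ℕ → (Fin N → Bool) → ℝ)
      (hP : ∀ i j, i ≠ j → Disjoint (P i) (P j)) (hd : ∀ i, Dp (P i) (u i)) (hu : ∀ i, UG w (u i))
      (M : ℕ) (φ : ℕ → Bool) :
      UG w (fun x => if φ ((range M).filter (fun i => u i x = -1)).card then -1 else 1)
  | prog (P : ℕ → Finset (Fin N)) (u : ℕ → (Fin N → Bool) → ℝ)
      (hP : ∀ i j, i ≠ j → Disjoint (P i) (P j)) (hd : ∀ i, Dp (P i) (u i)) (hu : ∀ i, UG w (u i))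
      (n : ℕ) (s : ℕ → Fin w → Bool → Fin w) (v : ℕ → Fin w → ℕ) (x0 : Fin w) (o : Fin w → Bool)
      (hr : ReadOnce s v n x0) :
      UG w (fun x => if o (run s v x0 (fun i => decide (u i x = -1)) n) then -1 else 1)

/-- **UCl** (the class). Uses: S_UTh, S_USy, S_UUa, S_UPr. MODEL: RC/Clo.lean, RT/TFin.lean.
Proof. Induction on `UG w f` (all values are `1` or `-1`, and `Mq K f`). const: `1 - coeff ∅^2 = 0`. var `b`: `S = {b}`, `coeff = 1`, `log 1 = 0`, `influence = 1`, `coeff ∅ = 0`: `0 ≤ K (1 - 1)` (as in Clo_var). neg: `coeff (-f) S = - coeff f S`. The others: Cp by the induction hypothesis, S_UUa, S_UTh, S_USy, S_UPr. -/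
def S_UCl : Prop := ∀ (w : ℕ) (K0 K : ℝ), PG w K0 → K0 ≤ K → 30000 ≤ K → ∀ (N : ℕ) (f : (Fin N → Bool) → ℝ), UG w f →
  (∀ x, f x = 1 ∨ f x = -1) ∧ Mq K f

/-- **UMn** (from the sharp form to Q1). Uses: nothing.
Proof. `V = 1 - coeff f ∅^2 = ∑_{S ≠ ∅} coeff^2 ≤ influence f =: I` (Parseval; `influence = ∑ |S| coeff^2`; so `0 ≤ V ≤ 1`, `V ≤ I`). Case `V ≤ 1/2`: `(coeff f ∅)^2 = 1 - V ≥ exp (-2 V)` (for `0 ≤ V ≤ 1/2`: `exp (2V) ≤ 1/(1 - V)`: `exp (-2V) ≤ 1/(1 + 2V) ≤ 1 - V` iff `1 ≤ (1-V)(1+2V) = 1 + V - 2V^2`), so `|coeff f ∅| ≥ exp (-V) ≥ exp (-K I)` (`K ≥ 1`).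
Case `V > 1/2`: `S` from Mq, `V log (1/coeff^2) ≤ K (I - V) ≤ K I`, so `log (1/coeff^2) ≤ 2 K I` (`log (1/coeff^2) ≥ 0` as `|coeff| ≤ 1`), `|coeff| ≥ exp (-K I)` (Real.log_le_log_iff / Real.le_log_iff_exp_le, `log (1/c^2) = -2 log |c|`). -/
def S_UMn : Prop := ∀ (K : ℝ) (N : ℕ) (f : (Fin N → Bool) → ℝ), 1 ≤ K → (∀ x, f x = 1 ∨ f x = -1) → Mq K f →
  ∃ S : Finset (Fin N), Real.exp (-(K * influence f)) ≤ |coeff f S|

/-- **UFn** (final statement). Uses: S_GVar, S_GPg, S_UCl, S_UMn.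
Proof. `C = 4706 * 7000000`, `K = C * w = 4706 * (7000000 * w) ≥ 30000`, `PG w K` (S_GPg, S_GVar as in RD/GFn.lean), S_UCl with `K0 = K`. (1) is Mq K f, (2) is S_UMn. -/
def S_UFn : Prop := ∃ C : ℝ, 0 < C ∧ ∀ w : ℕ, 1 ≤ w → ∀ (N : ℕ) (f : (Fin N → Bool) → ℝ), UG w f →
  (0 < 1 - coeff f ∅ ^ 2 → ∃ S : Finset (Fin N), S ≠ ∅ ∧ coeff f S ≠ 0 ∧
    (1 - coeff f ∅ ^ 2) * Real.log (1 / coeff f S ^ 2) ≤ C * w * (influence f - (1 - coeff f ∅ ^ 2))) ∧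
  ∃ S : Finset (Fin N), Real.exp (-(C * w * influence f)) ≤ |coeff f S|

end Pool.Agent.MP3145b1.UM
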