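import Pool.Agent.Lib.MP_3145b1_co.UM.Spec

/-!
# MP_3145b1_co, project UM, part 2: leaves (a composition theorem for the min-entropy-influence inequality)

THEOREM. There is an absolute constant `C` such that for all `w ≥ 1`, `C0 ≥ 0` and all `f` in `UL w C0`: a coefficient is at least
`exp (- C (w + C0) I(f))`. `UL w C0`: the class `UG w` with leaves: EVERY Boolean function with `Var f * min_(S ≠ ∅) log (1/f^(S)^2) ≤ C0 I(f)`
(in particular every function with `Ent(f) ≤ C0 I(f)`) is in the class. The new point: the sharp form `Mq` follows from the plain form (stability: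
a function with `I - Var` small has a first-level coefficient close to `1`, by S_ULg for the uniform measure).

RULES: as in UM/Spec.lean (import Pool.Agent.Lib.MP_3145b1_co.UM.Spec2).
-/

set_option autoImplicit false

namespace Pool.Agent.MP3145b1.UM

open Finset Pool.Agent.MP3145b1 Pool.Agent.MP3145b1.RC Pool.Agent.MP3145b1.RD Pool.Agent.MP3145b1.RT

/-- **ULf** (functions with small `I - Var`). Uses: S_TPar, S_ULg, S_UAv.
Proof. `J = range M`, `c T = Co a p J T F z`, `wt p T = 1` and `vi p j = 1`, `log (1/vi p j) = 0` for `T ⊆ J`, `j ∈ J`. `V ≤ 1` (S_TPar (1) with `B = ∅`: `∑_T c T^2 = Av J (F^2) z = 1`, Av_const). `ι T = if h : T.Nonempty then h.choose else 0`. S_ULg: `∑_{T ≠ ∅} c T^2 (2 log (1/Q (ι T))) ≤ 10 D`. S_UAv: `T1` with `c T1^2 > 0`, `i = ι T1 ∈ T1`: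
`2 V log (1/Q i) ≤ 10 D`; `Q i ≥ c T1^2 > 0` (`T1 = insert i (T1.erase i)`). So `log (Q i) ≥ - 5 D/V`, `Q i ≥ 1 - 5 D/V` (`log x ≤ x - 1`). `Q i = c {i}^2 + ∑_{T ⊆ J.erase i, T ≠ ∅} c (insert i T)^2 ≤ c {i}^2 + D` (the sets `insert i T` are different, `|insert i T| - 1 ≥ 1`, the terms of `D` are `≥ 0`).
So `c {i}^2 ≥ 1 - 5 D/V - D ≥ 1 - 6 D/V ≥ 1/2`, and `log (1/x) ≤ 1/x - 1 = (1 - x)/x ≤ 2 (1 - x)` for `x = c {i}^2 ≥ 1/2`: `V log (1/x) ≤ 2 V * 6 D/V = 12 D`. -/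
def S_ULf : Prop := ∀ (a p : ℕ → ℝ) (M : ℕ) (F : ℝ → ℝ) (z : ℝ), (∀ i, 0 ≤ p i ∧ p i ≤ 1) → (∀ i, i < M → p i = 1 / 2) →
  (∀ y, F y = 1 ∨ F y = -1) →
  0 < ∑ T ∈ (range M).powerset.erase ∅, Co a p (range M) T F z ^ 2 →
  ∑ T ∈ (range M).powerset.erase ∅, ((T.card : ℝ) - 1) * Co a p (range M) T F z ^ 2 ≤
    (∑ T ∈ (range M).powerset.erase ∅, Co a p (range M) T F z ^ 2) / 12 →
  ∃ i ∈ range M, Co a p (range M) {i} F z ≠ 0 ∧
    (∑ T ∈ (range M).powerset.erase ∅, Co a p (range M) T F z ^ 2) * Real.log (1 / Co a p (range M) {i} F z ^ 2) ≤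
      12 * ∑ T ∈ (range M).powerset.erase ∅, ((T.card : ℝ) - 1) * Co a p (range M) T F z ^ 2

/-- plain min-entropy inequality of `f` with the constant `C0` -/
def Pm (C0 : ℝ) {N : ℕ} (f : (Fin N → Bool) → ℝ) : Prop := 0 < 1 - coeff f ∅ ^ 2 →
  ∃ S : Finset (Fin N), S ≠ ∅ ∧ coeff f S ≠ 0 ∧
    (1 - coeff f ∅ ^ 2) * Real.log (1 / coeff f S ^ 2) ≤ C0 * influence f

/-- **ULv** (the plain inequality implies the sharp one). Uses: S_Vsm, S_TCfo, S_TFml, S_UPv, S_ULf. (Binary encoding: as in UM/UUa.lean.)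
Proof. `V = 1 - coeff f ∅^2 > 0`, `I = influence f`. `P i = if h : i < N then {⟨i, h⟩} else ∅`, `u i = if h : i < N then (fun x => if x ⟨i, h⟩ then -1 else 1) else (fun _ => 1)`, `Cp P u`. For `i < N`: `coeff (u i) {⟨i, h⟩} = 1`, `coeff (u i) ∅ = 0`, `influence (u i) = 1` (as Clo_var in RC/Clo.lean), so `pb u i = 1/2`.
`a i = 2^i`, `F y = f (fun j => decide (j.val ∈ ⌊y⌋₊.bitIndices.toFinset))`, so `f x = F (0 + ∑ i ∈ range N, (if u i x = -1 then a i else 0))`; S_TCfo, `c T = Co a (pb u) (range N) T F 0`. `wt (pb u) T = 1` for `T ⊆ range N`. S_UPv: `∑_T c T^2 = 1`; S_TFml (4): `coeff f ∅ = c ∅`, so `V = ∑_{T ≠ ∅} c T^2`;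
S_TFml (2), (3): `I = ∑_i Q_i = ∑_T |T| c T^2` (`influence (u i) = 1 = 4 pb (1 - pb)`), so `D := ∑_{T ≠ ∅} (|T| - 1) c T^2 = I - V ≥ 0`. Case `V/12 ≤ I - V`: `S` from `Pm C0 f`: `C0 I = C0 V + C0 (I - V) ≤ 13 C0 (I - V) ≤ K (I - V)`.
Case `I - V < V/12`: S_ULf gives `i < N`, `c {i} ≠ 0`, `V log (1/c {i}^2) ≤ 12 D ≤ K (I - V)`. `S = {⟨i, h⟩}`: `TT P N S = {i}`, `Lp = coeff (u i) {⟨i, h⟩} = 1`, `coeff f S = c {i}`. -/
def S_ULv : Prop := ∀ (K C0 : ℝ) (N : ℕ) (f : (Fin N → Bool) → ℝ), 0 ≤ C0 → 12 ≤ K → 13 * C0 ≤ K →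
  (∀ x, f x = 1 ∨ f x = -1) → Pm C0 f → Mq K f

/-- **USe** (the entropy inequality implies the plain min-entropy inequality). Uses: nothing.
Proof. `V = 1 - coeff f ∅^2 = ∑_{S ≠ ∅} coeff f S^2 > 0` (Parseval: Q.parseval, Q.mean_const, as in GFn_sq_le of RD/GFn.lean). All terms of `specEntropy f` are `≥ 0` (`coeff^2 ≤ 1`), so `∑_{S ≠ ∅} coeff^2 logb 2 (1/coeff^2) ≤ C0 I`. If for all `S ≠ ∅` with `coeff f S ≠ 0` we had `V logb 2 (1/coeff^2) > C0 I`, then multiplying by `coeff^2` and summing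
gives `V ∑ .. > V C0 I`, a contradiction. `log x ≤ logb 2 x` for `x ≥ 1` (`log 2 ≤ 1`). -/
def S_USe : Prop := ∀ (C0 : ℝ) (N : ℕ) (f : (Fin N → Bool) → ℝ), (∀ x, f x = 1 ∨ f x = -1) →
  specEntropy f ≤ C0 * influence f → Pm C0 f

/-- **Read-once compositions over arbitrary leaves which satisfy the min-entropy inequality with the constant `C0`**: the
smallest class of functions `(Fin N → Bool) → {1, -1}` which contains
(leaf) every function `f` with values `1`, `-1` and `Pm C0 f` (the constants and the variables among them), with `f`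
also `-f`, and with functions `u i` (`i : ℕ`) of pairwise disjoint sets `P i` of variables also the compositions (una) with
unate functions, (thr) with intervals of linear forms, (sym) with symmetric functions, (prog) with branching programs of width `w`, as in `UG`. -/
inductive UL (w : ℕ) (C0 : ℝ) {N : ℕ} : ((Fin N → Bool) → ℝ) → Prop
  | leaf (f : (Fin N → Bool) → ℝ) (hv : ∀ x, f x = 1 ∨ f x = -1) (hf : Pm C0 f) : UL w C0 f
  | neg (f : (Fin N → Bool) → ℝ) (hf : UL w C0 f) : UL w C0 (fun x => - f x)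
  | una (P : ℕ → Finset (Fin N)) (u : ℕ → (Fin N → Bool) → ℝ)
      (hP : ∀ i j, i ≠ j → Disjoint (P i) (P j)) (hd : ∀ i, Dp (P i) (u i)) (hu : ∀ i, UL w C0 (u i))
      (M : ℕ) (φ : Finset ℕ → Bool)
      (hφ : ∀ i, i < M → (∀ U, U ⊆ range M → i ∉ U → φ U = true → φ (insert i U) = true) ∨
        (∀ U, U ⊆ range M → i ∉ U → φ (insert i U) = true → φ U = true)) :
      UL w C0 (fun x => if φ ((range M).filter (fun i => u i x = -1)) then -1 else 1)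
  | thr (P : ℕ → Finset (Fin N)) (u : ℕ → (Fin N → Bool) → ℝ)
      (hP : ∀ i j, i ≠ j → Disjoint (P i) (P j)) (hd : ∀ i, Dp (P i) (u i)) (hu : ∀ i, UL w C0 (u i))
      (M : ℕ) (a : ℕ → ℝ) (θ1 θ2 : ℝ) :
      UL w C0 (fun x => if θ1 ≤ ∑ i ∈ range M, (if u i x = -1 then a i else 0) ∧
        ∑ i ∈ range M, (if u i x = -1 then a i else 0) < θ2 then -1 else 1)
  | sym (P : ℕ → Finset (Fin N)) (u : ℕ → (Fin N → Bool) → ℝ)
      (hP : ∀ i j, i ≠ j → Disjoint (P i) (P j)) (hd : ∀ i, Dp (P i) (u i)) (hu : ∀ i, UL w C0 (u i))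
      (M : ℕ) (φ : ℕ → Bool) :
      UL w C0 (fun x => if φ ((range M).filter (fun i => u i x = -1)).card then -1 else 1)
  | prog (P : ℕ → Finset (Fin N)) (u : ℕ → (Fin N → Bool) → ℝ)
      (hP : ∀ i j, i ≠ j → Disjoint (P i) (P j)) (hd : ∀ i, Dp (P i) (u i)) (hu : ∀ i, UL w C0 (u i))
      (n : ℕ) (s : ℕ → Fin w → Bool → Fin w) (v : ℕ → Fin w → ℕ) (x0 : Fin w) (o : Fin w → Bool)
      (hr : ReadOnce s v n x0) :
      UL w C0 (fun x => if o (run s v x0 (fun i => decide (u i x = -1)) n) then -1 else 1)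

/-- **UC2** (the class). Uses: S_UTh, S_USy, S_UUa, S_UPr, S_ULv. MODEL: UM/UCl.lean.
Proof. Induction on `UL w C0 f` (all values are `1` or `-1`, and `Mq K f`). leaf: S_ULv. The others as in UM/UCl.lean. -/
def S_UC2 : Prop := ∀ (w : ℕ) (K0 K C0 : ℝ), PG w K0 → K0 ≤ K → 30000 ≤ K → 0 ≤ C0 → 13 * C0 ≤ K →
  ∀ (N : ℕ) (f : (Fin N → Bool) → ℝ), UL w C0 f → (∀ x, f x = 1 ∨ f x = -1) ∧ Mq K f

/-- **UF2** (final statement). Uses: S_GVar, S_GPg, S_UC2, S_UMn. MODEL: UM/UFn.lean.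
Proof. `C = 4706 * 7000000`, `K = C * (w + C0) ≥ 4706 * (7000000 * w) =: K0`, `PG w K0`, `K ≥ 30000`, `K ≥ 13 C0`. -/
def S_UF2 : Prop := ∃ C : ℝ, 0 < C ∧ ∀ w : ℕ, 1 ≤ w → ∀ C0 : ℝ, 0 ≤ C0 → ∀ (N : ℕ) (f : (Fin N → Bool) → ℝ), UL w C0 f →
  (0 < 1 - coeff f ∅ ^ 2 → ∃ S : Finset (Fin N), S ≠ ∅ ∧ coeff f S ≠ 0 ∧
    (1 - coeff f ∅ ^ 2) * Real.log (1 / coeff f S ^ 2) ≤ C * (w + C0) * (influence f - (1 - coeff f ∅ ^ 2))) ∧
  ∃ S : Finset (Fin N), Real.exp (-(C * (w + C0) * influence f)) ≤ |coeff f S|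

end Pool.Agent.MP3145b1.UM
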