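import Pool.Agent.Lib.MP_3145b1_co.UM.Spec

/-!
# MP_3145b1_co, project UM: gate condition for unate gates
-/

set_option autoImplicit false

namespace Pool.Agent.MP3145b1.UM

open Finset Pool.Agent.MP3145b1 Pool.Agent.MP3145b1.RC Pool.Agent.MP3145b1.RD Pool.Agent.MP3145b1.RT

/-- the first element -/
private noncomputable def UGU_ι (T : Finset ℕ) : ℕ := if h : T.Nonempty then T.min' h else 0

private theorem UGU_ι_mem (T : Finset ℕ) (h : T ≠ ∅) : UGU_ι T ∈ T := by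
  have h' : T.Nonempty := Finset.nonempty_iff_ne_empty.2 h
  unfold UGU_ι
  rw [dif_pos h']
  exact Finset.min'_mem T h'

private theorem UGU_vi_pos {p : ℕ → ℝ} (hp : ∀ i, 0 ≤ p i ∧ p i ≤ 1) (T : Finset ℕ) (h : 0 < wt p T)
    (j : ℕ) (hj : j ∈ T) : 0 < vi p j := by
  refine lt_of_le_of_ne (vi_nonneg hp j) (fun h0 => ?_)
  rw [wt_eq, Finset.prod_eq_zero hj h0.symm] at h
  exact lt_irrefl _ h

/-- one term -/
private theorem UGU_term {p : ℕ → ℝ} (hp : ∀ i, 0 ≤ p i ∧ p i ≤ 1) (M : ℕ) (κ : ℕ → ℝ)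
    (hκ : ∀ i, i < M → 0 < vi p i → 2 * Real.log (1 / vi p i) ≤ κ i) (T : Finset ℕ) (hT : T ⊆ range M)
    (i : ℕ) (hi : i ∈ T) (y : ℝ) (hy : 0 ≤ y) :
    wt p T * y * (∑ j ∈ T.erase i, 2 * Real.log (1 / vi p j)) + wt p T * y * κ i ≤
      wt p T * y * ∑ j ∈ T, κ j := by
  have hw := wt_nonneg hp T
  rcases hw.lt_or_eq with hw | hw
  · rw [← Finset.add_sum_erase T κ hi, ← mul_add]
    refine mul_le_mul_of_nonneg_left ?_ (mul_nonneg hw.le hy)
    have h1 : ∑ j ∈ T.erase i, 2 * Real.log (1 / vi p j) ≤ ∑ j ∈ T.erase i, κ j := by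
      refine Finset.sum_le_sum fun j hj => ?_
      have hj' := Finset.mem_of_mem_erase hj
      exact hκ j (Finset.mem_range.1 (hT hj')) (UGU_vi_pos hp T hw j hj')
    linarith
  · rw [← hw]
    simp

theorem rUGU (h1 : S_ULg) (h2 : S_UUn) (h3 : S_UAv) : S_UGU := by
  intro K a p M F z hK hp hF hUn κ hκ hpos
  beta_reduce at hpos ⊢
  obtain ⟨s, hs⟩ : ∃ s, s = (range M).powerset.erase ∅ := ⟨_, rfl⟩
  obtain ⟨x, hx⟩ : ∃ x : Finset ℕ → ℝ, x = fun T => wt p T * Co a p (range M) T F z ^ 2 := ⟨_, rfl⟩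
  have hxT : ∀ T, wt p T * Co a p (range M) T F z ^ 2 = x T := fun T => by rw [hx]
  have hx0 : ∀ T, 0 ≤ x T := fun T => by
    rw [← hxT]
    exact mul_nonneg (wt_nonneg hp T) (sq_nonneg _)
  have mem_s : ∀ T, T ∈ s ↔ T ≠ ∅ ∧ T ⊆ range M := by
    intro T
    rw [hs, Finset.mem_erase, Finset.mem_powerset]
  have hι : ∀ T ∈ s, UGU_ι T ∈ T := fun T hT => UGU_ι_mem T ((mem_s T).1 hT).1
  have hL := h1 a p (range M) F z UGU_ι hp hF (by rw [← hs]; exact hι)
  rw [← hs] at hpos hL ⊢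
  simp only [hxT] at hpos hL ⊢
  have hcard : 0 ≤ ∑ T ∈ s, ((T.card : ℝ) - 1) * x T := by
    refine Finset.sum_nonneg fun T hT => mul_nonneg ?_ (hx0 T)
    have h4 : 1 ≤ T.card := Finset.card_pos.2 (Finset.nonempty_iff_ne_empty.2 ((mem_s T).1 hT).1)
    have h5 : (1 : ℝ) ≤ T.card := by exact_mod_cast h4
    linarith
  obtain ⟨R, hR⟩ : ∃ R, R = ∑ T' ∈ s, x T' * (∑ i ∈ T', κ i) +
      K * ∑ T' ∈ s, ((T'.card : ℝ) - 1) * x T' := ⟨_, rfl⟩
  have hterm : ∑ T ∈ s, (x T * (∑ j ∈ T.erase (UGU_ι T), 2 * Real.log (1 / vi p j)) + x T * κ (UGU_ι T)) ≤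
      ∑ T ∈ s, x T * (∑ j ∈ T, κ j) := by
    refine Finset.sum_le_sum fun T hT => ?_
    have := UGU_term hp M κ hκ T ((mem_s T).1 hT).2 (UGU_ι T) (hι T hT) (Co a p (range M) T F z ^ 2)
      (sq_nonneg _)
    rwa [hxT] at this
  have hsum : ∑ T ∈ s, x T * (2 * Real.log (1 / QQ a p (range M) F z (UGU_ι T)) + κ (UGU_ι T)) ≤ R := by
    have e1 : ∑ T ∈ s, x T * (2 * Real.log (1 / QQ a p (range M) F z (UGU_ι T)) + κ (UGU_ι T)) =
        ∑ T ∈ s, x T * (2 * Real.log (1 / QQ a p (range M) F z (UGU_ι T))) + ∑ T ∈ s, x T * κ (UGU_ι T) := by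
      rw [← Finset.sum_add_distrib]
      exact Finset.sum_congr rfl fun T _ => mul_add _ _ _
    rw [Finset.sum_add_distrib] at hterm
    rw [e1, hR]
    have := mul_le_mul_of_nonneg_right hK hcard
    linarith
  obtain ⟨T1, hT1, hxT1, hle⟩ := h3 s x
    (fun T => 2 * Real.log (1 / QQ a p (range M) F z (UGU_ι T)) + κ (UGU_ι T)) R (fun T _ => hx0 T) hpos hsum
  have hi := hι T1 hT1
  obtain ⟨i, hiT⟩ : ∃ i, i = UGU_ι T1 := ⟨_, rfl⟩
  rw [← hiT] at hle hi
  have hiM : i ∈ range M := ((mem_s T1).1 hT1).2 hi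
  have hc0 : 0 ≤ Co a p (range M) T1 F z ^ 2 := sq_nonneg _
  have hwT1 : 0 < wt p T1 := by
    refine lt_of_le_of_ne (wt_nonneg hp T1) (fun h => ?_)
    rw [← hxT, ← h, zero_mul] at hxT1
    exact lt_irrefl _ hxT1
  have hcT1 : 0 < Co a p (range M) T1 F z ^ 2 := by
    refine lt_of_le_of_ne hc0 (fun h => ?_)
    rw [← hxT, ← h, mul_zero] at hxT1
    exact lt_irrefl _ hxT1
  have hvi := UGU_vi_pos hp T1 hwT1 i hi
  have hwe : 0 < wt p (T1.erase i) := by
    refine lt_of_le_of_ne (wt_nonneg hp _) (fun h => ?_)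
    have h5 := wt_insert p (T1.erase i) i (Finset.notMem_erase i T1)
    rw [Finset.insert_erase hi, ← h, mul_zero] at h5
    rw [h5] at hwT1
    exact lt_irrefl _ hwT1
  have hQ : 0 < QQ a p (range M) F z i := by
    unfold QQ
    refine lt_of_lt_of_le (mul_pos hwe hcT1) ?_
    have h6 := Finset.single_le_sum
      (f := fun T : Finset ℕ => wt p T * Co a p (range M) (insert i T) F z ^ 2)
      (s := ((range M).erase i).powerset)
      (fun T _ => mul_nonneg (wt_nonneg hp T) (sq_nonneg _))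
      (Finset.mem_powerset.2 (Finset.erase_subset_erase i ((mem_s T1).1 hT1).2))
    beta_reduce at h6
    rwa [Finset.insert_erase hi] at h6
  have hU := h2 a p (range M) F z hp hF hUn i hiM
  have hwi : wt p {i} = vi p i := by
    rw [wt_eq, Finset.prod_singleton]
  refine ⟨{i}, ?_, ?_, ?_⟩
  · rw [mem_s]
    exact ⟨Finset.singleton_ne_empty i, Finset.singleton_subset_iff.2 hiM⟩
  · rw [← hxT, hwi, hU]
    positivity
  · rw [← hR, hU, Finset.sum_singleton]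
    have e2 : Real.log (1 / QQ a p (range M) F z i ^ 2) = 2 * Real.log (1 / QQ a p (range M) F z i) := by
      rw [one_div, one_div, Real.log_inv, Real.log_inv, Real.log_pow]
      push_cast
      ring
    rw [e2]
    exact hle

end Pool.Agent.MP3145b1.UM
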